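import Mathlib

/-!
MP_8ef934_nt: the number of square roots of `a` modulo `q` (helper95).
-/

set_option autoImplicit false

namespace Pool.Agent.W8ef934h95

/-- the number of square roots of `a` modulo `q` -/
def rts (q a : ℕ) : ℕ := ((Finset.range q).filter (fun x => x * x % q = a % q)).card

/-- Proof. `x ↦ (x % m, x % n)` maps the roots modulo `m * n` injectively (Chinese remainder theorem,
`Nat.modEq_and_modEq_iff_modEq_mul`) into pairs of roots. -/
theorem rts_mul {m n a : ℕ} (hm : 0 < m) (hn : 0 < n) (h : Nat.Coprime m n) :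
    rts (m * n) a ≤ rts m a * rts n a := by
  unfold rts
  rw [← Finset.card_product]
  refine Finset.card_le_card_of_injOn (fun x => (x % m, x % n)) ?_ ?_
  · intro x hx
    have hx2 := (Finset.mem_filter.mp (Finset.mem_coe.mp hx)).2
    have hmod : x * x ≡ a [MOD m * n] := hx2
    have h1 : x * x ≡ a [MOD m] := hmod.of_mul_right n
    have h2 : x * x ≡ a [MOD n] := hmod.of_mul_left m
    simp only [Finset.coe_product, Set.mem_prod, Finset.mem_coe, Finset.mem_filter,
      Finset.mem_range]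
    refine ⟨⟨Nat.mod_lt _ hm, ?_⟩, ⟨Nat.mod_lt _ hn, ?_⟩⟩
    · rw [← Nat.mul_mod]; exact h1
    · rw [← Nat.mul_mod]; exact h2
  · intro x hx y hy hxy
    have hx1 := Finset.mem_range.mp (Finset.mem_filter.mp (Finset.mem_coe.mp hx)).1
    have hy1 := Finset.mem_range.mp (Finset.mem_filter.mp (Finset.mem_coe.mp hy)).1
    simp only [Prod.mk.injEq] at hxy
    have h3 : x ≡ y [MOD m * n] := (Nat.modEq_and_modEq_iff_modEq_mul h).mp ⟨hxy.1, hxy.2⟩
    exact Nat.ModEq.eq_of_lt_of_lt h3 hx1 hy1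

/-- `q` divides the difference of two roots' squares -/
theorem Roots_dvd {q a x y : ℕ} (hx : x * x % q = a % q) (hy : y * y % q = a % q) :
    (q : ℤ) ∣ ((x : ℤ) - y) * ((x : ℤ) + y) := by
  have h : y * y ≡ x * x [MOD q] := by
    unfold Nat.ModEq
    rw [hx, hy]
  have h2 := (Nat.modEq_iff_dvd.mp h)
  have h3 : ((x * x : ℕ) : ℤ) - ((y * y : ℕ) : ℤ) = ((x : ℤ) - y) * ((x : ℤ) + y) := by
    push_cast; ring
  rwa [h3] at h2

/-- Proof. If `x² ≡ y² ≡ a mod p^k` then `p^k ∣ (x - y) * (x + y)` (integers); `p` does not divide both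
factors because `p ∤ 2 x`, so `p^k` divides one of them (`Prime.pow_dvd_of_dvd_mul_left`).  So for a fixed root
`y` all the roots are `y` and `p^k - y`. -/
theorem rts_odd_pow {p k a : ℕ} (hp : p.Prime) (h2 : p ≠ 2) (ha : ¬ p ∣ a) : rts (p ^ k) a ≤ 2 := by
  unfold rts
  rcases Nat.eq_zero_or_pos k with hk | hk
  · subst hk
    refine (Finset.card_filter_le _ _).trans ?_
    simp
  rcases Finset.eq_empty_or_nonempty
    ((Finset.range (p ^ k)).filter (fun x => x * x % (p ^ k) = a % (p ^ k))) with he | ⟨y, hy⟩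
  · rw [he]; simp
  have hpk : p ∣ p ^ k := dvd_pow_self p (by omega)
  obtain ⟨hy1, hy2⟩ := Finset.mem_filter.mp hy
  rw [Finset.mem_range] at hy1
  have hroot : ∀ x, x * x % (p ^ k) = a % (p ^ k) → ¬ p ∣ x := by
    intro x hx hd
    apply ha
    have h1 : x * x ≡ a [MOD p ^ k] := hx
    have h3 : x * x ≡ a [MOD p] := h1.of_dvd hpk
    exact (h3.dvd_iff dvd_rfl).mp (hd.mul_right x)
  have hpy := hroot y hy2
  have hpZ : Prime (p : ℤ) := Nat.prime_iff_prime_int.mp hp
  have hsub : ((Finset.range (p ^ k)).filter (fun x => x * x % (p ^ k) = a % (p ^ k))) ⊆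
      {y, p ^ k - y} := by
    intro x hx
    obtain ⟨hx1, hx2⟩ := Finset.mem_filter.mp hx
    rw [Finset.mem_range] at hx1
    have hd := Roots_dvd hx2 hy2
    push_cast at hd
    rw [Finset.mem_insert, Finset.mem_singleton]
    by_cases hc : (p : ℤ) ∣ (x : ℤ) + y
    · -- then p does not divide x - y ... so p^k divides x + y
      have hnd : ¬ (p : ℤ) ∣ (x : ℤ) - y := by
        intro hd2
        have h4 : (p : ℤ) ∣ 2 * (y : ℤ) := by
          have := dvd_sub hc hd2
          have h5 : ((x : ℤ) + y) - ((x : ℤ) - y) = 2 * y := by ring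
          rwa [h5] at this
        rcases hpZ.dvd_or_dvd h4 with h6 | h6
        · have h7 : p ∣ 2 := by exact_mod_cast h6
          exact h2 ((Nat.prime_dvd_prime_iff_eq hp Nat.prime_two).mp h7)
        · exact hpy (by exact_mod_cast h6)
      have h8 : (p : ℤ) ^ k ∣ (x : ℤ) + y := hpZ.pow_dvd_of_dvd_mul_left k hnd hd
      have h9 : p ^ k ∣ x + y := by exact_mod_cast h8
      right
      obtain ⟨c, hc'⟩ := h9
      have hy0 : 0 < y := by
        rcases Nat.eq_zero_or_pos y with h0 | h0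
        · subst h0; exact absurd (dvd_zero p) hpy
        · exact h0
      have hc1 : c = 1 := by
        have h10 : p ^ k * c < p ^ k * 2 := by omega
        have h11 : c < 2 := lt_of_mul_lt_mul_left h10 (Nat.zero_le _)
        have h12 : 0 < c := by
          rcases Nat.eq_zero_or_pos c with h0 | h0
          · subst h0; omega
          · exact h0
        omega
      subst hc1
      omega
    · have h8 : (p : ℤ) ^ k ∣ (x : ℤ) - y := hpZ.pow_dvd_of_dvd_mul_right k hc hd
      left
      have h13 : (y : ℕ) ≡ x [MOD p ^ k] := by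
        rw [Nat.modEq_iff_dvd]
        exact_mod_cast h8
      exact (Nat.ModEq.eq_of_lt_of_lt h13 hy1 hx1).symm
  refine (Finset.card_le_card hsub).trans ?_
  exact Finset.card_le_two

/-- two odd roots modulo `2 ^ (k + 2)` agree up to sign modulo `2 ^ (k + 1)` -/
theorem Roots_two {k x y : ℕ} (hx : ¬ 2 ∣ x) (hy : ¬ 2 ∣ y)
    (hd : ((2 ^ (k + 2) : ℕ) : ℤ) ∣ ((x : ℤ) - y) * ((x : ℤ) + y)) :
    (2 : ℤ) ^ (k + 1) ∣ (x : ℤ) - y ∨ (2 : ℤ) ^ (k + 1) ∣ (x : ℤ) + y := by
  obtain ⟨s, rfl⟩ : ∃ s, x = 2 * s + 1 := ⟨x / 2, by omega⟩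
  obtain ⟨t, rfl⟩ : ∃ t, y = 2 * t + 1 := ⟨y / 2, by omega⟩
  have e1 : (((2 * s + 1 : ℕ) : ℤ) - ((2 * t + 1 : ℕ) : ℤ)) = 2 * ((s : ℤ) - t) := by
    push_cast; ring
  have e2 : (((2 * s + 1 : ℕ) : ℤ) + ((2 * t + 1 : ℕ) : ℤ)) = 2 * ((s : ℤ) + t + 1) := by
    push_cast; ring
  rw [e1, e2] at hd ⊢
  have hd2 : (2 : ℤ) ^ k ∣ ((s : ℤ) - t) * ((s : ℤ) + t + 1) := by
    have e3 : 2 * ((s : ℤ) - t) * (2 * ((s : ℤ) + t + 1)) =
        2 ^ 2 * (((s : ℤ) - t) * ((s : ℤ) + t + 1)) := by ring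
    have e4 : ((2 ^ (k + 2) : ℕ) : ℤ) = 2 ^ 2 * 2 ^ k := by push_cast; ring
    rw [e3, e4] at hd
    exact Int.dvd_of_mul_dvd_mul_left (by norm_num) hd
  have e5 : (2 : ℤ) ^ (k + 1) = 2 * 2 ^ k := by ring
  rw [e5]
  by_cases hc : (2 : ℤ) ∣ (s : ℤ) - t
  · left
    have hn : ¬ (2 : ℤ) ∣ (s : ℤ) + t + 1 := by omega
    exact mul_dvd_mul_left 2 (Int.prime_two.pow_dvd_of_dvd_mul_right k hn hd2)
  · right
    exact mul_dvd_mul_left 2 (Int.prime_two.pow_dvd_of_dvd_mul_left k hc hd2)

/-- Proof. For `k ≤ 3` this is a finite check (replace `a` by `a % 2^k`; bounds 1, 1, 2, 4).  For `k ≥ 2` and odd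
`x`, `y` with `2^k ∣ (x - y) * (x + y)`: one of the two factors is `2` modulo `4`, so `2^(k-1)` divides the
other one; hence `x ≡ ± y` modulo `2^(k-1)`, four classes modulo `2^k`. -/
theorem rts_two_pow {k a : ℕ} (ha : ¬ 2 ∣ a) :
    rts (2 ^ k) a ≤ 4 ∧ (k ≤ 1 → rts (2 ^ k) a ≤ 1) ∧ (k = 2 → rts (2 ^ k) a ≤ 2) := by
  have h0 : rts (2 ^ 0) a ≤ 1 := by
    unfold rts
    refine (Finset.card_filter_le _ _).trans ?_
    simp
  have h1 : rts (2 ^ 1) a ≤ 1 := by
    unfold rts
    have h : a % 2 = 1 := by omega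
    simp only [pow_one, h]
    decide
  have h2 : rts (2 ^ 2) a ≤ 2 := by
    unfold rts
    have h : a % 2 ^ 2 = 1 ∨ a % 2 ^ 2 = 3 := by
      have : (2 : ℕ) ^ 2 = 4 := by norm_num
      rw [this]; omega
    rcases h with h | h
    · rw [h]; decide
    · rw [h]; decide
  have h4 : ∀ j, rts (2 ^ (j + 2)) a ≤ 4 := by
    intro j
    unfold rts
    rcases Finset.eq_empty_or_nonempty
      ((Finset.range (2 ^ (j + 2))).filter
        (fun x => x * x % (2 ^ (j + 2)) = a % (2 ^ (j + 2)))) with he | ⟨y, hy⟩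
    · rw [he]; simp
    obtain ⟨hy1, hy2⟩ := Finset.mem_filter.mp hy
    rw [Finset.mem_range] at hy1
    have h2d : 2 ∣ 2 ^ (j + 2) := dvd_pow_self 2 (by omega)
    have hroot : ∀ x, x * x % (2 ^ (j + 2)) = a % (2 ^ (j + 2)) → ¬ 2 ∣ x := by
      intro x hx hd
      apply ha
      have h1 : x * x ≡ a [MOD 2 ^ (j + 2)] := hx
      have h3 : x * x ≡ a [MOD 2] := h1.of_dvd h2d
      exact (h3.dvd_iff dvd_rfl).mp (hd.mul_right x)
    have hpy := hroot y hy2
    set M : ℕ := 2 ^ (j + 1) with hM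
    have hMpos : 0 < M := by positivity
    have hMM : 2 ^ (j + 2) = 2 * M := by rw [hM]; ring
    have hcard : ((Finset.range 2) ×ˢ ({y % M, (M - y % M) % M} : Finset ℕ)).card ≤ 4 := by
      rw [Finset.card_product, Finset.card_range]
      have := Finset.card_le_two (a := y % M) (b := (M - y % M) % M)
      omega
    refine le_trans (Finset.card_le_card_of_injOn (fun x => (x / M, x % M)) ?_ ?_) hcard
    · intro x hx
      obtain ⟨hx1, hx2⟩ := Finset.mem_filter.mp (Finset.mem_coe.mp hx)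
      rw [Finset.mem_range] at hx1
      have hd := Roots_two (hroot x hx2) hpy (Roots_dvd hx2 hy2)
      simp only [Finset.coe_product, Set.mem_prod, Finset.mem_coe, Finset.mem_range,
        Finset.mem_insert, Finset.mem_singleton]
      refine ⟨?_, ?_⟩
      · rw [Nat.div_lt_iff_lt_mul hMpos]
        rw [← hMM]; exact hx1
      · have hMZ : ((M : ℕ) : ℤ) = (2 : ℤ) ^ (j + 1) := by rw [hM]; push_cast; ring
        rw [← hMZ] at hd
        rcases hd with hd | hd
        · left
          have h13 : y ≡ x [MOD M] := by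
            rw [Nat.modEq_iff_dvd]
            exact hd
          exact h13.symm
        · right
          have h14 : M ∣ x + y := by exact_mod_cast hd
          have h15 : x + y % M ≡ (M - y % M) + y % M [MOD M] := by
            have h16 : y % M < M := Nat.mod_lt _ hMpos
            have h17 : (M - y % M) + y % M = M := by omega
            rw [h17]
            have h18 : x + y % M ≡ x + y [MOD M] := Nat.ModEq.add_left x (Nat.mod_modEq y M)
            refine h18.trans ?_
            have h19 : x + y ≡ 0 [MOD M] := (Nat.modEq_zero_iff_dvd).mpr h14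
            have h20 : M ≡ 0 [MOD M] := (Nat.modEq_zero_iff_dvd).mpr dvd_rfl
            exact h19.trans h20.symm
          exact Nat.ModEq.add_right_cancel' _ h15
    · intro x _ x' _ hxx
      simp only [Prod.mk.injEq] at hxx
      rw [← Nat.div_add_mod x M, ← Nat.div_add_mod x' M, hxx.1, hxx.2]
  refine ⟨?_, ?_, ?_⟩
  · rcases k with _ | _ | j
    · exact h0.trans (by norm_num)
    · exact h1.trans (by norm_num)
    · exact h4 j
  · intro hk
    rcases k with _ | _ | j
    · exact h0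
    · exact h1
    · omega
  · intro hk
    subst hk
    exact h2

end Pool.Agent.W8ef934h95
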