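import Mathlib
import Pool.Prelude.Def_F_e853f830
import Pool.Agent.W_8ef934_h95.Roots

/-!
MP_8ef934_nt: the set of the square roots of the squares in the progression (helper95).
-/

set_option autoImplicit false
open Necdea073

namespace Pool.Agent.W8ef934h95

open Classical in
/-- the numbers `x` such that `x²` is one of the first `N` terms of the progression -/
noncomputable def sol (N q a : ℕ) : Finset ℕ :=
  (Finset.range (q * N + a + 1)).filter (fun x => ∃ n < N, x * x = q * n + a)

/-- Proof. If `x * x = q * n + a` with `n < N` then `x ≤ x * x < q * N + a + 1`. -/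
theorem mem_sol {N q a x : ℕ} : x ∈ sol N q a ↔ ∃ n < N, x * x = q * n + a := by
  classical
  unfold sol
  rw [Finset.mem_filter, Finset.mem_range]
  constructor
  · rintro ⟨_, h⟩
    exact h
  · rintro ⟨n, hn, h⟩
    refine ⟨?_, n, hn, h⟩
    have h1 : x ≤ x * x := Nat.le_mul_self x
    have h2 : q * n ≤ q * N := Nat.mul_le_mul_left q hn.le
    omega

/-- Proof. `n ↦ Nat.sqrt (q * n + a)` is a bijection from `{n | n < N ∧ IsSquare (q * n + a)}` onto
`sol N q a` (`Set.ncard_image_of_injOn`, `Set.ncard_coe_finset`; injective because `q > 0`). -/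
theorem card_sol {N q a : ℕ} (hq : 0 < q) : (sol N q a).card = Q N q a := by
  classical
  have himg : (fun n => Nat.sqrt (q * n + a)) '' {n : ℕ | n < N ∧ IsSquare (q * n + a)}
      = (sol N q a : Set ℕ) := by
    ext x
    constructor
    · rintro ⟨n, ⟨hn, r, hr⟩, rfl⟩
      rw [Finset.mem_coe, mem_sol]
      refine ⟨n, hn, ?_⟩
      show Nat.sqrt (q * n + a) * Nat.sqrt (q * n + a) = q * n + a
      rw [hr, Nat.sqrt_eq]
    · intro hx
      rw [Finset.mem_coe, mem_sol] at hx
      obtain ⟨n, hn, h⟩ := hx
      refine ⟨n, ⟨hn, x, h.symm⟩, ?_⟩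
      show Nat.sqrt (q * n + a) = x
      rw [← h, Nat.sqrt_eq]
  have hinj : Set.InjOn (fun n => Nat.sqrt (q * n + a)) {n : ℕ | n < N ∧ IsSquare (q * n + a)} := by
    rintro n ⟨hn, r, hr⟩ m ⟨hm, s, hs⟩ h
    have h' : Nat.sqrt (q * n + a) = Nat.sqrt (q * m + a) := h
    rw [hr, hs, Nat.sqrt_eq, Nat.sqrt_eq] at h'
    subst h'
    have h3 : q * n + a = q * m + a := hr.trans hs.symm
    have h4 : q * n = q * m := Nat.add_right_cancel h3
    exact Nat.eq_of_mul_eq_mul_left hq h4
  have h1 := hinj.ncard_image
  rw [himg, Set.ncard_coe_finset] at h1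
  exact h1

theorem Count_block {q m M r : ℕ} (hq : 0 < q) (S : Finset ℕ)
    (hS : ∀ x ∈ S, m ≤ x ∧ x ≤ M ∧ x % q = r) : S.card ≤ (M - m) / q + 1 := by
  have h := Finset.card_le_card_of_injOn (s := S) (t := Finset.range ((M - m) / q + 1))
    (fun x => (x - m) / q) (by
      intro x hx
      obtain ⟨h1, h2, h3⟩ := hS x hx
      have : (x - m) / q ≤ (M - m) / q := Nat.div_le_div_right (by omega)
      simp only [Finset.coe_range, Set.mem_Iio]
      omega) (by
      intro x hx y hy hxy
      obtain ⟨h1, h2, h3⟩ := hS x hx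
      obtain ⟨h4, h5, h6⟩ := hS y hy
      have hxy' : (x - m) / q = (y - m) / q := hxy
      have hmod : (x - m) % q = (y - m) % q := by
        have : x ≡ y [MOD q] := h3.trans h6.symm
        have e : (x - m) + m ≡ (y - m) + m [MOD q] := by
          rw [Nat.sub_add_cancel h1, Nat.sub_add_cancel h4]; exact this
        exact Nat.ModEq.add_right_cancel' m e
      have e1 := Nat.div_add_mod (x - m) q
      have e2 := Nat.div_add_mod (y - m) q
      rw [hxy', hmod] at e1
      have : x - m = y - m := e1.symm.trans e2
      omega)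
  rwa [Finset.card_range] at h

/-- Proof. Let `m` and `M` be the smallest and the largest element (the set may be assumed to be non-empty) and
`L = M - m`.  Then `L² ≤ M² - m² ≤ q (N - 1)`.  Each `x ∈ sol` satisfies
`(x % q) * (x % q) % q = a % q`, and the number of elements of `[m, M]` in a fixed class modulo `q` is at most
`L / q + 1` (the map `x ↦ (x - m) / q` is injective on them, with values in `range (L / q + 1)`).  So
`card ≤ rts q a * (L / q + 1)` and `L / q ≤ √(q N) / q = √(N / q)` (as real numbers). -/
theorem card_sol_le {N q a : ℕ} (hq : 0 < q) :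
    ((sol N q a).card : ℝ) ≤ rts q a * (Real.sqrt (N / q) + 1) := by
  classical
  rcases (sol N q a).eq_empty_or_nonempty with he | hne
  · rw [he]
    simp only [Finset.card_empty, Nat.cast_zero]
    positivity
  · set m := (sol N q a).min' hne with hm
    set M := (sol N q a).max' hne with hM
    have hmem : m ∈ sol N q a := Finset.min'_mem _ _
    have hMmem : M ∈ sol N q a := Finset.max'_mem _ _
    have hmM : m ≤ M := Finset.min'_le _ _ hMmem
    have hLsq : (M - m) * (M - m) ≤ q * N := by
      obtain ⟨n1, hn1, h1⟩ := mem_sol.1 hmem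
      obtain ⟨n2, hn2, h2⟩ := mem_sol.1 hMmem
      obtain ⟨d, hd⟩ := Nat.exists_eq_add_of_le hmM
      have h3 : M - m = d := by omega
      rw [h3]
      have h4 : d * d + m * m ≤ M * M := by
        rw [hd]; nlinarith
      have h5 : q * n2 ≤ q * N := Nat.mul_le_mul_left q hn2.le
      have h6 : M * M ≤ q * N + a := by rw [h2]; omega
      have h7 : a ≤ m * m := by rw [h1]; omega
      omega
    have hcard : (sol N q a).card ≤ rts q a * ((M - m) / q + 1) := by
      unfold rts
      have := Finset.card_le_mul_card_image_of_maps_to (s := sol N q a)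
        (t := (Finset.range q).filter (fun x => x * x % q = a % q)) (f := fun x => x % q)
        (by
          intro x hx
          obtain ⟨n, hn, h⟩ := mem_sol.1 hx
          rw [Finset.mem_filter, Finset.mem_range]
          refine ⟨Nat.mod_lt _ hq, ?_⟩
          show (x % q) * (x % q) % q = a % q
          rw [← Nat.mul_mod, h, Nat.mul_add_mod]) ((M - m) / q + 1)
        (by
          intro r hr
          refine Count_block (r := r) hq _ ?_
          intro x hx
          rw [Finset.mem_filter] at hx
          exact ⟨Finset.min'_le _ _ hx.1, Finset.le_max' _ _ hx.1, hx.2⟩)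
      rw [mul_comm] at this
      exact this
    have hLr : ((M - m : ℕ) : ℝ) / q ≤ Real.sqrt (N / q) := by
      apply Real.le_sqrt_of_sq_le
      have hq' : (0 : ℝ) < q := by exact_mod_cast hq
      rw [div_pow, div_le_div_iff₀ (by positivity) hq']
      have : (((M - m) * (M - m) : ℕ) : ℝ) ≤ ((q * N : ℕ) : ℝ) := by exact_mod_cast hLsq
      push_cast at this ⊢
      have h8 : ((M - m : ℕ) : ℝ) ^ 2 * q ≤ (q * N) * q := by
        have h9 : ((M - m : ℕ) : ℝ) ^ 2 ≤ q * N := by
          rw [sq]; exact this
        exact mul_le_mul_of_nonneg_right h9 hq'.le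
      nlinarith
    calc ((sol N q a).card : ℝ) ≤ ((rts q a * ((M - m) / q + 1) : ℕ) : ℝ) := by exact_mod_cast hcard
      _ = (rts q a : ℝ) * ((((M - m) / q : ℕ) : ℝ) + 1) := by push_cast; ring
      _ ≤ (rts q a : ℝ) * (Real.sqrt (N / q) + 1) := by
          apply mul_le_mul_of_nonneg_left _ (Nat.cast_nonneg _)
          have := (Nat.cast_div_le (α := ℝ) (m := M - m) (n := q))
          linarith

end Pool.Agent.W8ef934h95
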