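import Mathlib
import Pool.Agent.W_8ef934_h95.Roots

/-!
MP_8ef934_nt: the number of square roots of `a` modulo `q`, bounds (helper95).
-/

set_option autoImplicit false

namespace Pool.Agent.W8ef934h95

/-- Proof. Induction on the factorisation (`Nat.recOnPosPrimePosCoprime`), `rts_mul`, `rts_odd_pow`,
`Nat.Coprime.primeFactors_mul`, `Nat.primeFactors_prime_pow`; `rts 1 a = 1`. -/
theorem rts_odd {m a : ℕ} (hm : 0 < m) (h2 : ¬ 2 ∣ m) (h : Nat.Coprime m a) :
    rts m a ≤ 2 ^ m.primeFactors.card := by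
  induction m using Nat.recOnPosPrimePosCoprime with
  | prime_pow p n hp hn =>
    have hpn : p ∣ p ^ n := dvd_pow_self p (by omega)
    have h3 : p ≠ 2 := by
      rintro rfl
      exact h2 hpn
    have h4 : ¬ p ∣ a := by
      intro hd
      have h5 : p ∣ Nat.gcd (p ^ n) a := Nat.dvd_gcd hpn hd
      rw [h] at h5
      exact hp.one_lt.ne' (Nat.dvd_one.1 h5)
    rw [Nat.primeFactors_prime_pow (by omega) hp, Finset.card_singleton, pow_one]
    exact rts_odd_pow hp h3 h4
  | zero => exact absurd hm (lt_irrefl 0)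
  | one =>
    unfold rts
    refine (Finset.card_filter_le _ _).trans ?_
    simp
  | coprime u v hu hv huv ihu ihv =>
    have h3 := ihu (by omega) (fun hd => h2 (hd.mul_right v)) (Nat.Coprime.coprime_mul_right h)
    have h4 := ihv (by omega) (fun hd => h2 (hd.mul_left u)) (Nat.Coprime.coprime_mul_left h)
    rw [huv.primeFactors_mul, Finset.card_union_of_disjoint huv.disjoint_primeFactors, pow_add]
    exact (rts_mul (by omega) (by omega) huv).trans (Nat.mul_le_mul h3 h4)

/-- Proof. `q = 2^k * m` with `m` odd; `rts_mul`, `rts_two_pow`, `rts_odd`. (If `k = 0` then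
`q` is odd; if `k ≥ 1` then `q` has one more prime factor than `m`, and `4 = 2 ^ 2`.) -/
theorem rts_le_pow {q a : ℕ} (hq : 0 < q) (h : Nat.Coprime q a) :
    rts q a ≤ 2 ^ (q.primeFactors.card + 1) := by
  obtain ⟨k, m, hm, hqm⟩ := Nat.exists_eq_pow_mul_and_not_dvd hq.ne' 2 (by norm_num)
  subst hqm
  have hm0 : 0 < m := Nat.pos_of_ne_zero (fun h0 => hm (h0 ▸ dvd_zero 2))
  have hcop : Nat.Coprime (2 ^ k) m :=
    Nat.Coprime.pow_left k ((Nat.Prime.coprime_iff_not_dvd Nat.prime_two).2 hm)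
  have h1 := rts_mul (a := a) (pow_pos (by norm_num : 0 < 2) k) hm0 hcop
  have h2 := rts_odd hm0 hm (Nat.Coprime.coprime_mul_left h)
  rcases Nat.eq_zero_or_pos k with hk | hk
  · subst hk
    rw [pow_zero, one_mul]
    exact h2.trans (Nat.pow_le_pow_right (by norm_num) (by omega))
  · have ha : ¬ 2 ∣ a := by
      intro hd
      have h5 : 2 ∣ Nat.gcd (2 ^ k * m) a :=
        Nat.dvd_gcd ((dvd_pow_self 2 (by omega)).mul_right m) hd
      rw [h] at h5
      omega
    have h3 := (rts_two_pow (k := k) ha).1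
    rw [hcop.primeFactors_mul, Finset.card_union_of_disjoint hcop.disjoint_primeFactors,
      Nat.primeFactors_prime_pow (by omega) Nat.prime_two, Finset.card_singleton]
    calc rts (2 ^ k * m) a ≤ rts (2 ^ k) a * rts m a := h1
      _ ≤ 4 * 2 ^ m.primeFactors.card := Nat.mul_le_mul h3 h2
      _ = 2 ^ (1 + m.primeFactors.card + 1) := by ring

/-- the number of prime factors of a number coprime to `6` -/
theorem Roots2_five {m : ℕ} (hm : 0 < m) (h2 : ¬ 2 ∣ m) (h3 : ¬ 3 ∣ m) :
    5 ^ m.primeFactors.card ≤ m := by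
  refine le_trans ?_ (Nat.le_of_dvd hm (Nat.prod_primeFactors_dvd m))
  refine Finset.pow_card_le_prod _ _ _ (fun p hp => ?_)
  have hpp := Nat.prime_of_mem_primeFactors hp
  have hpd := Nat.dvd_of_mem_primeFactors hp
  by_contra hc
  rw [not_le] at hc
  have h1 := hpp.two_le
  interval_cases p
  · exact h2 hpd
  · exact h3 hpd
  · exact absurd hpp (by norm_num)

/-- Proof. `q = 2^e * 3^b * m` with `m` coprime to `6`.  By the lemmas above
`rts q a ≤ c_e * d_b * 2^ω(m)` with `c_e = 1, 1, 2, 4, 4, …` for `e = 0, 1, 2, 3, 4, …` and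
`d_0 = 1`, `d_b = 2` for `b ≥ 1`.  Here `c_e² ≤ 2 * 2^e`, and `c_e² ≤ 2^e` if `e ≠ 3`; `3 d_b² ≤ 4 * 3^b`, and
`d_b² ≤ 3^b` if `b ≠ 1`; `5^ω(m) ≤ m` because all prime factors of `m` are at least `5`, so
`4^ω(m) ≤ m`, and `5 * 4^ω(m) ≤ 4 m` if `m ≠ 1`.  As `q ≠ 24`, one of the three improved bounds is available:
`2 * (4/3) * (4/5) = 32/15`, `2 * 1 * 1 ≤ 32/15`, `1 * (4/3) * 1 ≤ 32/15`. -/
theorem rts_sq {q a : ℕ} (hq : 0 < q) (h : Nat.Coprime q a) (h24 : q ≠ 24) :
    15 * rts q a ^ 2 ≤ 32 * q := by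
  obtain ⟨e, q', hq2, hqq⟩ := Nat.exists_eq_pow_mul_and_not_dvd hq.ne' 2 (by norm_num)
  subst hqq
  have hq0 : q' ≠ 0 := fun h0 => hq2 (h0 ▸ dvd_zero 2)
  obtain ⟨b, m, hm3, hqm⟩ := Nat.exists_eq_pow_mul_and_not_dvd hq0 3 (by norm_num)
  subst hqm
  have hm2 : ¬ 2 ∣ m := fun hd => hq2 (hd.mul_left _)
  have hm0 : 0 < m := Nat.pos_of_ne_zero (fun h0 => hm2 (h0 ▸ dvd_zero 2))
  have hc1 : Nat.Coprime (2 ^ e) (3 ^ b * m) :=
    Nat.Coprime.pow_left e ((Nat.Prime.coprime_iff_not_dvd Nat.prime_two).2 hq2)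
  have hc2 : Nat.Coprime (3 ^ b) m :=
    Nat.Coprime.pow_left b ((Nat.Prime.coprime_iff_not_dvd Nat.prime_three).2 hm3)
  have h1 := rts_mul (a := a) (pow_pos (by norm_num : 0 < 2) e) (Nat.pos_of_ne_zero hq0) hc1
  have h2 := rts_mul (a := a) (pow_pos (by norm_num : 0 < 3) b) hm0 hc2
  have hma : Nat.Coprime m a :=
    Nat.Coprime.coprime_mul_left (Nat.Coprime.coprime_mul_left h)
  have h3 := rts_odd hm0 hm2 hma
  have h5 := Roots2_five hm0 hm2 hm3
  -- the factor at 2
  have hE : rts (2 ^ e) a ^ 2 ≤ 2 * 2 ^ e ∧ (e ≠ 3 → rts (2 ^ e) a ^ 2 ≤ 2 ^ e) := by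
    rcases Nat.eq_zero_or_pos e with he | he
    · subst he
      have h4 : rts (2 ^ 0) a ≤ 1 := by
        unfold rts
        refine (Finset.card_filter_le _ _).trans ?_
        simp
      have h6 : rts (2 ^ 0) a ^ 2 ≤ 1 ^ 2 := Nat.pow_le_pow_left h4 2
      constructor
      · omega
      · intro _
        omega
    · have ha : ¬ 2 ∣ a := by
        intro hd
        have h6 : 2 ∣ Nat.gcd (2 ^ e * (3 ^ b * m)) a :=
          Nat.dvd_gcd ((dvd_pow_self 2 (by omega)).mul_right _) hd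
        rw [h] at h6
        omega
      obtain ⟨k1, k2, k3⟩ := rts_two_pow (k := e) ha
      have hcase : e = 1 ∨ e = 2 ∨ e = 3 ∨ 4 ≤ e := by omega
      rcases hcase with he1 | he1 | he1 | he1
      · have h6 := Nat.pow_le_pow_left (k2 (by omega)) 2
        subst he1
        constructor
        · omega
        · intro _
          omega
      · have h6 := Nat.pow_le_pow_left (k3 he1) 2
        subst he1
        constructor
        · omega
        · intro _
          omega
      · have h6 := Nat.pow_le_pow_left k1 2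
        subst he1
        constructor
        · omega
        · intro h7
          exact absurd rfl h7
      · have h6 := Nat.pow_le_pow_left k1 2
        have h7 : 2 ^ 4 ≤ 2 ^ e := Nat.pow_le_pow_right (by norm_num) he1
        constructor
        · omega
        · intro _
          omega
  -- the factor at 3
  have hB : 3 * rts (3 ^ b) a ^ 2 ≤ 4 * 3 ^ b ∧ (b ≠ 1 → rts (3 ^ b) a ^ 2 ≤ 3 ^ b) := by
    rcases Nat.eq_zero_or_pos b with hb | hb
    · subst hb
      have h4 : rts (3 ^ 0) a ≤ 1 := by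
        unfold rts
        refine (Finset.card_filter_le _ _).trans ?_
        simp
      have h6 : rts (3 ^ 0) a ^ 2 ≤ 1 ^ 2 := Nat.pow_le_pow_left h4 2
      constructor
      · omega
      · intro _
        omega
    · have ha : ¬ 3 ∣ a := by
        intro hd
        have h6 : 3 ∣ Nat.gcd (2 ^ e * (3 ^ b * m)) a :=
          Nat.dvd_gcd (((dvd_pow_self 3 (by omega)).mul_right m).mul_left _) hd
        rw [h] at h6
        omega
      have k1 := rts_odd_pow (k := b) Nat.prime_three (by norm_num) ha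
      have h6 := Nat.pow_le_pow_left k1 2
      have hcase : b = 1 ∨ 2 ≤ b := by omega
      rcases hcase with hb1 | hb1
      · subst hb1
        constructor
        · omega
        · intro h7
          exact absurd rfl h7
      · have h7 : 3 ^ 2 ≤ 3 ^ b := Nat.pow_le_pow_right (by norm_num) hb1
        constructor
        · omega
        · intro _
          omega
  -- the remaining factor
  have hW : rts m a ^ 2 ≤ m ∧ (m ≠ 1 → 5 * rts m a ^ 2 ≤ 4 * m) := by
    have h6 : rts m a ^ 2 ≤ 4 ^ m.primeFactors.card := by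
      refine (Nat.pow_le_pow_left h3 2).trans (le_of_eq ?_)
      rw [← pow_mul, mul_comm, pow_mul]
      norm_num
    constructor
    · exact (h6.trans (Nat.pow_le_pow_left (by norm_num) _)).trans h5
    · intro hm1
      have h7 : m.primeFactors.card ≠ 0 := by
        rw [Finset.card_ne_zero, Nat.nonempty_primeFactors]
        omega
      obtain ⟨w, hw⟩ := Nat.exists_eq_succ_of_ne_zero h7
      rw [hw] at h5 h6
      have h8 : 4 ^ w ≤ 5 ^ w := Nat.pow_le_pow_left (by norm_num) w
      rw [Nat.succ_eq_add_one, pow_succ 5 w] at h5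
      rw [Nat.succ_eq_add_one, pow_succ 4 w] at h6
      omega
  have hprod : rts (2 ^ e * (3 ^ b * m)) a ^ 2 ≤
      rts (2 ^ e) a ^ 2 * (rts (3 ^ b) a ^ 2 * rts m a ^ 2) := by
    rw [← mul_pow, ← mul_pow]
    exact Nat.pow_le_pow_left (h1.trans (Nat.mul_le_mul le_rfl h2)) 2
  generalize rts (2 ^ e * (3 ^ b * m)) a ^ 2 = R at hprod ⊢
  generalize rts (2 ^ e) a ^ 2 = C at hprod hE
  generalize rts (3 ^ b) a ^ 2 = D at hprod hB
  generalize rts m a ^ 2 = W at hprod hW
  by_cases hm1 : m = 1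
  · by_cases hb1 : b = 1
    · have he3 : e ≠ 3 := by
        rintro rfl
        apply h24
        rw [hm1, hb1]
        norm_num
      have k1 : C * (3 * D * W) ≤ 2 ^ e * (4 * 3 ^ b * m) :=
        Nat.mul_le_mul (hE.2 he3) (Nat.mul_le_mul hB.1 hW.1)
      have k2 : C * (3 * D * W) = 3 * (C * (D * W)) := by ring
      have k3 : 2 ^ e * (4 * 3 ^ b * m) = 4 * (2 ^ e * (3 ^ b * m)) := by ring
      rw [k2, k3] at k1
      omega
    · have k1 : C * (D * W) ≤ 2 * 2 ^ e * (3 ^ b * m) :=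
        Nat.mul_le_mul hE.1 (Nat.mul_le_mul (hB.2 hb1) hW.1)
      have k3 : 2 * 2 ^ e * (3 ^ b * m) = 2 * (2 ^ e * (3 ^ b * m)) := by ring
      rw [k3] at k1
      omega
  · have k1 : C * (3 * D * (5 * W)) ≤ 2 * 2 ^ e * (4 * 3 ^ b * (4 * m)) :=
      Nat.mul_le_mul hE.1 (Nat.mul_le_mul hB.1 (hW.2 hm1))
    have k2 : C * (3 * D * (5 * W)) = 15 * (C * (D * W)) := by ring
    have k3 : 2 * 2 ^ e * (4 * 3 ^ b * (4 * m)) = 32 * (2 ^ e * (3 ^ b * m)) := by ring
    rw [k2, k3] at k1
    exact (Nat.mul_le_mul le_rfl hprod).trans k1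

end Pool.Agent.W8ef934h95
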