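import Mathlib
import Pool.Agent.W_8ef934_h95.Count
import Pool.Agent.W_8ef934_h95.Roots2

/-!
MP_8ef934_nt: small moduli, and moduli with very few prime factors (helper95).
-/

set_option autoImplicit false
open Necdea073

namespace Pool.Agent.W8ef934h95

/-- Proof. `card_sol_le` and `rts_sq`: `rts q a ≤ √(32/15) √q`, so `card ≤ √(32/15) (√N + √q)` and
`√q ≤ √N / 10`; `1.1 * √(32/15) ≤ 1.61`. -/
theorem caseI {N q a : ℕ} (hq : 0 < q) (hqa : Nat.Coprime q a) (h24 : q ≠ 24) (h : 100 * q ≤ N) :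
    ((sol N q a).card : ℝ) ≤ 1.61 * Real.sqrt N := by
  have h1 := card_sol_le (N := N) (a := a) hq
  have h2 := rts_sq hq hqa h24
  have hq' : (0 : ℝ) < q := by exact_mod_cast hq
  have h3 : 15 * (rts q a : ℝ) ^ 2 ≤ 32 * q := by exact_mod_cast h2
  have h4 : (100 : ℝ) * q ≤ N := by exact_mod_cast h
  have ht : 0 < Real.sqrt q := Real.sqrt_pos.2 hq'
  have hs : 0 ≤ Real.sqrt N := Real.sqrt_nonneg _
  have htt : Real.sqrt q * Real.sqrt q = q := Real.mul_self_sqrt hq'.le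
  have h5 : (rts q a : ℝ) ≤ 1.4606 * Real.sqrt q := by
    refine abs_le_of_sq_le_sq' ?_ (by positivity) |>.2
    nlinarith
  have h6 : 10 * Real.sqrt q ≤ Real.sqrt N := by
    have h7 : Real.sqrt (100 * q) ≤ Real.sqrt N := Real.sqrt_le_sqrt h4
    rw [Real.sqrt_mul (by norm_num)] at h7
    have h8 : Real.sqrt 100 = 10 := by
      rw [show (100 : ℝ) = 10 ^ 2 by norm_num]
      exact Real.sqrt_sq (by norm_num)
    rwa [h8] at h7
  have h9 : Real.sqrt ((N : ℝ) / q) = Real.sqrt N / Real.sqrt q := Real.sqrt_div (Nat.cast_nonneg _) _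
  rw [h9] at h1
  have h10 : (rts q a : ℝ) * (Real.sqrt N / Real.sqrt q) ≤ 1.4606 * Real.sqrt N := by
    have h11 : 0 ≤ Real.sqrt N / Real.sqrt q := by positivity
    calc (rts q a : ℝ) * (Real.sqrt N / Real.sqrt q)
        ≤ (1.4606 * Real.sqrt q) * (Real.sqrt N / Real.sqrt q) :=
          mul_le_mul_of_nonneg_right h5 h11
      _ = 1.4606 * Real.sqrt N := by field_simp
  nlinarith

/-- Proof. `card_sol_le`, `rts_le_pow` and `√(N/q) ≤ 10`. -/
theorem caseII {N q a : ℕ} (hq : 0 < q) (hqa : Nat.Coprime q a) (h : N ≤ 100 * q) :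
    ((sol N q a).card : ℝ) ≤ 22 * 2 ^ q.primeFactors.card := by
  have h1 := card_sol_le (N := N) (a := a) hq
  have h2 := rts_le_pow hq hqa
  have hq' : (0 : ℝ) < q := by exact_mod_cast hq
  have h3 : (rts q a : ℝ) ≤ 2 ^ (q.primeFactors.card + 1) := by exact_mod_cast h2
  have h4 : (N : ℝ) ≤ 100 * q := by exact_mod_cast h
  have h5 : Real.sqrt ((N : ℝ) / q) ≤ 10 := by
    have h6 : (N : ℝ) / q ≤ 10 ^ 2 := by
      rw [div_le_iff₀ hq']
      linarith
    calc Real.sqrt ((N : ℝ) / q) ≤ Real.sqrt (10 ^ 2) := Real.sqrt_le_sqrt h6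
      _ = 10 := Real.sqrt_sq (by norm_num)
  have h7 : (0 : ℝ) ≤ Real.sqrt ((N : ℝ) / q) := Real.sqrt_nonneg _
  calc ((sol N q a).card : ℝ) ≤ rts q a * (Real.sqrt (N / q) + 1) := h1
    _ ≤ 2 ^ (q.primeFactors.card + 1) * (10 + 1) := by
        apply mul_le_mul h3 (by linarith) (by linarith) (by positivity)
    _ = 22 * 2 ^ q.primeFactors.card := by ring

end Pool.Agent.W8ef934h95
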