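import Mathlib
import Pool.Agent.W_8ef934_h95.Count

/-!
MP_8ef934_nt: the sign vectors of the solutions (helper95).
-/

set_option autoImplicit false
open Necdea073

namespace Pool.Agent.W8ef934h95

/-- the prime power attached to the prime factor `p` of `q` (one factor `2` is dropped for `p = 2`) -/
def pw (q p : ℕ) : ℕ := if p = 2 then 2 ^ (q.factorization 2 - 1) else p ^ (q.factorization p)

open Classical in
/-- the sign of `x` relative to `x₀` -/
noncomputable def eps (q x₀ p x : ℕ) : ℝ := if (pw q p : ℤ) ∣ (x : ℤ) - x₀ then 1 else -1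

theorem eps_sq (q x₀ p x : ℕ) : eps q x₀ p x * eps q x₀ p x = 1 := by
  unfold eps; split_ifs <;> norm_num

theorem pw_pos {q p : ℕ} (hp : p ∈ q.primeFactors) : 0 < pw q p := by
  unfold pw
  have := (Nat.prime_of_mem_primeFactors hp).pos
  split_ifs <;> positivity

theorem Sign_log_pw_eq {q p : ℕ} (hp : p ∈ q.primeFactors) :
    Real.log (pw q p) = q.factorization p * Real.log p - (if p = 2 then Real.log 2 else 0) := by
  have hpp := Nat.prime_of_mem_primeFactors hp
  have hk : 1 ≤ q.factorization p :=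
    (hpp.dvd_iff_one_le_factorization (Nat.mem_primeFactors.1 hp).2.2).1 (Nat.mem_primeFactors.1 hp).2.1
  unfold pw
  split_ifs with h
  · subst h
    push_cast
    rw [Real.log_pow, Nat.cast_sub hk]
    push_cast
    ring
  · push_cast
    rw [Real.log_pow]
    ring

theorem Sign_sum_log {q : ℕ} :
    ∑ p ∈ q.primeFactors, (q.factorization p * Real.log p) = Real.log q := by
  rw [Real.log_nat_eq_sum_factorization q, Finsupp.sum, Nat.support_factorization]

/-- Proof. `q = ∏ p^(v_p q)` (`Nat.factorization_prod_pow_eq_self`), and `p^(v_p q) ≤ 2 * pw q p` for `p = 2`,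
equality without the factor `2` for `p ≠ 2`. -/
theorem log_pw {q : ℕ} (hq : 0 < q) :
    Real.log q - Real.log 2 ≤ ∑ p ∈ q.primeFactors, Real.log (pw q p) := by
  rw [Finset.sum_congr rfl (fun p hp => Sign_log_pw_eq hp), Finset.sum_sub_distrib, Sign_sum_log,
    Finset.sum_ite_eq']
  have h2 : 0 ≤ Real.log 2 := Real.log_nonneg (by norm_num)
  split_ifs <;> linarith

/-- Proof. Immediate from the definition, `∏ pw q p ∣ ∏ p^(v_p q) = q`. -/
theorem log_pw_le {q : ℕ} (hq : 0 < q) :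
    ∑ p ∈ q.primeFactors, Real.log (pw q p) ≤ Real.log q := by
  rw [Finset.sum_congr rfl (fun p hp => Sign_log_pw_eq hp), Finset.sum_sub_distrib, Sign_sum_log,
    Finset.sum_ite_eq']
  have h2 : 0 ≤ Real.log 2 := Real.log_nonneg (by norm_num)
  split_ifs <;> linarith

theorem Sign_not_dvd {q a z n p : ℕ} (hqa : Nat.Coprime q a) (hz : z * z = q * n + a)
    (hp : p ∈ q.primeFactors) : ¬ (p : ℤ) ∣ (z : ℤ) := by
  intro h
  have hpp := Nat.prime_of_mem_primeFactors hp
  have hpq : p ∣ q := (Nat.mem_primeFactors.1 hp).2.1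
  have h1 : p ∣ z := Int.natCast_dvd_natCast.1 h
  have h2 : p ∣ q * n + a := hz ▸ (h1.mul_left z)
  have h3 : p ∣ a := (Nat.dvd_add_right (hpq.mul_right n)).1 h2
  have h4 : p ∣ Nat.gcd q a := Nat.dvd_gcd hpq h3
  rw [hqa] at h4
  exact hpp.one_lt.ne' (Nat.dvd_one.1 h4)

theorem Sign_dich {q a z w n m p : ℕ} (hqa : Nat.Coprime q a) (hz : z * z = q * n + a)
    (hw : w * w = q * m + a) (hp : p ∈ q.primeFactors) :
    (pw q p : ℤ) ∣ (z : ℤ) - w ∨ (pw q p : ℤ) ∣ (z : ℤ) + w := by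
  have hpp := Nat.prime_of_mem_primeFactors hp
  have hP : Prime (p : ℤ) := Nat.prime_iff_prime_int.1 hpp
  have hq0 : q ≠ 0 := (Nat.mem_primeFactors.1 hp).2.2
  have hk : 1 ≤ q.factorization p :=
    (hpp.dvd_iff_one_le_factorization hq0).1 (Nat.mem_primeFactors.1 hp).2.1
  have hnz := Sign_not_dvd hqa hz hp
  have hnw := Sign_not_dvd hqa hw hp
  have hz' : (z : ℤ) * z = q * n + a := by exact_mod_cast hz
  have hw' : (w : ℤ) * w = q * m + a := by exact_mod_cast hw
  have hpk : ((p : ℤ) ^ q.factorization p) ∣ ((z : ℤ) - w) * ((z : ℤ) + w) := by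
    have h1 : ((p : ℤ) ^ q.factorization p) ∣ (q : ℤ) := by
      exact_mod_cast Nat.ordProj_dvd q p
    have h2 : ((z : ℤ) - w) * ((z : ℤ) + w) = q * ((n : ℤ) - m) := by
      linear_combination hz' - hw'
    rw [h2]
    exact h1.mul_right _
  unfold pw
  split_ifs with h
  · subst h
    obtain ⟨k, hk'⟩ : ∃ k, q.factorization 2 = k + 1 := ⟨q.factorization 2 - 1, by omega⟩
    rw [hk'] at hpk ⊢
    push_cast at hpk hnz hnw ⊢
    try simp only [Nat.add_sub_cancel]
    obtain ⟨s, hs⟩ : ∃ s : ℤ, (z : ℤ) = 2 * s + 1 := ⟨(z : ℤ) / 2, by omega⟩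
    obtain ⟨t, ht⟩ : ∃ t : ℤ, (w : ℤ) = 2 * t + 1 := ⟨(w : ℤ) / 2, by omega⟩
    have e1 : (z : ℤ) - w = 2 * (s - t) := by rw [hs, ht]; ring
    have e2 : (z : ℤ) + w = 2 * (s + t + 1) := by rw [hs, ht]; ring
    rw [e1, e2] at hpk ⊢
    have h4 : (2 : ℤ) ^ k ∣ (s - t) * (2 * (s + t + 1)) := by
      have : (2 : ℤ) ^ (k + 1) = 2 * 2 ^ k := by ring
      rw [this, mul_assoc] at hpk
      exact (mul_dvd_mul_iff_left (by norm_num : (2 : ℤ) ≠ 0)).1 hpk
    have h2p : Prime (2 : ℤ) := Int.prime_two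
    by_cases hu : (2 : ℤ) ∣ (s - t)
    · have hv : ¬ (2 : ℤ) ∣ (s + t + 1) := by omega
      left
      have h5 : (2 : ℤ) ^ k ∣ (2 * (s - t)) * (s + t + 1) := by
        have : (2 * (s - t)) * (s + t + 1) = (s - t) * (2 * (s + t + 1)) := by ring
        rw [this]; exact h4
      exact h2p.pow_dvd_of_dvd_mul_right k hv h5
    · right
      exact h2p.pow_dvd_of_dvd_mul_left k hu h4
  · push_cast
    by_cases hu : (p : ℤ) ∣ ((z : ℤ) + w)
    · right
      refine hP.pow_dvd_of_dvd_mul_left _ ?_ hpk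
      intro hv
      have h3 : (p : ℤ) ∣ 2 * z := by
        have := dvd_add hv hu
        have e : (z : ℤ) - w + (z + w) = 2 * z := by ring
        rwa [e] at this
      rcases hP.dvd_or_dvd h3 with h4 | h4
      · have h5 : p ∣ 2 := by exact_mod_cast h4
        exact h ((Nat.prime_dvd_prime_iff_eq hpp Nat.prime_two).1 h5)
      · exact hnz h4
    · left
      exact hP.pow_dvd_of_dvd_mul_right _ hu hpk

/-- Proof. Both `x` and `y` satisfy `x² ≡ x₀² mod q`.  For odd `p`: `p^k ∣ (x - x₀) (x + x₀)` and `p` does not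
divide both factors (it would divide `2 x`, but `p ∤ x` as `gcd(a, q) = 1`), so `p^k` divides one of them
(`Prime.pow_dvd_of_dvd_mul_left`).  For `p = 2`: `x`, `x₀` are odd, one of `x - x₀`, `x + x₀` is `2` modulo `4`,
so `2^(k-1)` divides the other one.  So `pw q p ∣ x - x₀` or `pw q p ∣ x + x₀`, the same for `y`. -/
theorem eps_dvd {N q a : ℕ} (hq : 0 < q) (hqa : Nat.Coprime q a) {x₀ x y : ℕ} (h0 : x₀ ∈ sol N q a)
    (hx : x ∈ sol N q a) (hy : y ∈ sol N q a) {p : ℕ} (hp : p ∈ q.primeFactors) :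
    (eps q x₀ p x = eps q x₀ p y → (pw q p : ℤ) ∣ (x : ℤ) - y) ∧
      (eps q x₀ p x ≠ eps q x₀ p y → (pw q p : ℤ) ∣ (x : ℤ) + y) := by
  obtain ⟨n0, -, h0'⟩ := mem_sol.1 h0
  obtain ⟨n1, -, hx'⟩ := mem_sol.1 hx
  obtain ⟨n2, -, hy'⟩ := mem_sol.1 hy
  have dx := Sign_dich hqa hx' h0' hp
  have dy := Sign_dich hqa hy' h0' hp
  unfold eps
  by_cases h1 : (pw q p : ℤ) ∣ (x : ℤ) - x₀ <;> by_cases h2 : (pw q p : ℤ) ∣ (y : ℤ) - x₀
  · rw [if_pos h1, if_pos h2]
    refine ⟨fun _ => ?_, fun h => absurd rfl h⟩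
    have := dvd_sub h1 h2
    have e : (x : ℤ) - x₀ - (y - x₀) = x - y := by ring
    rwa [e] at this
  · rw [if_pos h1, if_neg h2]
    refine ⟨fun h => by norm_num at h, fun _ => ?_⟩
    have h3 := dy.resolve_left h2
    have := dvd_add h1 h3
    have e : (x : ℤ) - x₀ + (y + x₀) = x + y := by ring
    rwa [e] at this
  · rw [if_neg h1, if_pos h2]
    refine ⟨fun h => by norm_num at h, fun _ => ?_⟩
    have h3 := dx.resolve_left h1
    have := dvd_add h3 h2
    have e : (x : ℤ) + x₀ + (y - x₀) = x + y := by ring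
    rwa [e] at this
  · rw [if_neg h1, if_neg h2]
    refine ⟨fun _ => ?_, fun h => absurd rfl h⟩
    have h3 := dx.resolve_left h1
    have h4 := dy.resolve_left h2
    have := dvd_sub h3 h4
    have e : (x : ℤ) + x₀ - (y + x₀) = x - y := by ring
    rwa [e] at this

/-- the inner product of two sign vectors -/
noncomputable def ip (q x₀ x y : ℕ) : ℝ :=
  ∑ p ∈ q.primeFactors, Real.log (pw q p) * (eps q x₀ p x * eps q x₀ p y)

end Pool.Agent.W8ef934h95
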