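import Mathlib
import Pool.Agent.W_8ef934_h95.Sign

/-!
MP_8ef934_nt: inner products of the sign vectors (helper95).
-/

set_option autoImplicit false
open Necdea073

namespace Pool.Agent.W8ef934h95

theorem SignB_pw_eq (q p : ℕ) : ∃ e, pw q p = p ^ e := by
  unfold pw
  split_ifs with h
  · subst h
    exact ⟨_, rfl⟩
  · exact ⟨_, rfl⟩

theorem SignB_coprime {q p r : ℕ} (hp : p ∈ q.primeFactors) (hr : r ∈ q.primeFactors)
    (hpr : p ≠ r) : IsCoprime (pw q p : ℤ) (pw q r : ℤ) := by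
  obtain ⟨e, he⟩ := SignB_pw_eq q p
  obtain ⟨f, hf⟩ := SignB_pw_eq q r
  rw [he, hf, Nat.isCoprime_iff_coprime]
  exact Nat.Coprime.pow _ _ ((Nat.coprime_primes (Nat.prime_of_mem_primeFactors hp)
    (Nat.prime_of_mem_primeFactors hr)).2 hpr)

theorem SignB_log {q : ℕ} (S : Finset ℕ) (hS : S ⊆ q.primeFactors) {z : ℤ} (hz : 0 < z)
    (h : ∀ p ∈ S, (pw q p : ℤ) ∣ z) : ∑ p ∈ S, Real.log (pw q p) ≤ Real.log (z : ℝ) := by
  have h1 : (∏ p ∈ S, (pw q p : ℤ)) ∣ z := Finset.prod_dvd_of_coprime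
    (fun p hp r hr hpr => SignB_coprime (hS hp) (hS hr) hpr) h
  have h2 := Int.le_of_dvd hz h1
  have h3 : (∏ p ∈ S, (pw q p : ℝ)) ≤ (z : ℝ) := by exact_mod_cast h2
  have h4 : ∀ p ∈ S, (0 : ℝ) < pw q p := fun p hp => by exact_mod_cast pw_pos (hS hp)
  rw [← Real.log_prod (fun p hp => (h4 p hp).ne')]
  exact Real.log_le_log (Finset.prod_pos h4) h3

/-- Proof. Let `y < x`, `D` the product of the `pw q p` with equal signs and `E` the product of those with
different signs.  The numbers `pw q p` are pairwise coprime, so `D ∣ x - y`, `E ∣ x + y` (`eps_dvd`,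
`Finset.prod_dvd_of_coprime`), hence `log D ≤ log (x - y)`, `log E ≤ log (x + y)`, and
`log D + log E = W := ∑ log (pw q p)`, `ip = log D - log E`.  So `ip = 2 log D - W ≤ 2 log (x - y) - W` and
`ip = W - 2 log E ≥ W - 2 log (x + y)`. -/
theorem ip_bounds {N q a : ℕ} (hq : 0 < q) (hqa : Nat.Coprime q a) {x₀ x y : ℕ} (h0 : x₀ ∈ sol N q a)
    (hx : x ∈ sol N q a) (hy : y ∈ sol N q a) (hxy : y < x) :
    ip q x₀ x y ≤ 2 * Real.log ((x : ℝ) - y) - ∑ p ∈ q.primeFactors, Real.log (pw q p) ∧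
    ∑ p ∈ q.primeFactors, Real.log (pw q p) - 2 * Real.log ((x : ℝ) + y) ≤ ip q x₀ x y := by
  classical
  have h1 : ∑ p ∈ q.primeFactors.filter (fun p => eps q x₀ p x = eps q x₀ p y),
      Real.log (pw q p) ≤ Real.log ((x : ℝ) - y) := by
    have h := SignB_log (q := q) (q.primeFactors.filter (fun p => eps q x₀ p x = eps q x₀ p y))
      (Finset.filter_subset _ _) (z := (x : ℤ) - y) (by omega)
      (fun p hp => (eps_dvd hq hqa h0 hx hy (Finset.mem_filter.1 hp).1).1
        (Finset.mem_filter.1 hp).2)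
    push_cast at h
    exact h
  have h2 : ∑ p ∈ q.primeFactors.filter (fun p => ¬ eps q x₀ p x = eps q x₀ p y),
      Real.log (pw q p) ≤ Real.log ((x : ℝ) + y) := by
    have h := SignB_log (q := q) (q.primeFactors.filter (fun p => ¬ eps q x₀ p x = eps q x₀ p y))
      (Finset.filter_subset _ _) (z := (x : ℤ) + y) (by omega)
      (fun p hp => (eps_dvd hq hqa h0 hx hy (Finset.mem_filter.1 hp).1).2
        (Finset.mem_filter.1 hp).2)
    push_cast at h
    exact h
  have h3 : ∑ p ∈ q.primeFactors, Real.log (pw q p) =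
      ∑ p ∈ q.primeFactors.filter (fun p => eps q x₀ p x = eps q x₀ p y), Real.log (pw q p) +
      ∑ p ∈ q.primeFactors.filter (fun p => ¬ eps q x₀ p x = eps q x₀ p y),
        Real.log (pw q p) := (Finset.sum_filter_add_sum_filter_not _ _ _).symm
  have h4 : ip q x₀ x y =
      ∑ p ∈ q.primeFactors.filter (fun p => eps q x₀ p x = eps q x₀ p y), Real.log (pw q p) -
      ∑ p ∈ q.primeFactors.filter (fun p => ¬ eps q x₀ p x = eps q x₀ p y),
        Real.log (pw q p) := by
    unfold ip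
    rw [← Finset.sum_filter_add_sum_filter_not q.primeFactors
      (fun p => eps q x₀ p x = eps q x₀ p y), sub_eq_add_neg, ← Finset.sum_neg_distrib]
    congr 1
    · refine Finset.sum_congr rfl fun p hp => ?_
      rw [← (Finset.mem_filter.1 hp).2, eps_sq, mul_one]
    · refine Finset.sum_congr rfl fun p hp => ?_
      have h5 := (Finset.mem_filter.1 hp).2
      have h6 : eps q x₀ p x * eps q x₀ p y = -1 := by
        unfold eps at h5 ⊢
        split_ifs at h5 ⊢ <;> simp_all
      rw [h6, mul_neg, mul_one]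
  rw [h3, h4]
  constructor <;> linarith

end Pool.Agent.W8ef934h95
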