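import Mathlib
import Pool.Agent.W_8ef934_h95.SignB

/-!
MP_8ef934_nt: bounds for the inner products (helper95).
-/

set_option autoImplicit false
open Necdea073

namespace Pool.Agent.W8ef934h95

theorem SignC_ip_comm (q x₀ x y : ℕ) : ip q x₀ x y = ip q x₀ y x := by
  unfold ip
  refine Finset.sum_congr rfl fun p _ => ?_
  rw [mul_comm (eps q x₀ p x)]

theorem SignC_facts {N q a x y : ℕ} (hq : 0 < q) (hx : x ∈ sol N q a) (hy : y ∈ sol N q a) :
    0 < N ∧ ((x : ℝ) - y) * (x + y) ≤ q * N ∧ (a : ℝ) ≤ y * y ∧ (a : ℝ) ≤ x * x ∧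
      (x : ℝ) * x ≤ a + q * N := by
  obtain ⟨n, hn, hn'⟩ := mem_sol.1 hx
  obtain ⟨k, hk, hk'⟩ := mem_sol.1 hy
  have hn2 : (x : ℝ) * x = q * n + a := by exact_mod_cast hn'
  have hk2 : (y : ℝ) * y = q * k + a := by exact_mod_cast hk'
  have hq' : (0 : ℝ) < q := by exact_mod_cast hq
  have hnN : (n : ℝ) ≤ N := by exact_mod_cast hn.le
  have h0 : (0 : ℝ) ≤ k := by positivity
  have h1 : (0 : ℝ) ≤ n := by positivity
  have h2 : 0 ≤ (q : ℝ) * k := mul_nonneg hq'.le h0
  have h3 : 0 ≤ (q : ℝ) * n := mul_nonneg hq'.le h1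
  have h4 : (q : ℝ) * n ≤ q * N := mul_le_mul_of_nonneg_left hnN hq'.le
  refine ⟨by omega, by nlinarith, by linarith, by linarith, by linarith⟩

theorem SignC_ip_le_lt {N q a : ℕ} (hq : 0 < q) (hqa : Nat.Coprime q a) {x₀ x y : ℕ}
    (h0 : x₀ ∈ sol N q a) (hx : x ∈ sol N q a) (hy : y ∈ sol N q a) (hxy : y < x) :
    ip q x₀ x y ≤ Real.log (2 * N) := by
  obtain ⟨hN, h1, h2, h3, h4⟩ := SignC_facts hq hx hy
  have hb := (ip_bounds hq hqa h0 hx hy hxy).1
  have hW := log_pw hq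
  have hq' : (0 : ℝ) < q := by exact_mod_cast hq
  have hN' : (0 : ℝ) < N := by exact_mod_cast hN
  have hxy' : (y : ℝ) < x := by exact_mod_cast hxy
  have hy0 : (0 : ℝ) ≤ y := by positivity
  have hu : 0 < (x : ℝ) - y := by linarith
  have h5 : ((x : ℝ) - y) ^ 2 ≤ q * N := by nlinarith
  have h6 : 2 * Real.log ((x : ℝ) - y) ≤ Real.log q + Real.log N := by
    have h7 := Real.log_le_log (by positivity) h5
    rw [Real.log_pow, Real.log_mul hq'.ne' hN'.ne'] at h7
    exact_mod_cast h7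
  rw [Real.log_mul (by norm_num) hN'.ne']
  linarith

/-- Proof. `(x - y) (x + y) = q m` with `m < N`, so `2 log (x - y) ≤ log (q N)`, and `log_pw`. -/
theorem ip_le {N q a : ℕ} (hq : 0 < q) (hqa : Nat.Coprime q a) {x₀ x y : ℕ} (h0 : x₀ ∈ sol N q a)
    (hx : x ∈ sol N q a) (hy : y ∈ sol N q a) (hxy : x ≠ y) :
    ip q x₀ x y ≤ Real.log (2 * N) := by
  rcases lt_or_gt_of_ne hxy with h | h
  · rw [SignC_ip_comm]; exact SignC_ip_le_lt hq hqa h0 hy hx h
  · exact SignC_ip_le_lt hq hqa h0 hx hy h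

theorem SignC_abs_lt {N q a : ℕ} (hN : 8 ≤ N) (hq : 0 < q) (ha : 0 < a) (hqa : Nat.Coprime q a)
    {x₀ x y : ℕ} (h0 : x₀ ∈ sol N q a) (hx : x ∈ sol N q a) (hy : y ∈ sol N q a) (hxy : y < x) :
    |ip q x₀ x y + max 0 (Real.log (4 * a / q))| ≤ Real.log (2 * N ^ 2) := by
  obtain ⟨hN0, h1, h2, h3, h4⟩ := SignC_facts hq hx hy
  have hup := SignC_ip_le_lt hq hqa h0 hx hy hxy
  obtain ⟨hb, hc⟩ := ip_bounds hq hqa h0 hx hy hxy
  have hW := log_pw hq
  have hq' : (0 : ℝ) < q := by exact_mod_cast hq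
  have ha' : (0 : ℝ) < a := by exact_mod_cast ha
  have hN' : (0 : ℝ) < N := by exact_mod_cast hN0
  have hN8 : (8 : ℝ) ≤ N := by exact_mod_cast hN
  have hxy' : (y : ℝ) < x := by exact_mod_cast hxy
  have hy0 : (0 : ℝ) ≤ y := by positivity
  have hu : 0 < (x : ℝ) - y := by linarith
  have hv : 0 < (x : ℝ) + y := by linarith
  have e1 : Real.log (4 * a / q) = Real.log (4 * a) - Real.log q :=
    Real.log_div (by positivity) hq'.ne'
  have e2 : Real.log (2 * (N : ℝ) ^ 2) = Real.log 2 + 2 * Real.log N := by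
    rw [Real.log_mul (by norm_num) (by positivity), Real.log_pow]; norm_num
  have e3 : Real.log (2 * (N : ℝ)) = Real.log 2 + Real.log N := Real.log_mul (by norm_num) hN'.ne'
  have e4 : Real.log (q * (N : ℝ)) = Real.log q + Real.log N := Real.log_mul hq'.ne' hN'.ne'
  have hlogN : 0 ≤ Real.log N := Real.log_nonneg (by linarith)
  -- upper bound with `a`
  have hv2 : 4 * (a : ℝ) ≤ ((x : ℝ) + y) ^ 2 := by nlinarith
  have hup2 : ip q x₀ x y + Real.log (4 * a / q) ≤ Real.log (2 * (N : ℝ) ^ 2) := by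
    have h5 : 2 * Real.log ((x : ℝ) - y) + 2 * Real.log ((x : ℝ) + y) ≤
        2 * (Real.log q + Real.log N) := by
      have h6 := Real.log_le_log (by positivity) h1
      rw [Real.log_mul hu.ne' hv.ne', e4] at h6
      linarith
    have h7 : Real.log (4 * a) ≤ 2 * Real.log ((x : ℝ) + y) := by
      have h8 := Real.log_le_log (by positivity) hv2
      rw [Real.log_pow] at h8
      exact_mod_cast h8
    rw [e1, e2]
    linarith
  -- lower bound
  have hv3 : 2 * Real.log ((x : ℝ) + y) ≤ Real.log (4 * (a + q * N)) := by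
    have h5 : ((x : ℝ) + y) ^ 2 ≤ 4 * (a + q * N) := by nlinarith
    have h8 := Real.log_le_log (by positivity) h5
    rw [Real.log_pow] at h8
    exact_mod_cast h8
  have hlow : Real.log q - Real.log 2 - Real.log (4 * (a + q * N)) ≤ ip q x₀ x y := by linarith
  rw [abs_le]
  constructor
  · rcases le_total (4 * (a : ℝ)) q with hcase | hcase
    · have h5 : 4 * ((a : ℝ) + q * N) ≤ q * N ^ 2 := by nlinarith
      have h6 := Real.log_le_log (by positivity) h5
      rw [Real.log_mul hq'.ne' (by positivity), Real.log_pow] at h6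
      have h7 := le_max_left 0 (Real.log (4 * a / q))
      rw [e2]
      push_cast at h6
      linarith
    · have h5 : 2 * (4 * ((a : ℝ) + q * N)) ≤ (4 * a) * (2 * N ^ 2) := by nlinarith [mul_pos ha' hN']
      have h6 := Real.log_le_log (by positivity) h5
      have h6a : Real.log (2 * (4 * ((a : ℝ) + q * N))) =
          Real.log 2 + Real.log (4 * ((a : ℝ) + q * N)) :=
        Real.log_mul (by norm_num) (by positivity)
      have h6b : Real.log ((4 * (a : ℝ)) * (2 * N ^ 2)) = Real.log (4 * a) + Real.log (2 * N ^ 2) :=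
        Real.log_mul (by positivity) (by positivity)
      rw [h6a, h6b] at h6
      have h7 := le_max_right 0 (Real.log (4 * a / q))
      rw [e1] at h7 ⊢
      linarith
  · rcases le_total (Real.log (4 * a / q)) 0 with hcase | hcase
    · rw [max_eq_left hcase, e2]
      rw [e3] at hup
      linarith
    · rw [max_eq_right hcase]
      exact hup2

/-- Proof. Let `v = x + y`, `u = x - y > 0`, `u v = q m`, `1 ≤ m < N`, `W = ∑ log (pw q p) ≥ log q - log 2`.
Upper bound: `ip ≤ 2 log u - W = log (q m) + log (u / v) - W`, which is at most `log (2 N)` and, as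
`u / v = q m / v² ≤ q N / (4 a)` (because `x, y ≥ √a`), also at most `log (2 N) + log (q N / (4 a))`.
With `τ = max 0 (log (4 a / q))` we get `ip + τ ≤ log (2 N²)`.
Lower bound: `ip ≥ W - 2 log v ≥ log (q / (2 v²)) ≥ log (q / (8 (a + q N)))`.  If `4 a ≤ q` then `τ = 0` and
`8 (a + q N) ≤ 16 q N`; if `4 a > q` then `τ = log (4 a / q)` and
`ip + τ ≥ log (a / (2 (a + q N))) ≥ - log (10 N)`.  And `16 N ≤ 2 N²` for `N ≥ 8`. -/
theorem abs_ip {N q a : ℕ} (hN : 8 ≤ N) (hq : 0 < q) (ha : 0 < a) (hqa : Nat.Coprime q a) {x₀ x y : ℕ}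
    (h0 : x₀ ∈ sol N q a) (hx : x ∈ sol N q a) (hy : y ∈ sol N q a) (hxy : x ≠ y) :
    |ip q x₀ x y + max 0 (Real.log (4 * a / q))| ≤ Real.log (2 * N ^ 2) := by
  rcases lt_or_gt_of_ne hxy with h | h
  · rw [SignC_ip_comm]; exact SignC_abs_lt hN hq ha hqa h0 hy hx h
  · exact SignC_abs_lt hN hq ha hqa h0 hx hy h

end Pool.Agent.W8ef934h95
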