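import Mathlib
import Pool.Agent.W_8ef934_h95.SignC

/-!
MP_8ef934_nt: solutions with the same signs on a set of primes (helper95).
-/

set_option autoImplicit false
open Necdea073

namespace Pool.Agent.W8ef934h95

theorem Pigeon_eps_or (q x₀ p x : ℕ) : eps q x₀ p x = 1 ∨ eps q x₀ p x = -1 := by
  unfold eps
  split_ifs
  · exact Or.inl rfl
  · exact Or.inr rfl

/-- Abstract form: a family of vectors with large norm bound and very negative inner products. -/
theorem Pigeon_aux (T B : Finset ℕ) (w : ℕ → ℝ) (e : ℕ → ℕ → ℝ) (L : ℝ)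
    (hw : ∀ p ∈ B, 0 ≤ w p) (he : ∀ p x, e p x * e p x = 1)
    (hpair : ∀ x ∈ T, ∀ y ∈ T, x ≠ y → ∑ p ∈ B, w p * (e p x * e p y) ≤ -L) (hT : 0 < T.card) :
    ((T.card : ℝ) - 1) * L ≤ ∑ p ∈ B, w p := by
  classical
  have h1 : ∑ x ∈ T, ∑ y ∈ T, ∑ p ∈ B, w p * (e p x * e p y)
      = ∑ p ∈ B, w p * ((∑ x ∈ T, e p x) * (∑ y ∈ T, e p y)) := by
    have h2 : ∀ x ∈ T, ∑ y ∈ T, ∑ p ∈ B, w p * (e p x * e p y)
        = ∑ p ∈ B, ∑ y ∈ T, w p * (e p x * e p y) := fun x _ => Finset.sum_comm
    rw [Finset.sum_congr rfl h2, Finset.sum_comm]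
    refine Finset.sum_congr rfl fun p _ => ?_
    rw [Finset.sum_mul_sum, Finset.mul_sum]
    refine Finset.sum_congr rfl fun x _ => ?_
    rw [Finset.mul_sum]
  have h3 : 0 ≤ ∑ x ∈ T, ∑ y ∈ T, ∑ p ∈ B, w p * (e p x * e p y) := by
    rw [h1]
    exact Finset.sum_nonneg fun p hp => mul_nonneg (hw p hp) (mul_self_nonneg _)
  have h4 : ∀ x ∈ T, ∑ y ∈ T, ∑ p ∈ B, w p * (e p x * e p y)
      ≤ ∑ p ∈ B, w p - ((T.card : ℝ) - 1) * L := by
    intro x hx
    rw [← Finset.add_sum_erase T _ hx]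
    have h5 : ∑ p ∈ B, w p * (e p x * e p x) = ∑ p ∈ B, w p :=
      Finset.sum_congr rfl fun p _ => by rw [he p x, mul_one]
    have h6 : ∑ y ∈ T.erase x, ∑ p ∈ B, w p * (e p x * e p y) ≤ ∑ _y ∈ T.erase x, -L :=
      Finset.sum_le_sum fun y hy => hpair x hx y (Finset.mem_of_mem_erase hy)
        (Finset.ne_of_mem_erase hy).symm
    rw [Finset.sum_const, Finset.card_erase_of_mem hx, nsmul_eq_mul, Nat.cast_sub hT,
      Nat.cast_one] at h6
    rw [h5]
    linarith
  have h7 : ∑ x ∈ T, ∑ y ∈ T, ∑ p ∈ B, w p * (e p x * e p y)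
      ≤ ∑ _x ∈ T, (∑ p ∈ B, w p - ((T.card : ℝ) - 1) * L) := Finset.sum_le_sum h4
  rw [Finset.sum_const, nsmul_eq_mul] at h7
  have h8 : (0 : ℝ) < T.card := by exact_mod_cast hT
  have h9 : 0 ≤ (T.card : ℝ) * (∑ p ∈ B, w p - ((T.card : ℝ) - 1) * L) := h3.trans h7
  have h10 := nonneg_of_mul_nonneg_right h9 h8
  linarith

/-- Proof. If the set of solutions is empty the claim is clear; let `x₀` be a solution.  By the pigeonhole
principle some sign pattern on `A` (there are at most `2 ^ A.card`) is shared by a set `T` of at least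
`card / 2 ^ A.card` solutions (`Finset.exists_le_card_fiber_of_mul_le_card_of_maps_to` or
`Finset.card_le_mul_card_image`; the pattern is `fun p => if p ∈ A then eps q x₀ p x else 1`, or the subset of
the `p ∈ A` with `eps = 1` in `A.powerset`).  For `x ≠ y` in `T` the contribution of `A` to `ip q x₀ x y` is
`∑ p ∈ A, log (pw q p) ≥ 2 log (2 N)`, so by `ip_le` the contribution of `B := q.primeFactors \ A` is at most
`- log (2 N)`.  Hence, with `m = T.card`,
`0 ≤ ∑ p ∈ B, log (pw q p) (∑ x ∈ T, eps q x₀ p x)² ≤ m ∑ p ∈ B, log (pw q p) - m (m - 1) log (2 N)`,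
so `m - 1 ≤ (∑ p ∈ B, log (pw q p)) / log (2 N) ≤ log q / log (2 N)` (`log_pw_le`). -/
theorem pigeon {N q a : ℕ} (hN : 1 ≤ N) (hq : 0 < q) (hqa : Nat.Coprime q a) (A : Finset ℕ)
    (hA : A ⊆ q.primeFactors) (hD : (2 * (N : ℝ)) ^ 2 ≤ ∏ p ∈ A, (pw q p : ℝ)) :
    ((sol N q a).card : ℝ) ≤ 2 ^ A.card * (1 + Real.log q / Real.log (2 * N)) := by
  classical
  have hN1 : (1 : ℝ) ≤ N := by exact_mod_cast hN
  have hlogN : 0 < Real.log (2 * (N : ℝ)) := Real.log_pos (by linarith)
  have hlogq : 0 ≤ Real.log (q : ℝ) := Real.log_nonneg (by exact_mod_cast hq)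
  have hR : 0 ≤ Real.log q / Real.log (2 * (N : ℝ)) := div_nonneg hlogq hlogN.le
  rcases (sol N q a).eq_empty_or_nonempty with hS | ⟨x₀, h0⟩
  · rw [hS, Finset.card_empty, Nat.cast_zero]
    exact mul_nonneg (by positivity) (by linarith)
  have hw : ∀ p ∈ q.primeFactors, 0 ≤ Real.log (pw q p : ℝ) := fun p hp =>
    Real.log_nonneg (by exact_mod_cast (pw_pos hp))
  let f : ℕ → Finset ℕ := fun x => A.filter (fun p => eps q x₀ p x = 1)
  have hmaps : ∀ x ∈ sol N q a, f x ∈ A.powerset := fun x _ =>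
    Finset.mem_powerset.2 (Finset.filter_subset _ _)
  have hsum := Finset.card_eq_sum_card_fiberwise (f := f) (s := sol N q a) (t := A.powerset) hmaps
  have hAlog : 2 * Real.log (2 * (N : ℝ)) ≤ ∑ p ∈ A, Real.log (pw q p : ℝ) := by
    rw [← Real.log_prod (fun p hp => by
      have h := pw_pos (hA hp)
      exact_mod_cast h.ne')]
    have h1 : 2 * Real.log (2 * (N : ℝ)) = Real.log ((2 * (N : ℝ)) ^ 2) := by
      rw [Real.log_pow]
      norm_num
    rw [h1]
    exact Real.log_le_log (by positivity) hD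
  have hfib : ∀ P ∈ A.powerset, (((sol N q a).filter (fun x => f x = P)).card : ℝ)
      ≤ 1 + Real.log q / Real.log (2 * (N : ℝ)) := by
    intro P _
    rcases Nat.eq_zero_or_pos ((sol N q a).filter (fun x => f x = P)).card with hT | hT
    · rw [hT, Nat.cast_zero]
      linarith
    have heq : ∀ x ∈ (sol N q a).filter (fun x => f x = P),
        ∀ y ∈ (sol N q a).filter (fun x => f x = P), ∀ p ∈ A,
        eps q x₀ p x * eps q x₀ p y = 1 := by
      intro x hx y hy p hp
      have hfx : f x = P := (Finset.mem_filter.1 hx).2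
      have hfy : f y = P := (Finset.mem_filter.1 hy).2
      have hxy : f x = f y := hfx.trans hfy.symm
      have key : eps q x₀ p x = 1 ↔ eps q x₀ p y = 1 := by
        constructor
        · intro h
          have h1 : p ∈ f x := Finset.mem_filter.2 ⟨hp, h⟩
          rw [hxy] at h1
          exact (Finset.mem_filter.1 h1).2
        · intro h
          have h1 : p ∈ f y := Finset.mem_filter.2 ⟨hp, h⟩
          rw [← hxy] at h1
          exact (Finset.mem_filter.1 h1).2
      rcases Pigeon_eps_or q x₀ p x with h1 | h1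
      · rw [h1, key.1 h1, mul_one]
      · rcases Pigeon_eps_or q x₀ p y with h2 | h2
        · rw [key.2 h2] at h1
          norm_num at h1
        · rw [h1, h2]
          norm_num
    have hpair : ∀ x ∈ (sol N q a).filter (fun x => f x = P),
        ∀ y ∈ (sol N q a).filter (fun x => f x = P), x ≠ y →
        ∑ p ∈ q.primeFactors \ A, Real.log (pw q p : ℝ) * (eps q x₀ p x * eps q x₀ p y)
          ≤ -Real.log (2 * (N : ℝ)) := by
      intro x hx y hy hxy
      have h1 := ip_le hq hqa h0 (Finset.mem_filter.1 hx).1 (Finset.mem_filter.1 hy).1 hxy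
      unfold ip at h1
      rw [← Finset.sum_sdiff hA] at h1
      have h2 : ∑ p ∈ A, Real.log (pw q p : ℝ) * (eps q x₀ p x * eps q x₀ p y)
          = ∑ p ∈ A, Real.log (pw q p : ℝ) :=
        Finset.sum_congr rfl fun p hp => by rw [heq x hx y hy p hp, mul_one]
      rw [h2] at h1
      linarith
    have h3 := Pigeon_aux ((sol N q a).filter (fun x => f x = P)) (q.primeFactors \ A)
      (fun p => Real.log (pw q p : ℝ)) (fun p x => eps q x₀ p x) (Real.log (2 * (N : ℝ)))
      (fun p hp => hw p (Finset.mem_sdiff.1 hp).1) (fun p x => eps_sq q x₀ p x) hpair hT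
    have h4 : ∑ p ∈ q.primeFactors \ A, Real.log (pw q p : ℝ) ≤ Real.log q :=
      (Finset.sum_le_sum_of_subset_of_nonneg Finset.sdiff_subset
        (fun p hp _ => hw p hp)).trans (log_pw_le hq)
    have h5 : (((sol N q a).filter (fun x => f x = P)).card : ℝ) - 1
        ≤ Real.log q / Real.log (2 * (N : ℝ)) := by
      rw [le_div_iff₀ hlogN]
      exact h3.trans h4
    linarith
  calc ((sol N q a).card : ℝ)
      = ∑ P ∈ A.powerset, (((sol N q a).filter (fun x => f x = P)).card : ℝ) := by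
        rw [hsum]
        push_cast
        rfl
    _ ≤ ∑ _P ∈ A.powerset, (1 + Real.log q / Real.log (2 * (N : ℝ))) := Finset.sum_le_sum hfib
    _ = 2 ^ A.card * (1 + Real.log q / Real.log (2 * N)) := by
        rw [Finset.sum_const, Finset.card_powerset, nsmul_eq_mul]
        push_cast
        rfl

end Pool.Agent.W8ef934h95
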