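import Mathlib
import Pool.Agent.W_8ef934_h95.Pigeon

/-!
MP_8ef934_nt: moduli with many prime factors which are not too large (helper95).
-/

set_option autoImplicit false
open Necdea073

namespace Pool.Agent.W8ef934h95

/-- a power of `N` below the square root dominates constants -/
theorem CaseC_pow (K s : ℝ) (hs : s < 1 / 2) :
    ∀ᶠ N : ℕ in Filter.atTop, K * (N : ℝ) ^ s < Real.sqrt N := by
  have h1 : Filter.Tendsto (fun N : ℕ => (N : ℝ) ^ (1 / 2 - s)) Filter.atTop Filter.atTop :=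
    (tendsto_rpow_atTop (by linarith)).comp tendsto_natCast_atTop_atTop
  filter_upwards [h1.eventually_gt_atTop K, Filter.eventually_gt_atTop 0] with N hN hpos
  have hN0 : (0 : ℝ) < N := by exact_mod_cast hpos
  have h2 : (N : ℝ) ^ (1 / 2 - s) * (N : ℝ) ^ s = Real.sqrt N := by
    rw [← Real.rpow_add hN0, Real.sqrt_eq_rpow]
    congr 1
    ring
  rw [← h2]
  exact mul_lt_mul_of_pos_right hN (Real.rpow_pos_of_pos hN0 s)

/-- the number `k` -/
theorem CaseC_k (N : ℕ) (hN : 1 ≤ N) : ∃ k : ℕ, (2 * (N : ℝ)) ^ 2 ≤ ((2 : ℝ) ^ 25) ^ k ∧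
    (2 : ℝ) ^ k ≤ 4 * (N : ℝ) ^ ((2 : ℝ) / 25) := by
  have hN0 : (1 : ℝ) ≤ N := by exact_mod_cast hN
  have hNpos : (0 : ℝ) < N := by linarith
  have hl2 : 0 < Real.log 2 := Real.log_pos (by norm_num)
  set L : ℝ := Real.log ((2 * (N : ℝ)) ^ 2) with hL
  have hL0 : 0 ≤ L := by
    apply Real.log_nonneg
    nlinarith
  have hLpos : (0 : ℝ) < (2 * (N : ℝ)) ^ 2 := by positivity
  refine ⟨⌈L / (25 * Real.log 2)⌉₊, ?_, ?_⟩
  · have h1 : L / (25 * Real.log 2) ≤ (⌈L / (25 * Real.log 2)⌉₊ : ℝ) := Nat.le_ceil _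
    rw [div_le_iff₀ (by positivity)] at h1
    have h2 : Real.log (((2 : ℝ) ^ 25) ^ ⌈L / (25 * Real.log 2)⌉₊) =
        (⌈L / (25 * Real.log 2)⌉₊ : ℝ) * (25 * Real.log 2) := by
      rw [Real.log_pow, Real.log_pow]
      norm_num
    rw [← Real.log_le_log_iff hLpos (by positivity), h2, ← hL]
    exact h1
  · have h1 : (⌈L / (25 * Real.log 2)⌉₊ : ℝ) < L / (25 * Real.log 2) + 1 :=
      Nat.ceil_lt_add_one (by positivity)
    have h2 : (⌈L / (25 * Real.log 2)⌉₊ : ℝ) * Real.log 2 ≤ L / 25 + Real.log 2 := by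
      have h3 : L / (25 * Real.log 2) * Real.log 2 = L / 25 := by
        field_simp
      nlinarith
    have h4 : L = 2 * Real.log 2 + 2 * Real.log N := by
      rw [hL, Real.log_pow, Real.log_mul (by norm_num) hNpos.ne']
      push_cast
      ring
    rw [← Real.log_le_log_iff (by positivity) (by positivity), Real.log_pow,
      Real.log_mul (by norm_num) (Real.rpow_pos_of_pos hNpos _).ne', Real.log_rpow hNpos]
    have h5 : Real.log 4 = 2 * Real.log 2 := by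
      rw [show (4 : ℝ) = 2 ^ 2 by norm_num, Real.log_pow]
      push_cast
      ring
    rw [h5]
    linarith

/-- a set of `k` large prime factors -/
theorem CaseC_set (M q k : ℕ) (h : M + k ≤ q.primeFactors.card) :
    ∃ A : Finset ℕ, A ⊆ q.primeFactors ∧ A.card = k ∧ ∀ p ∈ A, M < p := by
  classical
  have h1 : k ≤ (q.primeFactors.filter (fun p => M < p)).card := by
    have h2 : (q.primeFactors.filter (fun p => M < p)).card +
        (q.primeFactors.filter (fun p => ¬ M < p)).card = q.primeFactors.card :=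
      Finset.card_filter_add_card_filter_not _
    have h3 : (q.primeFactors.filter (fun p => ¬ M < p)).card ≤ M := by
      have h4 : q.primeFactors.filter (fun p => ¬ M < p) ⊆ Finset.Icc 1 M := by
        intro p hp
        rw [Finset.mem_filter] at hp
        rw [Finset.mem_Icc]
        exact ⟨(Nat.prime_of_mem_primeFactors hp.1).one_lt.le, by omega⟩
      calc (q.primeFactors.filter (fun p => ¬ M < p)).card ≤ (Finset.Icc 1 M).card :=
            Finset.card_le_card h4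
        _ = M := by simp
    omega
  obtain ⟨A, hA, hAk⟩ := Finset.exists_subset_card_eq h1
  refine ⟨A, hA.trans (Finset.filter_subset _ _), hAk, fun p hp => ?_⟩
  exact (Finset.mem_filter.mp (hA hp)).2

/-- Proof. Let `d` be the number of prime factors, so `d ≥ log2 (√N / 20)`, and let
`k = ⌈log (4 N²) / (25 log 2)⌉`, so `(2^25)^k ≥ 4 N²` and `2^k ≤ 2 (4 N²)^(1/25)`.  For large `N` we have
`d ≥ 2^25 + k` (as `1/2 > 2/25`).  At most `2^25` of the primes are `≤ 2^25`, so there is a set `A` of exactly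
`k` prime factors `p > 2^25` (`Finset.exists_subset_card_eq`), they are odd, `pw q p ≥ p ≥ 2^25`, so
`∏ p ∈ A, pw q p ≥ (2^25)^k ≥ (2 N)²`.  By `pigeon`, `card ≤ 2^k (1 + N^(2/5) / log (2 N))
≤ 2 (4 N²)^(1/25) (1 + N^(2/5)) ≤ √N` for large `N` (`2/25 + 2/5 < 1/2`). -/
theorem caseIII : ∃ N₀ : ℕ, ∀ N ≥ N₀, ∀ q a : ℕ, 0 < q → Nat.Coprime q a →
    Real.sqrt N ≤ 20 * 2 ^ q.primeFactors.card → Real.log q ≤ (N : ℝ) ^ ((2 : ℝ) / 5) →
    ((sol N q a).card : ℝ) ≤ Real.sqrt N := by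
  obtain ⟨M, hM⟩ : ∃ M : ℕ, M = 2 ^ 25 := ⟨_, rfl⟩
  have hev : ∀ᶠ N : ℕ in Filter.atTop, (80 * (2 : ℝ) ^ M) * (N : ℝ) ^ ((2 : ℝ) / 25) < Real.sqrt N ∧
      8 * (N : ℝ) ^ ((12 : ℝ) / 25) < Real.sqrt N ∧ 2 ≤ N := by
    filter_upwards [CaseC_pow (80 * (2 : ℝ) ^ M) ((2 : ℝ) / 25) (by norm_num),
      CaseC_pow 8 ((12 : ℝ) / 25) (by norm_num), Filter.eventually_ge_atTop 2] with N h1 h2 h3
    exact ⟨h1, h2, h3⟩
  obtain ⟨N₀, hN₀⟩ := Filter.eventually_atTop.mp hev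
  refine ⟨N₀, fun N hN q a hq hqa hd hlog => ?_⟩
  obtain ⟨h1, h2, h3⟩ := hN₀ N hN
  have hNR : (2 : ℝ) ≤ N := by exact_mod_cast h3
  have hNpos : (0 : ℝ) < N := by linarith
  obtain ⟨k, hk1, hk2⟩ := CaseC_k N (by omega)
  have hcard : M + k ≤ q.primeFactors.card := by
    by_contra hlt
    push Not at hlt
    have h4 : (2 : ℝ) ^ q.primeFactors.card ≤ 2 ^ (M + k) :=
      pow_le_pow_right₀ (by norm_num) hlt.le
    rw [pow_add] at h4
    have h5 : (2 : ℝ) ^ M * 2 ^ k ≤ 2 ^ M * (4 * (N : ℝ) ^ ((2 : ℝ) / 25)) :=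
      mul_le_mul_of_nonneg_left hk2 (by positivity)
    have h6 : Real.sqrt N ≤ (80 * (2 : ℝ) ^ M) * (N : ℝ) ^ ((2 : ℝ) / 25) := by
      calc Real.sqrt N ≤ 20 * 2 ^ q.primeFactors.card := hd
        _ ≤ 20 * (2 ^ M * (4 * (N : ℝ) ^ ((2 : ℝ) / 25))) := by linarith
        _ = (80 * (2 : ℝ) ^ M) * (N : ℝ) ^ ((2 : ℝ) / 25) := by ring
    linarith
  obtain ⟨A, hA, hAk, hAp⟩ := CaseC_set M q k hcard
  have hpw : ∀ p ∈ A, ((2 : ℝ) ^ 25) ≤ (pw q p : ℝ) := by
    intro p hp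
    have hpq := hA hp
    have hprime := Nat.prime_of_mem_primeFactors hpq
    have hbig := hAp p hp
    rw [hM] at hbig
    have hne : p ≠ 2 := by
      intro h
      rw [h] at hbig
      norm_num at hbig
    have hfac : 1 ≤ q.factorization p :=
      hprime.factorization_pos_of_dvd hq.ne' (Nat.dvd_of_mem_primeFactors hpq)
    have h7 : p ≤ pw q p := by
      unfold pw
      rw [if_neg hne]
      calc p = p ^ 1 := (pow_one p).symm
        _ ≤ p ^ q.factorization p := Nat.pow_le_pow_right hprime.pos hfac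
    have h8 : (2 ^ 25 : ℕ) ≤ pw q p := hbig.le.trans h7
    exact_mod_cast h8
  have hprod : (2 * (N : ℝ)) ^ 2 ≤ ∏ p ∈ A, (pw q p : ℝ) := by
    calc (2 * (N : ℝ)) ^ 2 ≤ ((2 : ℝ) ^ 25) ^ k := hk1
      _ = ∏ p ∈ A, ((2 : ℝ) ^ 25) := by rw [Finset.prod_const, hAk]
      _ ≤ ∏ p ∈ A, (pw q p : ℝ) := Finset.prod_le_prod (fun _ _ => by positivity) hpw
  have hpig := pigeon (N := N) (q := q) (a := a) (by omega) hq hqa A hA hprod
  rw [hAk] at hpig
  have hlogN : 1 ≤ Real.log (2 * N) := by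
    rw [Real.le_log_iff_exp_le (by positivity)]
    have := Real.exp_one_lt_d9
    linarith
  have hN1 : (1 : ℝ) ≤ (N : ℝ) ^ ((2 : ℝ) / 5) := Real.one_le_rpow (by linarith) (by norm_num)
  have hdiv : Real.log q / Real.log (2 * N) ≤ (N : ℝ) ^ ((2 : ℝ) / 5) := by
    rw [div_le_iff₀ (by linarith)]
    calc Real.log q ≤ (N : ℝ) ^ ((2 : ℝ) / 5) := hlog
      _ = (N : ℝ) ^ ((2 : ℝ) / 5) * 1 := (mul_one _).symm
      _ ≤ (N : ℝ) ^ ((2 : ℝ) / 5) * Real.log (2 * N) := by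
        apply mul_le_mul_of_nonneg_left hlogN (by positivity)
  have hmul : (N : ℝ) ^ ((2 : ℝ) / 25) * (N : ℝ) ^ ((2 : ℝ) / 5) = (N : ℝ) ^ ((12 : ℝ) / 25) := by
    rw [← Real.rpow_add hNpos]
    norm_num
  calc ((sol N q a).card : ℝ) ≤ 2 ^ k * (1 + Real.log q / Real.log (2 * N)) := hpig
    _ ≤ (4 * (N : ℝ) ^ ((2 : ℝ) / 25)) * (2 * (N : ℝ) ^ ((2 : ℝ) / 5)) := by
        apply mul_le_mul hk2 (by linarith)
        · have : 0 ≤ Real.log q / Real.log (2 * N) :=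
            div_nonneg (Real.log_natCast_nonneg q) (by linarith)
          linarith
        · positivity
    _ = 8 * ((N : ℝ) ^ ((2 : ℝ) / 25) * (N : ℝ) ^ ((2 : ℝ) / 5)) := by ring
    _ = 8 * (N : ℝ) ^ ((12 : ℝ) / 25) := by rw [hmul]
    _ ≤ Real.sqrt N := h2.le

end Pool.Agent.W8ef934h95
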