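import Mathlib

/-!
MP_8ef934_nt: an elementary form of the Welch inequality (helper95).
-/

set_option autoImplicit false

namespace Pool.Agent.W8ef934h95

/-- Proof. Let `M k l = ∑ i ∈ T, u i k * u i l`.  Then `∑ i ∑ k (u i k)² = ∑ k M k k`, by the Cauchy-Schwarz
inequality (`sq_sum_le_card_mul_sum_sq`) its square is at most `|I| * ∑ k (M k k)² ≤ |I| * ∑ k ∑ l (M k l)²`, and
`∑ k ∑ l (M k l)² = ∑ i ∑ j (∑ k u i k * u j k)²` by expanding both sides. -/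
theorem welch {α ι : Type} [DecidableEq α] [DecidableEq ι] (T : Finset α) (I : Finset ι) (u : α → ι → ℝ) :
    (∑ i ∈ T, ∑ k ∈ I, u i k ^ 2) ^ 2 ≤
      I.card * ∑ i ∈ T, ∑ j ∈ T, (∑ k ∈ I, u i k * u j k) ^ 2 := by
  have h1 : ∑ i ∈ T, ∑ k ∈ I, u i k ^ 2 = ∑ k ∈ I, ∑ i ∈ T, u i k * u i k := by
    rw [Finset.sum_comm]
    refine Finset.sum_congr rfl fun k _ => Finset.sum_congr rfl fun i _ => ?_
    ring
  have h2 : ∑ k ∈ I, ∑ l ∈ I, (∑ i ∈ T, u i k * u i l) ^ 2 =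
      ∑ i ∈ T, ∑ j ∈ T, (∑ k ∈ I, u i k * u j k) ^ 2 := by
    have e1 : ∀ k l, (∑ i ∈ T, u i k * u i l) ^ 2 =
        ∑ i ∈ T, ∑ j ∈ T, (u i k * u j k) * (u i l * u j l) := by
      intro k l
      rw [sq, Finset.sum_mul_sum]
      refine Finset.sum_congr rfl fun i _ => Finset.sum_congr rfl fun j _ => ?_
      ring
    have e2 : ∀ i j, (∑ k ∈ I, u i k * u j k) ^ 2 =
        ∑ k ∈ I, ∑ l ∈ I, (u i k * u j k) * (u i l * u j l) := by
      intro i j
      rw [sq, Finset.sum_mul_sum]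
    simp only [e1, e2]
    calc ∑ k ∈ I, ∑ l ∈ I, ∑ i ∈ T, ∑ j ∈ T, (u i k * u j k) * (u i l * u j l)
        = ∑ k ∈ I, ∑ i ∈ T, ∑ l ∈ I, ∑ j ∈ T, (u i k * u j k) * (u i l * u j l) :=
          Finset.sum_congr rfl fun k _ => Finset.sum_comm
      _ = ∑ i ∈ T, ∑ k ∈ I, ∑ l ∈ I, ∑ j ∈ T, (u i k * u j k) * (u i l * u j l) :=
          Finset.sum_comm
      _ = ∑ i ∈ T, ∑ k ∈ I, ∑ j ∈ T, ∑ l ∈ I, (u i k * u j k) * (u i l * u j l) :=
          Finset.sum_congr rfl fun i _ => Finset.sum_congr rfl fun k _ => Finset.sum_comm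
      _ = ∑ i ∈ T, ∑ j ∈ T, ∑ k ∈ I, ∑ l ∈ I, (u i k * u j k) * (u i l * u j l) :=
          Finset.sum_congr rfl fun i _ => Finset.sum_comm
  rw [h1, ← h2]
  calc (∑ k ∈ I, ∑ i ∈ T, u i k * u i k) ^ 2
      ≤ I.card * ∑ k ∈ I, (∑ i ∈ T, u i k * u i k) ^ 2 := sq_sum_le_card_mul_sum_sq
    _ ≤ I.card * ∑ k ∈ I, ∑ l ∈ I, (∑ i ∈ T, u i k * u i l) ^ 2 := by
        refine mul_le_mul_of_nonneg_left ?_ (Nat.cast_nonneg _)
        refine Finset.sum_le_sum fun k hk => ?_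
        exact Finset.single_le_sum (f := fun l => (∑ i ∈ T, u i k * u i l) ^ 2)
          (fun l _ => sq_nonneg _) hk

/-- Proof. `welch` with `∑ k (u i k)² = g` for all `i ∈ T` (this is the inner product of `u i` with itself):
`(n g)² ≤ |I| (n g² + n (n-1) b²)`; divide by `n = T.card` (trivial for `n = 0`, where
the left hand side is `0` and the right hand side is `|I| (g² - b²)`, hence the assumption `1 ≤ T.card`). -/
theorem welch' {α ι : Type} [DecidableEq α] [DecidableEq ι] (T : Finset α) (I : Finset ι) (u : α → ι → ℝ)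
    (g b : ℝ) (hT : 1 ≤ T.card) (hg : ∀ i ∈ T, ∑ k ∈ I, u i k ^ 2 = g)
    (hb : ∀ i ∈ T, ∀ j ∈ T, i ≠ j → |∑ k ∈ I, u i k * u j k| ≤ b) :
    (T.card : ℝ) * g ^ 2 ≤ I.card * (g ^ 2 + (T.card - 1) * b ^ 2) := by
  have hT' : (1 : ℝ) ≤ T.card := by exact_mod_cast hT
  have h1 := welch T I u
  have h2 : ∑ i ∈ T, ∑ k ∈ I, u i k ^ 2 = T.card * g := by
    rw [Finset.sum_congr rfl hg, Finset.sum_const, nsmul_eq_mul]
  have h3 : ∑ i ∈ T, ∑ j ∈ T, (∑ k ∈ I, u i k * u j k) ^ 2 ≤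
      T.card * (g ^ 2 + (T.card - 1) * b ^ 2) := by
    have h4 : ∀ i ∈ T, ∑ j ∈ T, (∑ k ∈ I, u i k * u j k) ^ 2 ≤ g ^ 2 + (T.card - 1) * b ^ 2 := by
      intro i hi
      rw [← Finset.add_sum_erase T _ hi]
      have h5 : (∑ k ∈ I, u i k * u i k) ^ 2 = g ^ 2 := by
        rw [← hg i hi]
        congr 1
        exact Finset.sum_congr rfl fun k _ => by ring
      have h6 : ∑ j ∈ T.erase i, (∑ k ∈ I, u i k * u j k) ^ 2 ≤ (T.card - 1) * b ^ 2 := by
        have h7 : ∑ j ∈ T.erase i, (∑ k ∈ I, u i k * u j k) ^ 2 ≤ ∑ _j ∈ T.erase i, b ^ 2 := by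
          refine Finset.sum_le_sum fun j hj => ?_
          rw [Finset.mem_erase] at hj
          have h8 := hb i hi j hj.2 (Ne.symm hj.1)
          rw [← sq_abs]
          exact pow_le_pow_left₀ (abs_nonneg _) h8 2
        rw [Finset.sum_const, Finset.card_erase_of_mem hi, nsmul_eq_mul, Nat.cast_sub hT,
          Nat.cast_one] at h7
        exact h7
      rw [h5]
      linarith
    have h9 := Finset.sum_le_sum h4
    rw [Finset.sum_const, nsmul_eq_mul] at h9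
    exact h9
  rw [h2] at h1
  have h10 : (T.card * g) ^ 2 ≤ (I.card : ℝ) * (T.card * (g ^ 2 + (T.card - 1) * b ^ 2)) :=
    h1.trans (mul_le_mul_of_nonneg_left h3 (Nat.cast_nonneg _))
  have h11 : (T.card : ℝ) * (T.card * g ^ 2) ≤
      T.card * (I.card * (g ^ 2 + (T.card - 1) * b ^ 2)) := by
    calc (T.card : ℝ) * (T.card * g ^ 2) = (T.card * g) ^ 2 := by ring
      _ ≤ _ := h10
      _ = _ := by ring
  exact le_of_mul_le_mul_left h11 (by linarith)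

end Pool.Agent.W8ef934h95
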