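import Mathlib
import Pool.Agent.W_8ef934_h95.SignC
import Pool.Agent.W_8ef934_h95.Welch

/-!
MP_8ef934_nt: the Welch inequality for the sign vectors (helper95).
-/

set_option autoImplicit false
open Necdea073

namespace Pool.Agent.W8ef934h95

/-- the vectors for the Welch inequality -/
noncomputable def WelchCase_u (q x₀ : ℕ) (τ : ℝ) (x p : ℕ) : ℝ :=
  if p = 0 then Real.sqrt τ else Real.sqrt (Real.log (pw q p)) * eps q x₀ p x

theorem WelchCase_log_nonneg {q p : ℕ} (hp : p ∈ q.primeFactors) : 0 ≤ Real.log (pw q p) := by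
  apply Real.log_nonneg
  exact_mod_cast pw_pos hp

theorem WelchCase_ip (q x₀ : ℕ) {τ : ℝ} (hτ : 0 ≤ τ) (x y : ℕ) :
    ∑ p ∈ insert 0 q.primeFactors, WelchCase_u q x₀ τ x p * WelchCase_u q x₀ τ y p =
      ip q x₀ x y + τ := by
  have h0 : (0 : ℕ) ∉ q.primeFactors := fun h => (Nat.prime_of_mem_primeFactors h).ne_zero rfl
  rw [Finset.sum_insert h0, add_comm]
  congr 1
  · unfold ip
    refine Finset.sum_congr rfl fun p hp => ?_
    have hp0 : p ≠ 0 := fun h => h0 (h ▸ hp)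
    unfold WelchCase_u
    rw [if_neg hp0, if_neg hp0]
    have h1 := Real.mul_self_sqrt (WelchCase_log_nonneg hp)
    linear_combination (eps q x₀ p x * eps q x₀ p y) * h1
  · unfold WelchCase_u
    rw [if_pos rfl, if_pos rfl]
    exact Real.mul_self_sqrt hτ

theorem WelchCase_norm (q x₀ : ℕ) {τ : ℝ} (hτ : 0 ≤ τ) (x : ℕ) :
    ∑ p ∈ insert 0 q.primeFactors, WelchCase_u q x₀ τ x p ^ 2 =
      ∑ p ∈ q.primeFactors, Real.log (pw q p) + τ := by
  have h := WelchCase_ip q x₀ hτ x x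
  have h1 : ip q x₀ x x = ∑ p ∈ q.primeFactors, Real.log (pw q p) := by
    unfold ip
    refine Finset.sum_congr rfl fun p _ => ?_
    rw [eps_sq, mul_one]
  rw [h1] at h
  rw [← h]
  refine Finset.sum_congr rfl fun p _ => ?_
  ring

/-- Proof. If there is no solution the claim is clear; let `x₀` be a solution, `τ = max 0 (log (4 a / q))`,
`W = ∑ log (pw q p)`, `g = W + τ`, `b = log (2 N²)`.  Apply `welch'` to `T = sol N q a`, the index set
`I = insert 0 q.primeFactors` (`0` is not a prime; `I.card = q.primeFactors.card + 1`) and the vectors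
`u x p = √(log (pw q p)) * eps q x₀ p x` for `p ≠ 0`, `u x 0 = √τ`: the inner products are
`ip q x₀ x y + τ` (`abs_ip`), the norms are `g` (`eps_sq`).  So `n g² ≤ (ω + 1) (g² + (n - 1) b²)`; divide by
`g² ≥ (log q - log 2)² > 0` (`log_pw`) and drop `-1`. -/
theorem card_le_welch {N q a : ℕ} (hN : 8 ≤ N) (hq : 2 < q) (ha : 0 < a) (hqa : Nat.Coprime q a) :
    ((sol N q a).card : ℝ) ≤ (q.primeFactors.card + 1) *
      (1 + (sol N q a).card * (Real.log (2 * N ^ 2) / (Real.log q - Real.log 2)) ^ 2) := by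
  classical
  rcases (sol N q a).eq_empty_or_nonempty with he | ⟨x₀, hx₀⟩
  · rw [he]
    simp only [Finset.card_empty, Nat.cast_zero, zero_mul, add_zero, mul_one]
    positivity
  have hq0 : 0 < q := by omega
  have hq' : (2 : ℝ) < q := by exact_mod_cast hq
  have hN' : (8 : ℝ) ≤ N := by exact_mod_cast hN
  set τ : ℝ := max 0 (Real.log (4 * a / q)) with hτ
  have hτ0 : 0 ≤ τ := le_max_left _ _
  set W : ℝ := ∑ p ∈ q.primeFactors, Real.log (pw q p) with hW
  set b : ℝ := Real.log (2 * N ^ 2) with hb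
  set n : ℝ := ((sol N q a).card : ℝ) with hn
  set w : ℝ := ((q.primeFactors.card : ℕ) : ℝ) with hw
  have h0 : (0 : ℕ) ∉ q.primeFactors := fun h => (Nat.prime_of_mem_primeFactors h).ne_zero rfl
  have hcard : 1 ≤ (sol N q a).card := Finset.card_pos.2 ⟨x₀, hx₀⟩
  have hwelch := welch' (sol N q a) (insert 0 q.primeFactors) (WelchCase_u q x₀ τ) (W + τ) b hcard
    (fun i _ => WelchCase_norm q x₀ hτ0 i)
    (fun i hi j hj hij => by
      rw [WelchCase_ip q x₀ hτ0 i j]
      exact abs_ip hN hq0 ha hqa hx₀ hi hj hij)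
  rw [Finset.card_insert_of_notMem h0] at hwelch
  push_cast at hwelch
  have hL : 0 < Real.log q - Real.log 2 := by
    have := Real.log_lt_log (by norm_num) hq'
    linarith
  have hWL : Real.log q - Real.log 2 ≤ W := log_pw hq0
  set L : ℝ := Real.log q - Real.log 2 with hLdef
  have hg : L ≤ W + τ := by linarith
  have hgpos : 0 < W + τ := by linarith
  have hn0 : 0 ≤ n := by positivity
  have hw0 : 0 ≤ w := by positivity
  have h1 : n * (W + τ) ^ 2 ≤ (w + 1) * ((W + τ) ^ 2 + n * b ^ 2) := by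
    refine hwelch.trans ?_
    refine mul_le_mul_of_nonneg_left ?_ (by positivity)
    nlinarith [sq_nonneg b]
  have h2 : b ^ 2 ≤ (b / L) ^ 2 * (W + τ) ^ 2 := by
    have h3 : b ^ 2 = (b / L) ^ 2 * L ^ 2 := by field_simp
    have h4 : L ^ 2 ≤ (W + τ) ^ 2 := by gcongr
    calc b ^ 2 = (b / L) ^ 2 * L ^ 2 := h3
      _ ≤ (b / L) ^ 2 * (W + τ) ^ 2 := mul_le_mul_of_nonneg_left h4 (sq_nonneg _)
  have h5 : n * (W + τ) ^ 2 ≤ ((w + 1) * (1 + n * (b / L) ^ 2)) * (W + τ) ^ 2 := by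
    refine h1.trans ?_
    have h6 : n * b ^ 2 ≤ n * ((b / L) ^ 2 * (W + τ) ^ 2) := mul_le_mul_of_nonneg_left h2 hn0
    have h7 : (W + τ) ^ 2 + n * b ^ 2 ≤ (1 + n * (b / L) ^ 2) * (W + τ) ^ 2 := by nlinarith
    calc (w + 1) * ((W + τ) ^ 2 + n * b ^ 2) ≤ (w + 1) * ((1 + n * (b / L) ^ 2) * (W + τ) ^ 2) :=
          mul_le_mul_of_nonneg_left h7 (by positivity)
      _ = _ := by ring
  exact le_of_mul_le_mul_right h5 (by positivity)

end Pool.Agent.W8ef934h95
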