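import Mathlib
import Pool.Agent.W_8ef934_h95.WelchCase

/-!
MP_8ef934_nt: very large moduli (helper95).
-/

set_option autoImplicit false
open Necdea073

namespace Pool.Agent.W8ef934h95

/-- numerical facts for large `N` -/
theorem CaseD_ev (c' η : ℝ) (hc' : 0 ≤ c') (hη : 0 < η) : ∀ᶠ N : ℕ in Filter.atTop, 8 ≤ N ∧
    (1 : ℝ) ≤ (N : ℝ) ^ ((2 : ℝ) / 5) ∧ ∀ L : ℝ, (N : ℝ) ^ ((2 : ℝ) / 5) < L →
      (c' * Real.sqrt N + 1) * (Real.log (2 * N ^ 2) / (L - Real.log 2)) ^ 2 ≤ η := by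
  have e1 : ∀ᶠ x : ℝ in Filter.atTop, ‖Real.log x‖ ≤ 1 / 3 * ‖x ^ ((1 : ℝ) / 20)‖ :=
    (isLittleO_log_rpow_atTop (by norm_num : (0 : ℝ) < 1 / 20)).bound (by norm_num)
  have e2 : ∀ᶠ x : ℝ in Filter.atTop, max 2 (4 * (c' + 1) / η) ≤ x ^ ((1 : ℝ) / 20) :=
    (tendsto_rpow_atTop (by norm_num : (0 : ℝ) < 1 / 20)).eventually_ge_atTop _
  have e3 : ∀ᶠ x : ℝ in Filter.atTop, (8 : ℝ) ≤ x := Filter.eventually_ge_atTop _
  have e4 := tendsto_natCast_atTop_atTop.eventually (e1.and (e2.and e3))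
  filter_upwards [e4] with N hN
  obtain ⟨h1, h2, h3⟩ := hN
  set x : ℝ := (N : ℝ) with hx
  set z : ℝ := x ^ ((1 : ℝ) / 20) with hz
  have hx0 : 0 < x := by linarith
  have hz2 : 2 ≤ z := le_trans (le_max_left _ _) h2
  have hz3 : 4 * (c' + 1) / η ≤ z := le_trans (le_max_right _ _) h2
  have hz0 : 0 < z := by linarith
  have hzx : z ^ 20 = x := by
    rw [hz, ← Real.rpow_natCast, ← Real.rpow_mul hx0.le]
    norm_num
  have hz8 : x ^ ((2 : ℝ) / 5) = z ^ 8 := by
    rw [hz, ← Real.rpow_natCast (x ^ ((1 : ℝ) / 20)), ← Real.rpow_mul hx0.le]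
    norm_num
  have hz10 : Real.sqrt x = z ^ 10 := by
    rw [← hzx, show z ^ 20 = (z ^ 10) ^ 2 by ring, Real.sqrt_sq (by positivity)]
  have hlog : Real.log (2 * x ^ 2) ≤ z := by
    have hl : Real.log 2 ≤ Real.log x := Real.log_le_log (by norm_num) (by linarith)
    have hlx : 0 ≤ Real.log x := Real.log_nonneg (by linarith)
    rw [Real.norm_of_nonneg hlx, Real.norm_of_nonneg hz0.le] at h1
    rw [Real.log_mul (by norm_num) (by positivity), Real.log_pow]
    push_cast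
    linarith
  have hlog0 : 0 ≤ Real.log (2 * x ^ 2) := Real.log_nonneg (by nlinarith)
  have hz8' : (2 : ℝ) ≤ z ^ 8 := by
    calc (2 : ℝ) ≤ 2 ^ 8 := by norm_num
      _ ≤ z ^ 8 := pow_le_pow_left₀ (by norm_num) hz2 8
  have h3' : (8 : ℝ) ≤ (N : ℝ) := h3
  refine ⟨by exact_mod_cast h3', ?_, ?_⟩
  · rw [hz8]; linarith
  · intro L hL
    rw [hz8] at hL
    rw [hz10]
    have hl2 : Real.log 2 < 1 := by
      have := Real.log_two_lt_d9
      linarith
    have hden : z ^ 8 / 2 ≤ L - Real.log 2 := by linarith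
    have hden0 : 0 < z ^ 8 / 2 := by positivity
    have hq : Real.log (2 * x ^ 2) / (L - Real.log 2) ≤ 2 / z ^ 7 := by
      calc Real.log (2 * x ^ 2) / (L - Real.log 2) ≤ z / (z ^ 8 / 2) :=
            div_le_div₀ hz0.le hlog hden0 hden
        _ = 2 / z ^ 7 := by field_simp
    have hq0 : 0 ≤ Real.log (2 * x ^ 2) / (L - Real.log 2) :=
      div_nonneg hlog0 (by linarith)
    have hsq : (Real.log (2 * x ^ 2) / (L - Real.log 2)) ^ 2 ≤ (2 / z ^ 7) ^ 2 :=
      pow_le_pow_left₀ hq0 hq 2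
    have hz10' : 1 ≤ z ^ 10 := one_le_pow₀ (by linarith)
    have hA : c' * z ^ 10 + 1 ≤ (c' + 1) * z ^ 10 := by nlinarith
    calc (c' * z ^ 10 + 1) * (Real.log (2 * x ^ 2) / (L - Real.log 2)) ^ 2
        ≤ ((c' + 1) * z ^ 10) * (2 / z ^ 7) ^ 2 :=
          mul_le_mul hA hsq (by positivity) (by positivity)
      _ = 4 * (c' + 1) / z ^ 4 := by field_simp; ring
      _ ≤ η := by
          rw [div_le_iff₀ (by positivity)]
          rw [div_le_iff₀ hη] at hz3
          have hz4 : z ≤ z ^ 4 := by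
            calc z = z * 1 := (mul_one z).symm
              _ ≤ z * z ^ 3 := mul_le_mul_of_nonneg_left (one_le_pow₀ (by linarith)) hz0.le
              _ = z ^ 4 := by ring
          calc 4 * (c' + 1) ≤ z * η := hz3
            _ ≤ z ^ 4 * η := mul_le_mul_of_nonneg_right hz4 hη.le
            _ = η * z ^ 4 := by ring

/-- Proof. Let `n = card`, `d = ω(q) ≤ c √N` (we may assume `0 < c`), `δ = log (2 N²) / (log q - log 2)`.  Since
`log q > N^(2/5)`, `(d + 1) δ² ≤ (c √N + 1) (log (2 N²) / (N^(2/5) - log 2))²`, which tends to `0` as `N → ∞`;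
let `η` be so small that `c / (1 - η) < √(8/3)`, and `N` so large that `(d + 1) δ² ≤ η`.  By `card_le_welch`,
`n ≤ (d + 1) + n (d + 1) δ² ≤ (d + 1) + n η`, so `n ≤ (c √N + 1) / (1 - η) < √(8 N / 3) - 3` for large `N`. -/
theorem caseIV (c : ℝ) (hc : c < Real.sqrt (8 / 3)) : ∃ N₀ : ℕ, ∀ N ≥ N₀, ∀ q a : ℕ, 0 < a →
    Nat.Coprime q a → (N : ℝ) ^ ((2 : ℝ) / 5) < Real.log q →
    (q.primeFactors.card : ℝ) ≤ c * Real.sqrt N →
    ((sol N q a).card : ℝ) < Real.sqrt (8 * N / 3) - 3 := by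
  set s : ℝ := Real.sqrt (8 / 3) with hs
  have hs0 : 0 < s := Real.sqrt_pos.2 (by norm_num)
  set c' : ℝ := max c 0 with hc'
  have hc'0 : 0 ≤ c' := le_max_right _ _
  have hc's : c' < s := max_lt hc hs0
  set η : ℝ := (s - c') / (2 * s) with hη
  have hη0 : 0 < η := div_pos (by linarith) (by linarith)
  have hη1 : s * (1 - η) = (s + c') / 2 := by
    rw [hη]
    field_simp
    ring
  have hη2 : η ≤ 1 / 2 := by
    rw [hη, div_le_iff₀ (by linarith)]
    linarith
  have e5 : ∀ᶠ N : ℕ in Filter.atTop, 8 / (s - c') + 1 ≤ Real.sqrt N :=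
    (Real.tendsto_sqrt_atTop.comp tendsto_natCast_atTop_atTop).eventually_ge_atTop _
  obtain ⟨N₀, hN₀⟩ := Filter.eventually_atTop.1 ((CaseD_ev c' η hc'0 hη0).and e5)
  refine ⟨N₀, fun N hN q a ha hqa hq hω => ?_⟩
  obtain ⟨⟨hN8, h1, h2⟩, h3⟩ := hN₀ N hN
  have hq2 : 2 < q := by
    by_contra hcon
    push Not at hcon
    have h4 : Real.log q ≤ Real.log 2 := by
      rcases Nat.eq_zero_or_pos q with h0 | h0
      · rw [h0, Nat.cast_zero, Real.log_zero]
        exact Real.log_nonneg (by norm_num)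
      · exact Real.log_le_log (by exact_mod_cast h0) (by exact_mod_cast hcon)
    have := Real.log_two_lt_d9
    linarith
  have h4 := card_le_welch (N := N) hN8 hq2 ha hqa
  have h5 := h2 _ hq
  set n : ℝ := ((sol N q a).card : ℝ) with hn
  have hn0 : 0 ≤ n := Nat.cast_nonneg _
  set B : ℝ := (Real.log (2 * N ^ 2) / (Real.log q - Real.log 2)) ^ 2 with hB
  have hB0 : 0 ≤ B := sq_nonneg _
  have hsN : 0 ≤ Real.sqrt (N : ℝ) := Real.sqrt_nonneg _
  have hω' : (q.primeFactors.card : ℝ) ≤ c' * Real.sqrt N :=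
    hω.trans (mul_le_mul_of_nonneg_right (le_max_left _ _) hsN)
  have h6 : n ≤ (c' * Real.sqrt N + 1) + n * η := by
    calc n ≤ (q.primeFactors.card + 1) * (1 + n * B) := h4
      _ ≤ (c' * Real.sqrt N + 1) * (1 + n * B) :=
          mul_le_mul_of_nonneg_right (by linarith) (by positivity)
      _ = (c' * Real.sqrt N + 1) + n * ((c' * Real.sqrt N + 1) * B) := by ring
      _ ≤ (c' * Real.sqrt N + 1) + n * η := by
          have := mul_le_mul_of_nonneg_left h5 hn0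
          linarith
  have hs' : Real.sqrt (8 * N / 3) = s * Real.sqrt N := by
    rw [hs, ← Real.sqrt_mul (by norm_num)]
    congr 1
    ring
  rw [hs']
  have h7 : n * (1 - η) ≤ c' * Real.sqrt N + 1 := by linarith
  have h8 : c' * Real.sqrt N + 1 < (s * Real.sqrt N - 3) * (1 - η) := by
    have h9 : (s * Real.sqrt N - 3) * (1 - η) = (s + c') / 2 * Real.sqrt N - 3 * (1 - η) := by
      rw [sub_mul, mul_right_comm, hη1]
    rw [h9]
    have h10 : 8 ≤ (s - c') * (Real.sqrt N - 1) := by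
      have h11 : 8 / (s - c') ≤ Real.sqrt N - 1 := by linarith
      rw [div_le_iff₀ (by linarith)] at h11
      linarith
    have h12 : 0 < s - c' := by linarith
    nlinarith
  have h13 : 0 < 1 - η := by linarith
  exact lt_of_mul_lt_mul_right (lt_of_le_of_lt h7 h8) h13.le

end Pool.Agent.W8ef934h95
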