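import Mathlib
import Pool.Agent.W_8ef934_h95.SignC

/-!
MP_8ef934_nt: bounds for nearly orthogonal sign vectors with weights (helper95).
-/

set_option autoImplicit false
open Necdea073

namespace Pool.Agent.W8ef934h95

theorem Eff_double {α ι : Type} (T : Finset α) (I : Finset ι) (u : α → ι → ℝ) :
    ∑ k ∈ I, ∑ l ∈ I, (∑ i ∈ T, u i k * u i l) ^ 2 =
      ∑ i ∈ T, ∑ j ∈ T, (∑ k ∈ I, u i k * u j k) ^ 2 := by
  have e1 : ∀ k l, (∑ i ∈ T, u i k * u i l) ^ 2 =
      ∑ i ∈ T, ∑ j ∈ T, (u i k * u j k) * (u i l * u j l) := by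
    intro k l
    rw [sq, Finset.sum_mul_sum]
    refine Finset.sum_congr rfl fun i _ => Finset.sum_congr rfl fun j _ => ?_
    ring
  have e2 : ∀ i j, (∑ k ∈ I, u i k * u j k) ^ 2 =
      ∑ k ∈ I, ∑ l ∈ I, (u i k * u j k) * (u i l * u j l) := by
    intro i j
    rw [sq, Finset.sum_mul_sum]
  simp only [e1, e2]
  calc ∑ k ∈ I, ∑ l ∈ I, ∑ i ∈ T, ∑ j ∈ T, (u i k * u j k) * (u i l * u j l)
      = ∑ k ∈ I, ∑ i ∈ T, ∑ l ∈ I, ∑ j ∈ T, (u i k * u j k) * (u i l * u j l) :=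
        Finset.sum_congr rfl fun k _ => Finset.sum_comm
    _ = ∑ i ∈ T, ∑ k ∈ I, ∑ l ∈ I, ∑ j ∈ T, (u i k * u j k) * (u i l * u j l) :=
        Finset.sum_comm
    _ = ∑ i ∈ T, ∑ k ∈ I, ∑ j ∈ T, ∑ l ∈ I, (u i k * u j k) * (u i l * u j l) :=
        Finset.sum_congr rfl fun i _ => Finset.sum_congr rfl fun k _ => Finset.sum_comm
    _ = ∑ i ∈ T, ∑ j ∈ T, ∑ k ∈ I, ∑ l ∈ I, (u i k * u j k) * (u i l * u j l) :=
        Finset.sum_congr rfl fun i _ => Finset.sum_comm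

section generic

variable {α ι : Type} [DecidableEq α] (T : Finset α) (I : Finset ι) (u : α → ι → ℝ) (w : ι → ℝ)
  (g b : ℝ)

/-- the bound by the effective dimension -/
theorem eff (hT : 1 ≤ T.card) (hw : ∀ i ∈ T, ∀ k ∈ I, u i k ^ 2 = w k) (hg : ∑ k ∈ I, w k = g)
    (hb : ∀ i ∈ T, ∀ j ∈ T, i ≠ j → |∑ k ∈ I, u i k * u j k| ≤ b) :
    (T.card : ℝ) * ∑ k ∈ I, w k ^ 2 ≤ g ^ 2 + (T.card - 1) * b ^ 2 := by
  have hT' : (1 : ℝ) ≤ T.card := by exact_mod_cast hT
  have h3 : ∑ i ∈ T, ∑ j ∈ T, (∑ k ∈ I, u i k * u j k) ^ 2 ≤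
      T.card * (g ^ 2 + (T.card - 1) * b ^ 2) := by
    have h4 : ∀ i ∈ T, ∑ j ∈ T, (∑ k ∈ I, u i k * u j k) ^ 2 ≤ g ^ 2 + (T.card - 1) * b ^ 2 := by
      intro i hi
      rw [← Finset.add_sum_erase T _ hi]
      have h5 : (∑ k ∈ I, u i k * u i k) ^ 2 = g ^ 2 := by
        rw [← hg]
        congr 1
        exact Finset.sum_congr rfl fun k hk => by rw [← hw i hi k hk]; ring
      have h6 : ∑ j ∈ T.erase i, (∑ k ∈ I, u i k * u j k) ^ 2 ≤ (T.card - 1) * b ^ 2 := by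
        have h7 : ∑ j ∈ T.erase i, (∑ k ∈ I, u i k * u j k) ^ 2 ≤ ∑ _j ∈ T.erase i, b ^ 2 := by
          refine Finset.sum_le_sum fun j hj => ?_
          rw [Finset.mem_erase] at hj
          have h8 := hb i hi j hj.2 (Ne.symm hj.1)
          rw [← sq_abs]
          exact pow_le_pow_left₀ (abs_nonneg _) h8 2
        rw [Finset.sum_const, Finset.card_erase_of_mem hi, nsmul_eq_mul, Nat.cast_sub hT,
          Nat.cast_one] at h7
        exact h7
      rw [h5]
      linarith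
    have h9 := Finset.sum_le_sum h4
    rw [Finset.sum_const, nsmul_eq_mul] at h9
    exact h9
  rw [← Eff_double] at h3
  have h1 : ∑ k ∈ I, ((T.card : ℝ) * w k) ^ 2 ≤
      ∑ k ∈ I, ∑ l ∈ I, (∑ i ∈ T, u i k * u i l) ^ 2 := by
    refine Finset.sum_le_sum fun k hk => ?_
    have h2 : (T.card : ℝ) * w k = ∑ i ∈ T, u i k * u i k := by
      have h0 : ∀ i ∈ T, u i k * u i k = w k := fun i hi => by rw [← hw i hi k hk]; ring
      rw [Finset.sum_congr rfl h0, Finset.sum_const, nsmul_eq_mul]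
    rw [h2]
    exact Finset.single_le_sum (f := fun l => (∑ i ∈ T, u i k * u i l) ^ 2)
      (fun l _ => sq_nonneg _) hk
  have h5 : ∑ k ∈ I, ((T.card : ℝ) * w k) ^ 2 = T.card * (T.card * ∑ k ∈ I, w k ^ 2) := by
    rw [Finset.mul_sum, Finset.mul_sum]
    exact Finset.sum_congr rfl fun k _ => by ring
  rw [h5] at h1
  exact le_of_mul_le_mul_left (h1.trans h3) (by linarith)

/-- the bound by a single coordinate -/
theorem single (hT : 1 ≤ T.card) (hw : ∀ i ∈ T, ∀ k ∈ I, u i k ^ 2 = w k) (hg : ∑ k ∈ I, w k = g)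
    (hb0 : 0 ≤ b) (hb : ∀ i ∈ T, ∀ j ∈ T, i ≠ j → |∑ k ∈ I, u i k * u j k| ≤ b)
    {k₀ : ι} (hk₀ : k₀ ∈ I) :
    (T.card : ℝ) * w k₀ ≤ g + (T.card - 1) * b := by
  have hT' : (1 : ℝ) ≤ T.card := by exact_mod_cast hT
  have hTne : T.Nonempty := Finset.card_pos.1 (by omega)
  obtain ⟨i₀, hi₀⟩ := hTne
  have hw0 : ∀ k ∈ I, 0 ≤ w k := fun k hk => by rw [← hw i₀ hi₀ k hk]; positivity
  have hg0 : 0 ≤ g := by rw [← hg]; exact Finset.sum_nonneg hw0
  rcases (hw0 k₀ hk₀).eq_or_lt with h0 | h0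
  · rw [← h0, mul_zero]
    nlinarith
  have habs : ∀ i ∈ T, |u i k₀| = Real.sqrt (w k₀) := by
    intro i hi
    rw [← hw i hi k₀ hk₀, Real.sqrt_sq_eq_abs]
  have hid : ∑ i ∈ T, ∑ j ∈ T, (u i k₀ * u j k₀) * ∑ k ∈ I, u i k * u j k =
      ∑ k ∈ I, (∑ i ∈ T, u i k₀ * u i k) ^ 2 := by
    have e2 : ∀ k, (∑ i ∈ T, u i k₀ * u i k) ^ 2 =
        ∑ i ∈ T, ∑ j ∈ T, (u i k₀ * u j k₀) * (u i k * u j k) := by
      intro k
      rw [sq, Finset.sum_mul_sum]
      refine Finset.sum_congr rfl fun i _ => Finset.sum_congr rfl fun j _ => ?_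
      ring
    simp only [e2, Finset.mul_sum]
    calc ∑ i ∈ T, ∑ j ∈ T, ∑ k ∈ I, u i k₀ * u j k₀ * (u i k * u j k)
        = ∑ i ∈ T, ∑ k ∈ I, ∑ j ∈ T, u i k₀ * u j k₀ * (u i k * u j k) :=
          Finset.sum_congr rfl fun i _ => Finset.sum_comm
      _ = ∑ k ∈ I, ∑ i ∈ T, ∑ j ∈ T, u i k₀ * u j k₀ * (u i k * u j k) := Finset.sum_comm
  have hlow : ((T.card : ℝ) * w k₀) ^ 2 ≤ ∑ k ∈ I, (∑ i ∈ T, u i k₀ * u i k) ^ 2 := by
    have h2 : (T.card : ℝ) * w k₀ = ∑ i ∈ T, u i k₀ * u i k₀ := by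
      have h0 : ∀ i ∈ T, u i k₀ * u i k₀ = w k₀ := fun i hi => by rw [← hw i hi k₀ hk₀]; ring
      rw [Finset.sum_congr rfl h0, Finset.sum_const, nsmul_eq_mul]
    rw [h2]
    exact Finset.single_le_sum (f := fun l => (∑ i ∈ T, u i k₀ * u i l) ^ 2)
      (fun l _ => sq_nonneg _) hk₀
  have hup : ∑ i ∈ T, ∑ j ∈ T, (u i k₀ * u j k₀) * ∑ k ∈ I, u i k * u j k ≤
      T.card * (w k₀ * (g + (T.card - 1) * b)) := by
    have h4 : ∀ i ∈ T, ∑ j ∈ T, (u i k₀ * u j k₀) * ∑ k ∈ I, u i k * u j k ≤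
        w k₀ * (g + (T.card - 1) * b) := by
      intro i hi
      rw [← Finset.add_sum_erase T _ hi]
      have h5 : (u i k₀ * u i k₀) * ∑ k ∈ I, u i k * u i k = w k₀ * g := by
        have h6 : u i k₀ * u i k₀ = w k₀ := by rw [← hw i hi k₀ hk₀]; ring
        have h7 : ∑ k ∈ I, u i k * u i k = g := by
          rw [← hg]
          exact Finset.sum_congr rfl fun k hk => by rw [← hw i hi k hk]; ring
        rw [h6, h7]
      have h6 : ∑ j ∈ T.erase i, (u i k₀ * u j k₀) * ∑ k ∈ I, u i k * u j k ≤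
          (T.card - 1) * (w k₀ * b) := by
        have h7 : ∑ j ∈ T.erase i, (u i k₀ * u j k₀) * ∑ k ∈ I, u i k * u j k ≤
            ∑ _j ∈ T.erase i, w k₀ * b := by
          refine Finset.sum_le_sum fun j hj => ?_
          rw [Finset.mem_erase] at hj
          have h8 := hb i hi j hj.2 (Ne.symm hj.1)
          calc (u i k₀ * u j k₀) * ∑ k ∈ I, u i k * u j k
              ≤ |(u i k₀ * u j k₀) * ∑ k ∈ I, u i k * u j k| := le_abs_self _
            _ = (Real.sqrt (w k₀) * Real.sqrt (w k₀)) * |∑ k ∈ I, u i k * u j k| := by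
                rw [abs_mul, abs_mul, habs i hi, habs j hj.2]
            _ = w k₀ * |∑ k ∈ I, u i k * u j k| := by rw [Real.mul_self_sqrt h0.le]
            _ ≤ w k₀ * b := mul_le_mul_of_nonneg_left h8 h0.le
        rw [Finset.sum_const, Finset.card_erase_of_mem hi, nsmul_eq_mul, Nat.cast_sub hT,
          Nat.cast_one] at h7
        exact h7
      rw [h5]
      linarith
    have h9 := Finset.sum_le_sum h4
    rw [Finset.sum_const, nsmul_eq_mul] at h9
    exact h9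
  rw [hid] at hup
  have h1 := hlow.trans hup
  have h2 : (T.card * w k₀) * (T.card * w k₀) ≤ (T.card * w k₀) * (g + (T.card - 1) * b) := by
    calc (T.card * w k₀) * (T.card * w k₀) = (T.card * w k₀) ^ 2 := by ring
      _ ≤ _ := h1
      _ = _ := by ring
  exact le_of_mul_le_mul_left h2 (by positivity)

end generic

/-- the vectors attached to the solutions -/
noncomputable def vec (q x₀ : ℕ) (τ : ℝ) (x p : ℕ) : ℝ :=
  if p = 0 then Real.sqrt τ else Real.sqrt (Real.log (pw q p)) * eps q x₀ p x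

/-- the squares of their coordinates -/
noncomputable def wt (q : ℕ) (τ : ℝ) (p : ℕ) : ℝ := if p = 0 then τ else Real.log (pw q p)

theorem log_pw_nonneg {q p : ℕ} (hp : p ∈ q.primeFactors) : 0 ≤ Real.log (pw q p) :=
  Real.log_nonneg (by exact_mod_cast pw_pos hp)

theorem vec_sq {q x₀ x p : ℕ} {τ : ℝ} (hτ : 0 ≤ τ) (hp : p ∈ insert 0 q.primeFactors) :
    vec q x₀ τ x p ^ 2 = wt q τ p := by
  unfold vec wt
  split_ifs with h
  · exact Real.sq_sqrt hτ
  · have hp' : p ∈ q.primeFactors := by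
      rcases Finset.mem_insert.1 hp with h1 | h1
      · exact absurd h1 h
      · exact h1
    rw [mul_pow, Real.sq_sqrt (log_pw_nonneg hp'), sq (eps q x₀ p x), eps_sq, mul_one]

theorem zero_notMem (q : ℕ) : 0 ∉ q.primeFactors := by
  intro h
  exact absurd (Nat.prime_of_mem_primeFactors h) Nat.not_prime_zero

theorem vec_ip {q x₀ x y : ℕ} {τ : ℝ} (hτ : 0 ≤ τ) :
    ∑ p ∈ insert 0 q.primeFactors, vec q x₀ τ x p * vec q x₀ τ y p = ip q x₀ x y + τ := by
  rw [Finset.sum_insert (zero_notMem q), add_comm]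
  congr 1
  · unfold ip
    refine Finset.sum_congr rfl fun p hp => ?_
    have h : p ≠ 0 := fun h0 => zero_notMem q (h0 ▸ hp)
    unfold vec
    rw [if_neg h, if_neg h]
    have := Real.mul_self_sqrt (log_pw_nonneg hp)
    calc Real.sqrt (Real.log (pw q p)) * eps q x₀ p x * (Real.sqrt (Real.log (pw q p)) * eps q x₀ p y)
        = (Real.sqrt (Real.log (pw q p)) * Real.sqrt (Real.log (pw q p))) *
          (eps q x₀ p x * eps q x₀ p y) := by ring
      _ = _ := by rw [this]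
  · unfold vec
    rw [if_pos rfl, if_pos rfl]
    exact Real.mul_self_sqrt hτ

theorem wt_sum (q : ℕ) (τ : ℝ) : ∑ p ∈ insert 0 q.primeFactors, wt q τ p =
    ∑ p ∈ q.primeFactors, Real.log (pw q p) + τ := by
  rw [Finset.sum_insert (zero_notMem q), add_comm]
  congr 1
  · refine Finset.sum_congr rfl fun p hp => ?_
    have h : p ≠ 0 := fun h0 => zero_notMem q (h0 ▸ hp)
    unfold wt
    rw [if_neg h]

theorem wt_sq_sum (q : ℕ) (τ : ℝ) : ∑ p ∈ insert 0 q.primeFactors, wt q τ p ^ 2 =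
    ∑ p ∈ q.primeFactors, Real.log (pw q p) ^ 2 + τ ^ 2 := by
  rw [Finset.sum_insert (zero_notMem q), add_comm]
  congr 1
  · refine Finset.sum_congr rfl fun p hp => ?_
    have h : p ≠ 0 := fun h0 => zero_notMem q (h0 ▸ hp)
    unfold wt
    rw [if_neg h]

/-- the shift of the inner products -/
noncomputable def tau (q a : ℕ) : ℝ := max 0 (Real.log (4 * a / q))

theorem tau_nonneg (q a : ℕ) : 0 ≤ tau q a := le_max_left _ _

theorem log_pos_aux {N : ℕ} (hN : 8 ≤ N) : 0 ≤ Real.log (2 * (N : ℝ) ^ 2) := by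
  have : (8 : ℝ) ≤ N := by exact_mod_cast hN
  exact Real.log_nonneg (by nlinarith)

/-- the bound by the effective number of prime powers -/
theorem card_eff {N q a : ℕ} (hN : 8 ≤ N) (hq : 0 < q) (ha : 0 < a) (hqa : Nat.Coprime q a)
    (hne : 1 ≤ (sol N q a).card) :
    ((sol N q a).card : ℝ) * (∑ p ∈ q.primeFactors, Real.log (pw q p) ^ 2 + tau q a ^ 2) ≤
      (∑ p ∈ q.primeFactors, Real.log (pw q p) + tau q a) ^ 2 +
        ((sol N q a).card - 1) * Real.log (2 * N ^ 2) ^ 2 := by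
  obtain ⟨x₀, hx₀⟩ : (sol N q a).Nonempty := Finset.card_pos.1 (by omega)
  have h := eff (sol N q a) (insert 0 q.primeFactors) (vec q x₀ (tau q a)) (wt q (tau q a))
    (∑ p ∈ q.primeFactors, Real.log (pw q p) + tau q a) (Real.log (2 * N ^ 2)) hne
    (fun x _ p hp => vec_sq (tau_nonneg q a) hp) (wt_sum q _)
    (fun x hx y hy hxy => by
      rw [vec_ip (tau_nonneg q a)]
      exact abs_ip hN hq ha hqa hx₀ hx hy hxy)
  rwa [wt_sq_sum] at h

/-- the bound by one prime power -/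
theorem card_single {N q a : ℕ} (hN : 8 ≤ N) (hq : 0 < q) (ha : 0 < a) (hqa : Nat.Coprime q a)
    (hne : 1 ≤ (sol N q a).card) {p : ℕ} (hp : p ∈ q.primeFactors) :
    ((sol N q a).card : ℝ) * Real.log (pw q p) ≤
      (∑ p ∈ q.primeFactors, Real.log (pw q p) + tau q a) +
        ((sol N q a).card - 1) * Real.log (2 * N ^ 2) := by
  obtain ⟨x₀, hx₀⟩ : (sol N q a).Nonempty := Finset.card_pos.1 (by omega)
  have h := single (sol N q a) (insert 0 q.primeFactors) (vec q x₀ (tau q a)) (wt q (tau q a))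
    (∑ p ∈ q.primeFactors, Real.log (pw q p) + tau q a) (Real.log (2 * N ^ 2)) hne
    (fun x _ p hp => vec_sq (tau_nonneg q a) hp) (wt_sum q _) (log_pos_aux hN)
    (fun x hx y hy hxy => by
      rw [vec_ip (tau_nonneg q a)]
      exact abs_ip hN hq ha hqa hx₀ hx hy hxy)
    (Finset.mem_insert_of_mem hp)
  have h0 : wt q (tau q a) p = Real.log (pw q p) := by
    unfold wt
    rw [if_neg (fun h0 : p = 0 => zero_notMem q (h0 ▸ hp))]
  rwa [h0] at h

/-- the bound for progressions which start far away -/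
theorem card_simplex {N q a : ℕ} (hN : 8 ≤ N) (hq : 0 < q) (ha : 0 < a) (hqa : Nat.Coprime q a)
    (hne : 1 ≤ (sol N q a).card) :
    ((sol N q a).card - 1) * (tau q a - Real.log (2 * N ^ 2)) ≤
      ∑ p ∈ q.primeFactors, Real.log (pw q p) := by
  obtain ⟨x₀, hx₀⟩ : (sol N q a).Nonempty := Finset.card_pos.1 (by omega)
  have hT' : (1 : ℝ) ≤ (sol N q a).card := by exact_mod_cast hne
  set T := sol N q a with hT
  set W := ∑ p ∈ q.primeFactors, Real.log (pw q p) with hW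
  set b := Real.log (2 * (N : ℝ) ^ 2) with hb
  have h1 : 0 ≤ ∑ x ∈ T, ∑ y ∈ T, ip q x₀ x y := by
    have h2 : ∑ x ∈ T, ∑ y ∈ T, ip q x₀ x y =
        ∑ p ∈ q.primeFactors, Real.log (pw q p) * (∑ x ∈ T, eps q x₀ p x) ^ 2 := by
      unfold ip
      have e2 : ∀ p, Real.log (pw q p) * (∑ x ∈ T, eps q x₀ p x) ^ 2 =
          ∑ x ∈ T, ∑ y ∈ T, Real.log (pw q p) * (eps q x₀ p x * eps q x₀ p y) := by
        intro p
        rw [sq, Finset.sum_mul_sum, Finset.mul_sum]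
        exact Finset.sum_congr rfl fun x _ => by rw [Finset.mul_sum]
      simp only [e2]
      calc ∑ x ∈ T, ∑ y ∈ T, ∑ p ∈ q.primeFactors,
            Real.log (pw q p) * (eps q x₀ p x * eps q x₀ p y)
          = ∑ x ∈ T, ∑ p ∈ q.primeFactors, ∑ y ∈ T,
            Real.log (pw q p) * (eps q x₀ p x * eps q x₀ p y) :=
            Finset.sum_congr rfl fun x _ => Finset.sum_comm
        _ = _ := Finset.sum_comm
    rw [h2]
    exact Finset.sum_nonneg fun p hp => mul_nonneg (log_pw_nonneg hp) (sq_nonneg _)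
  have h4 : ∀ x ∈ T, ∑ y ∈ T, ip q x₀ x y ≤ W + (T.card - 1) * (b - tau q a) := by
    intro x hx
    rw [← Finset.add_sum_erase T _ hx]
    have h5 : ip q x₀ x x = W := by
      unfold ip
      exact Finset.sum_congr rfl fun p _ => by rw [eps_sq, mul_one]
    have h7 : ∑ y ∈ T.erase x, ip q x₀ x y ≤ ∑ _y ∈ T.erase x, (b - tau q a) := by
      refine Finset.sum_le_sum fun y hy => ?_
      rw [Finset.mem_erase] at hy
      have h8 := abs_ip hN hq ha hqa hx₀ hx hy.2 (Ne.symm hy.1)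
      have h9 := (abs_le.1 h8).2
      have h10 : max 0 (Real.log (4 * a / q)) = tau q a := rfl
      rw [h10] at h9
      linarith
    rw [Finset.sum_const, Finset.card_erase_of_mem hx, nsmul_eq_mul, Nat.cast_sub hne,
      Nat.cast_one] at h7
    rw [h5]
    linarith
  have h9 := Finset.sum_le_sum h4
  rw [Finset.sum_const, nsmul_eq_mul] at h9
  have h10 : 0 ≤ (T.card : ℝ) * (W + (T.card - 1) * (b - tau q a)) := h1.trans h9
  have h11 : 0 ≤ W + (T.card - 1) * (b - tau q a) :=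
    nonneg_of_mul_nonneg_right h10 (by linarith)
  linarith

end Pool.Agent.W8ef934h95
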