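import Mathlib
import Pool.Agent.W_8ef934_h95.Eff
import Pool.Agent.W_8ef934_h95.CaseD

/-!
MP_8ef934_nt: moduli with a small effective number of prime powers (helper95).
-/

set_option autoImplicit false
open Necdea073

namespace Pool.Agent.W8ef934h95

/-- the sum of the squares of the logarithms of the prime powers which divide `q` exactly -/
noncomputable def sqs (q : ℕ) : ℝ :=
  ∑ p ∈ q.primeFactors, Real.log ((p : ℝ) ^ (q.factorization p)) ^ 2

theorem sqs_nonneg (q : ℕ) : 0 ≤ sqs q := Finset.sum_nonneg fun _ _ => sq_nonneg _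

theorem CaseE_A (q : ℕ) :
    sqs q - 2 * Real.sqrt (sqs q) ≤ ∑ p ∈ q.primeFactors, Real.log (pw q p) ^ 2 := by
  have h1 : ∀ p : ℕ, p ≠ 2 → Real.log ((p : ℝ) ^ (q.factorization p)) ^ 2 =
      Real.log (pw q p) ^ 2 := by
    intro p h2
    unfold pw
    rw [if_neg h2]
    push_cast
    rfl
  have hs0 : 0 ≤ Real.sqrt (sqs q) := Real.sqrt_nonneg _
  by_cases h2 : 2 ∈ q.primeFactors
  · have e1 : sqs q = Real.log (((2 : ℕ) : ℝ) ^ (q.factorization 2)) ^ 2 +
        ∑ p ∈ q.primeFactors.erase 2, Real.log ((p : ℝ) ^ (q.factorization p)) ^ 2 :=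
      (Finset.add_sum_erase _ _ h2).symm
    have e2 : ∑ p ∈ q.primeFactors, Real.log (pw q p) ^ 2 = Real.log (pw q 2) ^ 2 +
        ∑ p ∈ q.primeFactors.erase 2, Real.log (pw q p) ^ 2 :=
      (Finset.add_sum_erase _ _ h2).symm
    have e3 : ∑ p ∈ q.primeFactors.erase 2, Real.log ((p : ℝ) ^ (q.factorization p)) ^ 2 =
        ∑ p ∈ q.primeFactors.erase 2, Real.log (pw q p) ^ 2 :=
      Finset.sum_congr rfl fun p hp => h1 p (Finset.ne_of_mem_erase hp)
    obtain ⟨e, he⟩ : ∃ e, q.factorization 2 = e + 1 := by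
      have h3 : q.factorization 2 ≠ 0 := by
        have := (Nat.support_factorization q) ▸ h2
        exact Finsupp.mem_support_iff.1 this
      exact ⟨q.factorization 2 - 1, by omega⟩
    have e4 : Real.log (((2 : ℕ) : ℝ) ^ (q.factorization 2)) = (e + 1) * Real.log 2 := by
      rw [he, Real.log_pow]
      push_cast
      ring
    have e5 : Real.log (pw q 2) = e * Real.log 2 := by
      unfold pw
      rw [if_pos rfl, he, Nat.add_sub_cancel]
      push_cast
      rw [Real.log_pow]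
    have hl0 : 0 < Real.log 2 := Real.log_pos (by norm_num)
    have hl1 : Real.log 2 < 1 := by
      have := Real.log_two_lt_d9
      linarith
    have e6 : (e + 1) * Real.log 2 ≤ Real.sqrt (sqs q) := by
      apply Real.le_sqrt_of_sq_le
      rw [e1, e4]
      have : 0 ≤ ∑ p ∈ q.primeFactors.erase 2, Real.log ((p : ℝ) ^ (q.factorization p)) ^ 2 :=
        Finset.sum_nonneg fun _ _ => sq_nonneg _
      linarith
    rw [e2, e1, e3, e4, e5]
    rw [e1, e3, e4] at e6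
    set r := Real.sqrt (((e : ℝ) + 1) * Real.log 2 * (((e : ℝ) + 1) * Real.log 2) +
      ∑ p ∈ q.primeFactors.erase 2, Real.log (pw q p) ^ 2) with hr
    have e7 : (((e : ℝ) + 1) * Real.log 2) ^ 2 = ((e : ℝ) + 1) * Real.log 2 * (((e : ℝ) + 1) * Real.log 2) := by
      ring
    rw [e7] at e6 ⊢
    rw [← hr] at e6 ⊢
    have he0 : (0 : ℝ) ≤ e := Nat.cast_nonneg _
    have e8 : ((e : ℝ) + 1) * Real.log 2 * (((e : ℝ) + 1) * Real.log 2) -
        (e * Real.log 2) ^ 2 ≤ 2 * (((e : ℝ) + 1) * Real.log 2) := by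
      have : ((e : ℝ) + 1) * Real.log 2 * (((e : ℝ) + 1) * Real.log 2) - (e * Real.log 2) ^ 2 =
          (2 * e + 1) * Real.log 2 * Real.log 2 := by ring
      rw [this]
      have h9 : (2 * (e : ℝ) + 1) * Real.log 2 * Real.log 2 ≤ (2 * (e : ℝ) + 1) * Real.log 2 * 1 :=
        mul_le_mul_of_nonneg_left hl1.le (by positivity)
      nlinarith
    linarith
  · have e3 : sqs q = ∑ p ∈ q.primeFactors, Real.log (pw q p) ^ 2 :=
      Finset.sum_congr rfl fun p hp => h1 p (fun h => h2 (h ▸ hp))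
    rw [← e3]
    linarith

theorem CaseE_ev (c' η : ℝ) (hη : 0 < η) : ∀ᶠ N : ℕ in Filter.atTop,
    4 * c' * Real.sqrt N ≤ η ^ 2 * ((N : ℝ) ^ ((2 : ℝ) / 5)) ^ 2 := by
  have e2 : ∀ᶠ x : ℝ in Filter.atTop, 4 * c' / η ^ 2 ≤ x ^ ((3 : ℝ) / 10) :=
    (tendsto_rpow_atTop (by norm_num : (0 : ℝ) < 3 / 10)).eventually_ge_atTop _
  have e3 : ∀ᶠ x : ℝ in Filter.atTop, (1 : ℝ) ≤ x := Filter.eventually_ge_atTop _
  have e4 := tendsto_natCast_atTop_atTop.eventually (e2.and e3)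
  filter_upwards [e4] with N hN
  obtain ⟨h2, h3⟩ := hN
  have hx0 : (0 : ℝ) < N := by linarith
  have h5 : ((N : ℝ) ^ ((2 : ℝ) / 5)) ^ 2 = (N : ℝ) ^ ((3 : ℝ) / 10) * Real.sqrt N := by
    rw [Real.sqrt_eq_rpow, ← Real.rpow_add hx0, ← Real.rpow_natCast, ← Real.rpow_mul hx0.le]
    norm_num
  rw [h5]
  rw [div_le_iff₀ (by positivity)] at h2
  have h6 := mul_le_mul_of_nonneg_right h2 (Real.sqrt_nonneg (N : ℝ))
  calc 4 * c' * Real.sqrt N ≤ (N : ℝ) ^ ((3 : ℝ) / 10) * η ^ 2 * Real.sqrt N := h6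
    _ = _ := by ring

/-- the algebraic core -/
theorem CaseE_alg (W τ A R θ : ℝ) (hA : 0 ≤ A) (hR : 0 ≤ R) (hθ : 0 ≤ θ) (hθ1 : θ ≤ 1)
    (hW : 0 ≤ W) (hτ : 0 ≤ τ) (h : θ * W ^ 2 ≤ R * A) :
    θ * (W + τ) ^ 2 ≤ (R + 1) * (A + τ ^ 2) := by
  have h1 : 2 * θ * W * τ ≤ R * τ ^ 2 + θ * A := by
    have h2 : (2 * θ * W * τ) ^ 2 ≤ (R * τ ^ 2 + θ * A) ^ 2 := by
      have h3 : 0 ≤ (R * τ ^ 2 - θ * A) ^ 2 := sq_nonneg _
      have h4 : 4 * θ * τ ^ 2 * (θ * W ^ 2) ≤ 4 * θ * τ ^ 2 * (R * A) :=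
        mul_le_mul_of_nonneg_left h (by positivity)
      nlinarith
    exact (pow_le_pow_iff_left₀ (by positivity) (by positivity) two_ne_zero).1 h2
  have h5 : θ * τ ^ 2 ≤ τ ^ 2 := by nlinarith [sq_nonneg τ]
  have h6 : θ * A ≤ A := by nlinarith
  nlinarith

theorem caseV (c : ℝ) (hc : c < Real.sqrt (8 / 3)) : ∃ N₀ : ℕ, ∀ N ≥ N₀, ∀ q a : ℕ, 0 < q → 0 < a →
    Nat.Coprime q a → (N : ℝ) ^ ((2 : ℝ) / 5) < Real.log q →
    Real.log q ^ 2 ≤ c * Real.sqrt N * sqs q →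
    ((sol N q a).card : ℝ) < Real.sqrt (8 * N / 3) - 3 := by
  set s : ℝ := Real.sqrt (8 / 3) with hs
  have hs0 : 0 < s := Real.sqrt_pos.2 (by norm_num)
  set c' : ℝ := max c 0 with hc'
  have hc'0 : 0 ≤ c' := le_max_right _ _
  have hc's : c' < s := max_lt hc hs0
  set η : ℝ := (s - c') / (4 * s) with hη
  have hη0 : 0 < η := div_pos (by linarith) (by linarith)
  have hη1 : s * (1 - η - η) = (s + c') / 2 := by
    rw [hη]
    field_simp
    ring
  have hη2 : η ≤ 1 / 4 := by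
    rw [hη, div_le_iff₀ (by linarith)]
    linarith
  have e5 : ∀ᶠ N : ℕ in Filter.atTop, 8 / (s - c') + 4 ≤ Real.sqrt N :=
    (Real.tendsto_sqrt_atTop.comp tendsto_natCast_atTop_atTop).eventually_ge_atTop _
  obtain ⟨N₀, hN₀⟩ := Filter.eventually_atTop.1
    (((CaseD_ev c' η hc'0 hη0).and e5).and (CaseE_ev c' η hη0))
  refine ⟨N₀, fun N hN q a hq0 ha hqa hq hω => ?_⟩
  obtain ⟨⟨⟨hN8, h1, h2⟩, h3⟩, h30⟩ := hN₀ N hN
  have hs' : Real.sqrt (8 * N / 3) = s * Real.sqrt N := by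
    rw [hs, ← Real.sqrt_mul (by norm_num)]
    congr 1
    ring
  rw [hs']
  have hsN : 0 ≤ Real.sqrt (N : ℝ) := Real.sqrt_nonneg _
  have hsc : 0 < s - c' := by linarith
  have h8 : c' * Real.sqrt N + 1 < (s * Real.sqrt N - 3) * (1 - η - η) := by
    have h9 : (s * Real.sqrt N - 3) * (1 - η - η) = (s + c') / 2 * Real.sqrt N - 3 * (1 - η - η) := by
      rw [sub_mul, mul_right_comm, hη1]
    rw [h9]
    have h10 : 8 ≤ (s - c') * (Real.sqrt N - 4) := by
      have h11 : 8 / (s - c') ≤ Real.sqrt N - 4 := by linarith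
      rw [div_le_iff₀ (by linarith)] at h11
      linarith
    nlinarith
  have h13 : 0 < 1 - η - η := by linarith
  set n : ℝ := ((sol N q a).card : ℝ) with hn
  have hn0 : 0 ≤ n := Nat.cast_nonneg _
  rcases Nat.eq_zero_or_pos (sol N q a).card with hz | hpos
  · rw [hn, hz, Nat.cast_zero]
    have h14 : 0 < (s * Real.sqrt N - 3) * (1 - η - η) := by
      have : 0 ≤ c' * Real.sqrt N := mul_nonneg hc'0 hsN
      linarith
    exact (pos_iff_pos_of_mul_pos h14).2 h13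
  have hcard := card_eff (N := N) hN8 hq0 ha hqa hpos
  set L : ℝ := Real.log q with hL
  set W : ℝ := ∑ p ∈ q.primeFactors, Real.log (pw q p) with hW
  set A : ℝ := ∑ p ∈ q.primeFactors, Real.log (pw q p) ^ 2 with hA
  set τ : ℝ := tau q a with hτ
  set b : ℝ := Real.log (2 * N ^ 2) with hb
  set R : ℝ := c' * Real.sqrt N with hR
  have hR0 : 0 ≤ R := mul_nonneg hc'0 hsN
  have hL0 : 0 < L := by linarith
  have hW0 : 0 ≤ W := Finset.sum_nonneg fun p hp => log_pw_nonneg hp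
  have hWL : W ≤ L := log_pw_le hq0
  have hτ0 : 0 ≤ τ := tau_nonneg q a
  have hA0 : 0 ≤ A := Finset.sum_nonneg fun p hp => sq_nonneg _
  have hsq := sqs_nonneg q
  have hω' : L ^ 2 ≤ R * sqs q := by
    refine hω.trans (mul_le_mul_of_nonneg_right ?_ hsq)
    exact mul_le_mul_of_nonneg_right (le_max_left _ _) hsN
  have hRpos : 0 < R := by
    rcases hR0.eq_or_lt with h | h
    · rw [← h, zero_mul] at hω'
      have : 0 < L ^ 2 := by positivity
      linarith
    · exact h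
  -- the sum of the squares is large
  have hbig : 4 ≤ η ^ 2 * sqs q := by
    have h20 : ((N : ℝ) ^ ((2 : ℝ) / 5)) ^ 2 ≤ L ^ 2 :=
      pow_le_pow_left₀ (by linarith) hq.le 2
    have h21 : 4 * R ≤ η ^ 2 * (R * sqs q) := by
      calc 4 * R = 4 * c' * Real.sqrt N := by rw [hR]; ring
        _ ≤ η ^ 2 * ((N : ℝ) ^ ((2 : ℝ) / 5)) ^ 2 := h30
        _ ≤ η ^ 2 * (R * sqs q) :=
            mul_le_mul_of_nonneg_left (h20.trans hω') (sq_nonneg _)
    have h22 : R * 4 ≤ R * (η ^ 2 * sqs q) := by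
      calc R * 4 = 4 * R := mul_comm _ _
        _ ≤ _ := h21
        _ = _ := by ring
    exact le_of_mul_le_mul_left h22 hRpos
  have hAq : (1 - η) * sqs q ≤ A := by
    have h23 := CaseE_A q
    have h24 : 2 ≤ η * Real.sqrt (sqs q) := by
      have h25 : Real.sqrt (η ^ 2 * sqs q) = η * Real.sqrt (sqs q) := by
        rw [Real.sqrt_mul (sq_nonneg _), Real.sqrt_sq hη0.le]
      rw [← h25]
      apply Real.le_sqrt_of_sq_le
      linarith
    have h26 : 2 * Real.sqrt (sqs q) ≤ η * sqs q := by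
      calc 2 * Real.sqrt (sqs q) ≤ (η * Real.sqrt (sqs q)) * Real.sqrt (sqs q) :=
            mul_le_mul_of_nonneg_right h24 (Real.sqrt_nonneg _)
        _ = η * sqs q := by rw [mul_assoc, Real.mul_self_sqrt hsq]
    linarith
  have hη3 : 0 ≤ 1 - η := by linarith
  -- comparison of W and A
  have hWA : (1 - η) * W ^ 2 ≤ R * A := by
    calc (1 - η) * W ^ 2 ≤ (1 - η) * L ^ 2 :=
          mul_le_mul_of_nonneg_left (pow_le_pow_left₀ hW0 hWL 2) hη3
      _ ≤ (1 - η) * (R * sqs q) := mul_le_mul_of_nonneg_left hω' hη3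
      _ = R * ((1 - η) * sqs q) := by ring
      _ ≤ R * A := mul_le_mul_of_nonneg_left hAq hR0
  have hbA : (1 - η) * b ^ 2 ≤ η * A := by
    have h5 := h2 L hq
    have hl2 : Real.log 2 < 1 := by
      have := Real.log_two_lt_d9
      linarith
    have hl20 : 0 ≤ Real.log 2 := Real.log_nonneg (by norm_num)
    have hLl : 0 < L - Real.log 2 := by linarith
    have h6 : (R + 1) * b ^ 2 ≤ η * (L - Real.log 2) ^ 2 := by
      rw [div_pow, mul_div_assoc', div_le_iff₀ (by positivity)] at h5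
      exact h5
    have h7 : (L - Real.log 2) ^ 2 ≤ L ^ 2 := pow_le_pow_left₀ hLl.le (by linarith) 2
    have h9 : R * b ^ 2 ≤ η * L ^ 2 := by
      calc R * b ^ 2 ≤ (R + 1) * b ^ 2 := by nlinarith [sq_nonneg b]
        _ ≤ η * (L - Real.log 2) ^ 2 := h6
        _ ≤ η * L ^ 2 := mul_le_mul_of_nonneg_left h7 hη0.le
    have h10 : R * ((1 - η) * b ^ 2) ≤ R * (η * A) := by
      calc R * ((1 - η) * b ^ 2) = (1 - η) * (R * b ^ 2) := by ring
        _ ≤ (1 - η) * (η * L ^ 2) := mul_le_mul_of_nonneg_left h9 hη3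
        _ = η * ((1 - η) * L ^ 2) := by ring
        _ ≤ η * ((1 - η) * (R * sqs q)) :=
            mul_le_mul_of_nonneg_left (mul_le_mul_of_nonneg_left hω' hη3) hη0.le
        _ = η * (R * ((1 - η) * sqs q)) := by ring
        _ ≤ η * (R * A) :=
            mul_le_mul_of_nonneg_left (mul_le_mul_of_nonneg_left hAq hR0) hη0.le
        _ = R * (η * A) := by ring
    exact le_of_mul_le_mul_left h10 hRpos
  have hcore := CaseE_alg W τ A R (1 - η) hA0 hR0 hη3 (by linarith) hW0 hτ0 hWA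
  have hAτ : 0 < A + τ ^ 2 := by
    have h31 : 0 < sqs q := by
      by_contra hcon
      push Not at hcon
      have : sqs q = 0 := le_antisymm hcon hsq
      rw [this] at hbig
      norm_num at hbig
    have h32 : 0 < (1 - η) * sqs q := mul_pos (by linarith) h31
    have := sq_nonneg τ
    linarith
  have hfin : n * (1 - η - η) * (A + τ ^ 2) ≤ (R + 1) * (A + τ ^ 2) := by
    have h40 : n * (A + τ ^ 2) ≤ (W + τ) ^ 2 + n * b ^ 2 := by
      have := sq_nonneg b
      nlinarith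
    have h41 := mul_le_mul_of_nonneg_left h40 hη3
    have h42 : n * ((1 - η) * b ^ 2) ≤ n * (η * A) := mul_le_mul_of_nonneg_left hbA hn0
    have h43 : 0 ≤ n * η * τ ^ 2 := by positivity
    nlinarith
  have h7 : n * (1 - η - η) ≤ R + 1 := le_of_mul_le_mul_right hfin hAτ
  exact lt_of_mul_lt_mul_right (lt_of_le_of_lt h7 h8) h13.le

end Pool.Agent.W8ef934h95
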