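import Mathlib
import Pool.Agent.W_8ef934_h95.Eff

/-!
MP_8ef934_nt: moduli with one large prime power (helper95).
-/

set_option autoImplicit false
open Necdea073

namespace Pool.Agent.W8ef934h95

/-- the choice of the parameter -/
theorem CaseF_kappa (c' s : ℝ) (h1 : 1 ≤ c') (h2 : c' < s) : ∃ κ : ℝ, 0 < κ ∧ κ ≤ 1 / 8 ∧
    c' * (1 + κ) ^ 2 ≤ (1 - κ) * ((c' + s) / 2) := by
  have hs : 0 < s := by linarith
  refine ⟨(s - c') / (8 * s), div_pos (by linarith) (by linarith), ?_, ?_⟩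
  · rw [div_le_iff₀ (by linarith)]
    linarith
  · set κ := (s - c') / (8 * s) with hκ
    have hκ0 : 0 < κ := div_pos (by linarith) (by linarith)
    have hκ1 : κ ≤ 1 / 8 := by
      rw [hκ, div_le_iff₀ (by linarith)]
      linarith
    have h3 : (1 + κ) ^ 2 ≤ (1 - κ) * (1 + 4 * κ) := by nlinarith
    have h4 : c' * (1 + 4 * κ) ≤ (c' + s) / 2 := by
      have h5 : κ * (8 * s) = s - c' := by
        rw [hκ]; field_simp
      have h6 : c' * κ ≤ s * κ := mul_le_mul_of_nonneg_right h2.le hκ0.le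
      nlinarith
    calc c' * (1 + κ) ^ 2 ≤ c' * ((1 - κ) * (1 + 4 * κ)) :=
          mul_le_mul_of_nonneg_left h3 (by linarith)
      _ = (1 - κ) * (c' * (1 + 4 * κ)) := by ring
      _ ≤ (1 - κ) * ((c' + s) / 2) := mul_le_mul_of_nonneg_left h4 (by linarith)

/-- the combination of the two bounds -/
theorem CaseF_comb {n w W τ b κ c' s r : ℝ} (hκ0 : 0 < κ) (hκ1 : κ ≤ 1 / 8) (hc' : 1 ≤ c')
    (hk : c' * (1 + κ) ^ 2 ≤ (1 - κ) * ((c' + s) / 2)) (hr : 0 ≤ r) (hw : 0 < w) (hW : 0 ≤ W)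
    (hb0 : 0 ≤ b) (hbw : b ≤ κ * w) (hWw : W ≤ c' * r * (1 + κ) * w) (hτ : 0 ≤ τ) (hn : 1 ≤ n)
    (h1 : n * w ≤ W + τ + (n - 1) * b) (h2 : (n - 1) * (τ - b) ≤ W)
    (hr1 : 6 ≤ (s - c') / 2 * r) (hr2 : 5 + 2 / κ ≤ s * r) : n < s * r - 3 := by
  have h3 : n * (1 - κ) * w ≤ W + τ := by
    have : (n - 1) * b ≤ n * (κ * w) := by
      calc (n - 1) * b ≤ n * b := by nlinarith
        _ ≤ n * (κ * w) := mul_le_mul_of_nonneg_left hbw (by linarith)
    nlinarith
  have hfin : n * (1 - κ) * w ≤ (c' * (1 + κ) ^ 2 * r + 1) * w → n < s * r - 3 := by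
    intro h
    have h4 : n * (1 - κ) ≤ c' * (1 + κ) ^ 2 * r + 1 := le_of_mul_le_mul_right h hw
    have h5 : c' * (1 + κ) ^ 2 * r ≤ (1 - κ) * ((c' + s) / 2) * r :=
      mul_le_mul_of_nonneg_right hk hr
    have h6 : (1 - κ) * n ≤ (1 - κ) * ((c' + s) / 2 * r + 2) := by nlinarith
    have h7 : n ≤ (c' + s) / 2 * r + 2 := le_of_mul_le_mul_left h6 (by linarith)
    nlinarith
  rcases le_or_gt τ (κ * W) with hA | hA
  · apply hfin
    have h4 : W + τ ≤ (1 + κ) * W := by linarith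
    have h5 : (1 + κ) * W ≤ (1 + κ) * (c' * r * (1 + κ) * w) :=
      mul_le_mul_of_nonneg_left hWw (by linarith)
    calc n * (1 - κ) * w ≤ (1 + κ) * (c' * r * (1 + κ) * w) := h3.trans (h4.trans h5)
      _ = c' * (1 + κ) ^ 2 * r * w := by ring
      _ ≤ (c' * (1 + κ) ^ 2 * r + 1) * w := by nlinarith
  · rcases le_or_gt τ (2 * b) with hB | hB
    · apply hfin
      have h4 : τ ≤ w := by nlinarith
      have h5 : W ≤ c' * (1 + κ) ^ 2 * r * w := by
        calc W ≤ c' * r * (1 + κ) * w := hWw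
          _ ≤ c' * r * (1 + κ) * w * (1 + κ) := by
              apply le_mul_of_one_le_right _ (by linarith)
              positivity
          _ = c' * (1 + κ) ^ 2 * r * w := by ring
      linarith
    · have hτ0 : 0 < τ := by nlinarith
      have h4 : (n - 1) * (τ / 2) ≤ W := by
        refine le_trans (mul_le_mul_of_nonneg_left ?_ (by linarith)) h2
        linarith
      have h5 : (n - 1) * (τ / 2) * κ ≤ τ := by
        have := mul_le_mul_of_nonneg_right h4 hκ0.le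
        nlinarith
      have h6 : (n - 1) * κ * τ ≤ 2 * τ := by nlinarith
      have h7 : (n - 1) * κ ≤ 2 := le_of_mul_le_mul_right h6 hτ0
      have h8 : n - 1 ≤ 2 / κ := by rw [le_div_iff₀ hκ0]; exact h7
      linarith

/-- Proof. Let `s = √(8/3)`, `c' = max c 1 < s`, and choose `κ ∈ (0, 1/4)` so small that
`c' (1 + κ)² / (1 - κ) < s`.  Let `n = card` (we may assume `n ≥ 1`, as the right hand side is positive for
large `N`), `W = ∑ log (pw q p) ≤ log q` (`log_pw_le`), `τ = tau q a ≥ 0`, `b = log (2 N²) ≤ 3 log N`,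
`w = log (pw q p)` for the given prime `p`; `w ≥ log (p ^ v) - log 2 ≥ K log N - 1`, so with `K = 6 / κ + 1` (say) and large
`N` we have `b ≤ κ w` and `log (p ^ v) ≤ (1 + κ) w`, hence `W ≤ c' √N (1 + κ) w`.
`card_single`: `n w ≤ W + τ + n b`, so `n (1 - κ) w ≤ W + τ`.
If `τ ≤ κ W` then `n (1 - κ) ≤ (1 + κ) W / w ≤ c' (1 + κ)² √N`, so `n < s √N - 3` for large `N`.
If `τ > κ W` and `τ ≤ 2 b` then `τ ≤ 2 κ w` and `n (1 - κ) ≤ W / w + 2 κ ≤ c' (1 + κ) √N + 1`, fine as well.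
If `τ > κ W` and `τ > 2 b` then `card_simplex` gives `(n - 1) τ / 2 ≤ W < τ / κ`, so `n ≤ 1 + 2 / κ`. -/
theorem caseVI (c : ℝ) (hc : c < Real.sqrt (8 / 3)) : ∃ K : ℝ, ∃ N₀ : ℕ, ∀ N ≥ N₀, ∀ q a : ℕ,
    0 < q → 0 < a → Nat.Coprime q a → ∀ p ∈ q.primeFactors,
    K * Real.log N ≤ Real.log ((p : ℝ) ^ (q.factorization p)) →
    Real.log q ≤ c * Real.sqrt N * Real.log ((p : ℝ) ^ (q.factorization p)) →
    ((sol N q a).card : ℝ) < Real.sqrt (8 * N / 3) - 3 := by
  set s : ℝ := Real.sqrt (8 / 3) with hs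
  have hs1 : 1 < s := by
    rw [hs]
    exact Real.lt_sqrt_of_sq_lt (by norm_num)
  set c' : ℝ := max c 1 with hc'
  have hc'1 : 1 ≤ c' := le_max_right _ _
  have hc's : c' < s := max_lt hc hs1
  obtain ⟨κ, hκ0, hκ1, hκ⟩ := CaseF_kappa c' s hc'1 hc's
  have e5 : ∀ᶠ N : ℕ in Filter.atTop, max (12 / (s - c')) ((5 + 2 / κ) / s) ≤ Real.sqrt N :=
    (Real.tendsto_sqrt_atTop.comp tendsto_natCast_atTop_atTop).eventually_ge_atTop _
  obtain ⟨N₀, hN₀⟩ := Filter.eventually_atTop.1 ((Filter.eventually_ge_atTop 8).and e5)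
  refine ⟨6 / κ + 1, N₀, fun N hN q a hq ha hqa p hp hK hlq => ?_⟩
  obtain ⟨hN8, h3⟩ := hN₀ N hN
  have hr1 : 6 ≤ (s - c') / 2 * Real.sqrt N := by
    have := (le_max_left _ _).trans h3
    rw [div_le_iff₀ (by linarith)] at this
    linarith
  have hr2 : 5 + 2 / κ ≤ s * Real.sqrt N := by
    have := (le_max_right _ _).trans h3
    rw [div_le_iff₀ (by linarith)] at this
    linarith
  have hs' : Real.sqrt (8 * N / 3) = s * Real.sqrt N := by
    rw [hs, ← Real.sqrt_mul (by norm_num)]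
    congr 1
    ring
  rw [hs']
  rcases Nat.eq_zero_or_pos (sol N q a).card with h0 | h0
  · rw [h0, Nat.cast_zero]
    have : 0 < 2 / κ := by positivity
    linarith
  set ℓ : ℝ := Real.log ((p : ℝ) ^ (q.factorization p)) with hℓ
  have hN8' : (8 : ℝ) ≤ N := by exact_mod_cast hN8
  have hlogN : 1 ≤ Real.log N := by
    rw [Real.le_log_iff_exp_le (by linarith)]
    have := Real.exp_one_lt_d9
    linarith
  have hl2 : Real.log 2 < 1 := by
    have := Real.log_two_lt_d9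
    linarith
  have hl20 : 0 ≤ Real.log 2 := Real.log_nonneg (by norm_num)
  have hb : Real.log (2 * (N : ℝ) ^ 2) ≤ 3 * Real.log N := by
    rw [Real.log_mul (by norm_num) (by positivity), Real.log_pow]
    push_cast
    linarith
  have hw : ℓ - 1 ≤ Real.log (pw q p) := by
    rw [Sign_log_pw_eq hp, hℓ, Real.log_pow]
    split_ifs <;> linarith
  have hKℓ : 6 * Real.log N + κ * Real.log N ≤ κ * ℓ := by
    have h4 := mul_le_mul_of_nonneg_left hK hκ0.le
    have h5 : κ * ((6 / κ + 1) * Real.log N) = 6 * Real.log N + κ * Real.log N := by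
      field_simp
    linarith
  have hbw : Real.log (2 * (N : ℝ) ^ 2) ≤ κ * Real.log (pw q p) := by
    have h4 := mul_le_mul_of_nonneg_left hw hκ0.le
    nlinarith
  have hℓw : ℓ ≤ (1 + κ) * Real.log (pw q p) := by
    have h4 := mul_le_mul_of_nonneg_left hw (by linarith : 0 ≤ 1 + κ)
    nlinarith
  have hℓ0 : 0 ≤ ℓ := by
    have h4 : 0 ≤ κ * ℓ := by nlinarith
    exact nonneg_of_mul_nonneg_right h4 hκ0
  have hw0 : 0 < Real.log (pw q p) := by
    have h4 : 0 < κ * Real.log (pw q p) := by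
      have h5 : 0 < Real.log (2 * (N : ℝ) ^ 2) := Real.log_pos (by nlinarith)
      linarith
    exact pos_of_mul_pos_right h4 hκ0.le
  have hsN : 0 ≤ Real.sqrt (N : ℝ) := Real.sqrt_nonneg _
  have hW : ∑ p ∈ q.primeFactors, Real.log (pw q p) ≤
      c' * Real.sqrt N * (1 + κ) * Real.log (pw q p) := by
    calc ∑ p ∈ q.primeFactors, Real.log (pw q p) ≤ Real.log q := log_pw_le hq
      _ ≤ c * Real.sqrt N * ℓ := hlq
      _ ≤ c' * Real.sqrt N * ℓ := by
          apply mul_le_mul_of_nonneg_right _ hℓ0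
          exact mul_le_mul_of_nonneg_right (le_max_left _ _) hsN
      _ ≤ c' * Real.sqrt N * ((1 + κ) * Real.log (pw q p)) :=
          mul_le_mul_of_nonneg_left hℓw (by positivity)
      _ = c' * Real.sqrt N * (1 + κ) * Real.log (pw q p) := by ring
  exact CaseF_comb hκ0 hκ1 hc'1 hκ hsN hw0
    (Finset.sum_nonneg fun p hp => log_pw_nonneg hp) (log_pos_aux hN8) hbw hW (tau_nonneg q a)
    (by exact_mod_cast h0) (card_single hN8 hq ha hqa h0 hp) (card_simplex hN8 hq ha hqa h0)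
    hr1 hr2

end Pool.Agent.W8ef934h95
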