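import Mathlib

/-!
MP_8ef934_nt: a number with many prime factors is large (helper95).
-/

set_option autoImplicit false

namespace Pool.Agent.W8ef934h95

theorem FactLog_prod (s : Finset ℕ) (hs : ∀ x ∈ s, 1 ≤ x) : s.card.factorial ≤ ∏ x ∈ s, x := by
  induction s using Finset.induction_on_max with
  | empty => simp
  | insert a s ha ih =>
    have hna : a ∉ s := fun h => lt_irrefl _ (ha a h)
    rw [Finset.card_insert_of_notMem hna, Finset.prod_insert hna, Nat.factorial_succ]
    have h1 := ih fun x hx => hs x (Finset.mem_insert_of_mem hx)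
    have h2 : s.card + 1 ≤ a := by
      have h3 : s ⊆ Finset.Icc 1 (a - 1) := by
        intro x hx
        have h4 := hs x (Finset.mem_insert_of_mem hx)
        have h5 := ha x hx
        rw [Finset.mem_Icc]
        omega
      have h4 := Finset.card_le_card h3
      rw [Nat.card_Icc] at h4
      have h5 := hs a (Finset.mem_insert_self _ _)
      omega
    exact Nat.mul_le_mul h2 h1

/-- Proof. `q` is at least the product of its prime factors (`Nat.prod_primeFactors_dvd`), which are
`d` different numbers `≥ 2`, and the product of `d` different positive numbers is at least `d!`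
(`Finset.prod_range_id_le_prod` or induction: the largest element of a finset of `d` different positive numbers is
at least `d`). -/
theorem factorial_le {q : ℕ} (hq : 0 < q) : q.primeFactors.card.factorial ≤ q := by
  refine (FactLog_prod q.primeFactors fun x hx => ?_).trans
    (Nat.le_of_dvd hq (Nat.prod_primeFactors_dvd q))
  exact (Nat.prime_of_mem_primeFactors hx).one_lt.le

/-- Proof. Let `d` be the number of prime factors of `q`, so `d > c₁ √N` and `q ≥ d!` (`factorial_le`).
`d! ≥ (d / e)^d`, that is `log d! ≥ d log d - d` (for example from `Real.exp` series: `d^d / d! ≤ e^d`,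
`Real.pow_div_factorial_le_exp`).  As `t log t - t` is increasing for `t ≥ 1`,
`log q ≥ c₁ √N (log (c₁ √N) - 1) = (c₁ / 2) √N log N + c₁ √N (log c₁ - 1)`, which is bigger than
`c √N log N` as soon as `(c₁ / 2 - c) log N > c₁ (1 - log c₁)` and `c₁ √N ≥ 3` (simpler: use
`log d! ≥ d (log d - 1) ≥ c₁ √N (log (c₁ √N) - 1)` for `log (c₁ √N) ≥ 1`). -/
theorem log_large (c c₁ : ℝ) (hc : 0 < c₁) (hcc : c < c₁ / 2) :
    ∃ N₀ : ℕ, ∀ N ≥ N₀, ∀ q : ℕ, 0 < q → c₁ * Real.sqrt N < (q.primeFactors.card : ℝ) →
      c * Real.sqrt N * Real.log N < Real.log q := by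
  have t1 : Filter.Tendsto (fun N : ℕ => Real.log (N : ℝ)) Filter.atTop Filter.atTop :=
    Real.tendsto_log_atTop.comp tendsto_natCast_atTop_atTop
  have t2 : Filter.Tendsto (fun N : ℕ => c₁ * Real.sqrt (N : ℝ)) Filter.atTop Filter.atTop :=
    (Real.tendsto_sqrt_atTop.comp tendsto_natCast_atTop_atTop).const_mul_atTop hc
  have e1 := t1.eventually_gt_atTop (c₁ * (1 - Real.log c₁) / (c₁ / 2 - c))
  have e2 := t2.eventually_ge_atTop (Real.exp 1)
  obtain ⟨N₀, hN₀⟩ := Filter.eventually_atTop.1 ((e1.and e2).and (Filter.eventually_ge_atTop 1))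
  refine ⟨N₀, fun N hN q hq hd => ?_⟩
  obtain ⟨⟨h1, h2⟩, h3⟩ := hN₀ N hN
  have hNpos : (0 : ℝ) < N := by exact_mod_cast h3
  have hsq : 0 < Real.sqrt N := Real.sqrt_pos.2 hNpos
  have hD : 0 < c₁ * Real.sqrt N := mul_pos hc hsq
  set d := q.primeFactors.card with hdd
  have hd0 : (0 : ℝ) < d := hD.trans hd
  have hlogD : 1 ≤ Real.log (c₁ * Real.sqrt N) := by
    rw [← Real.log_exp 1]
    exact Real.log_le_log (Real.exp_pos 1) h2
  have hf0 : (0 : ℝ) < (d.factorial : ℝ) := by exact_mod_cast Nat.factorial_pos d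
  have hq0 : (0 : ℝ) < q := by exact_mod_cast hq
  -- the lower bound for the factorial
  have h4 : (d : ℝ) * Real.log d - Real.log (d.factorial : ℝ) ≤ d := by
    have h5 := Real.pow_div_factorial_le_exp (d : ℝ) hd0.le d
    have h6 := Real.log_le_log (div_pos (pow_pos hd0 d) hf0) h5
    rw [Real.log_exp, Real.log_div (pow_pos hd0 d).ne' hf0.ne', Real.log_pow] at h6
    exact h6
  have h5 : Real.log (d.factorial : ℝ) ≤ Real.log q :=
    Real.log_le_log hf0 (by exact_mod_cast factorial_le hq)
  have h6 : c₁ * Real.sqrt N * (Real.log (c₁ * Real.sqrt N) - 1) ≤ d * (Real.log d - 1) :=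
    mul_le_mul hd.le (sub_le_sub_right (Real.log_le_log hD hd.le) 1) (by linarith) hd0.le
  have h7 : Real.log (c₁ * Real.sqrt N) = Real.log c₁ + Real.log N / 2 := by
    rw [Real.log_mul hc.ne' hsq.ne', Real.log_sqrt hNpos.le]
  have hcc' : 0 < c₁ / 2 - c := by linarith
  have h8 : c₁ * (1 - Real.log c₁) < Real.log N * (c₁ / 2 - c) := (div_lt_iff₀ hcc').1 h1
  have h9 : c * Real.sqrt N * Real.log N <
      c₁ * Real.sqrt N * (Real.log (c₁ * Real.sqrt N) - 1) := by
    rw [h7]
    have h10 : Real.sqrt N * (c₁ * (1 - Real.log c₁)) < Real.sqrt N * (Real.log N * (c₁ / 2 - c)) :=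
      mul_lt_mul_of_pos_left h8 hsq
    nlinarith [h10]
  linarith

end Pool.Agent.W8ef934h95
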