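import Mathlib
import Pool.Prelude.Def_F_e853f830

/-!
MP_8ef934_nt: lower bound for the number of squares in `24 n + 1` (helper95).
-/

set_option autoImplicit false
open Necdea073

namespace Pool.Agent.W8ef934h95

theorem Low_finite (N q a : ℕ) : {n : ℕ | n < N ∧ IsSquare (q * n + a)}.Finite :=
  (Set.finite_Iio N).subset fun _ hn => hn.1

theorem Low_even (j : ℤ) : 2 * (j * (3 * j + 1) / 2) = j * (3 * j + 1) := by
  have h : (2 : ℤ) ∣ j * (3 * j + 1) := by
    rcases Int.even_or_odd j with h | h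
    · exact (even_iff_two_dvd.1 h).mul_right _
    · have : Even (3 * j + 1) := by
        obtain ⟨k, rfl⟩ := h
        exact ⟨3 * k + 2, by ring⟩
      exact (even_iff_two_dvd.1 this).mul_left _
  exact Int.mul_ediv_cancel' h

theorem Low_nonneg (j : ℤ) : 0 ≤ j * (3 * j + 1) := by
  rcases le_or_gt 0 j with h | h
  · positivity
  · nlinarith

/-- The values `j (3 j + 1) / 2`, `|j| ≤ I`. -/
theorem Low_count (N I : ℕ) (hI : 3 * I ^ 2 + I < 2 * N) : 2 * I + 1 ≤ Q N 24 1 := by
  classical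
  let g : ℤ → ℕ := fun j => (j * (3 * j + 1) / 2).toNat
  have hg : ∀ j : ℤ, 2 * (g j : ℤ) = j * (3 * j + 1) := by
    intro j
    have h1 := Low_even j
    have h2 := Low_nonneg j
    have h3 : 0 ≤ j * (3 * j + 1) / 2 := by omega
    have h4 : ((g j : ℕ) : ℤ) = j * (3 * j + 1) / 2 := Int.toNat_of_nonneg h3
    rw [h4, h1]
  have hinj : Function.Injective g := by
    intro j j' h
    have h1 := hg j
    have h2 := hg j'
    rw [h, h2] at h1
    have h3 : (j' - j) * (3 * (j' + j) + 1) = 0 := by linear_combination h1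
    rcases mul_eq_zero.1 h3 with h4 | h4
    · omega
    · omega
  have hcard : ((Finset.Icc (-(I : ℤ)) I).image g).card = 2 * I + 1 := by
    rw [Finset.card_image_of_injective _ hinj, Int.card_Icc]
    omega
  rw [← hcard, ← Set.ncard_coe_finset]
  apply Set.ncard_le_ncard _ (Low_finite N 24 1)
  intro n hn
  rw [Finset.mem_coe, Finset.mem_image] at hn
  obtain ⟨j, hj, rfl⟩ := hn
  rw [Finset.mem_Icc] at hj
  have h1 := hg j
  constructor
  · have h2 : j * (3 * j + 1) ≤ 3 * (I : ℤ) ^ 2 + I := by nlinarith [hj.1, hj.2]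
    have h3 : 3 * (I : ℤ) ^ 2 + I < 2 * N := by exact_mod_cast hI
    have h4 : (g j : ℤ) < N := by linarith
    exact_mod_cast h4
  · refine ⟨(6 * j + 1).natAbs, ?_⟩
    zify
    rw [← sq, sq_abs]
    linear_combination 12 * h1

/-- Proof. For `i : ℕ` with `3 i² + i < 2 N` the number `n = i (3 i + 1) / 2` is less than `N` and
`24 n + 1 = (6 i + 1)²`; for `i ≥ 1` also `n = i (3 i - 1) / 2` is less than `N` and `24 n + 1 = (6 i - 1)²`.
These numbers are all different (`24 n + 1` are squares of different numbers).  So if `3 I² + I < 2 N` then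
`Q N 24 1 ≥ 2 I + 1`.  Take the largest such `I`: then `2 N ≤ 3 (I+1)² + (I+1) ≤ 3 (I+2)²`, so
`√(8 N / 3) ≤ 2 (I + 2) = (2 I + 1) + 3`. -/
theorem low (N : ℕ) (hN : 1 ≤ N) : Real.sqrt (8 * N / 3) - 3 ≤ (Q N 24 1 : ℝ) := by
  have hex : ∃ I : ℕ, 2 * N ≤ 3 * (I + 1) ^ 2 + (I + 1) := ⟨N, by nlinarith⟩
  classical
  have h1 := Nat.find_spec hex
  have h2 : 3 * (Nat.find hex) ^ 2 + Nat.find hex < 2 * N := by
    rcases Nat.eq_zero_or_pos (Nat.find hex) with h | h
    · rw [h]; omega
    · have h3 := Nat.find_min hex (m := Nat.find hex - 1) (by omega)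
      have h4 : Nat.find hex - 1 + 1 = Nat.find hex := by omega
      rw [h4] at h3
      omega
  generalize Nat.find hex = I at h1 h2
  have h3 := Low_count N I h2
  have h4 : ((2 * I + 1 : ℕ) : ℝ) ≤ (Q N 24 1 : ℝ) := by exact_mod_cast h3
  have h5 : (2 : ℝ) * N ≤ 3 * (I + 1) ^ 2 + (I + 1) := by exact_mod_cast h1
  have hI : (0 : ℝ) ≤ I := Nat.cast_nonneg I
  have h6 : Real.sqrt (8 * N / 3) ≤ 2 * (I + 2) := by
    apply Real.sqrt_le_iff.2
    constructor
    · positivity
    · nlinarith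
  push_cast at h4
  linarith

/-- Proof. `Q N q a ≤ N` (the set is contained in `{n | n < N}`), so the set in the definition of `Qmax`
is bounded above and `le_csSup` applies. -/
theorem le_Qmax {N q a : ℕ} (h : IsNontrivial q a) : Q N q a ≤ Qmax N := by
  apply le_csSup
  · refine ⟨N, ?_⟩
    rintro m ⟨q', a', _, rfl⟩
    have h1 : Q N q' a' ≤ (↑(Finset.range N) : Set ℕ).ncard := by
      apply Set.ncard_le_ncard _ (Finset.finite_toSet _)
      intro n hn
      rw [Finset.mem_coe, Finset.mem_range]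
      exact hn.1
    rwa [Set.ncard_coe_finset, Finset.card_range] at h1
  · exact ⟨q, a, h, rfl⟩

end Pool.Agent.W8ef934h95
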