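import Mathlib
import Pool.Agent.W_8ef934_h95.CaseA
import Pool.Agent.W_8ef934_h95.CaseC
import Pool.Agent.W_8ef934_h95.CaseE
import Pool.Agent.W_8ef934_h95.CaseF
import Pool.Agent.W_8ef934_h95.Low
import Pool.Agent.W_8ef934_h95.FactLog

/-!
MP_8ef934_nt: the main theorems (helper95).
-/

set_option autoImplicit false
open Necdea073

namespace Pool.Agent.W8ef934h95

theorem nontriv_24 : IsNontrivial 24 1 := ⟨by norm_num, le_rfl, by norm_num, by decide⟩

theorem conclude {N q a : ℕ} (h : Q N q a < Q N 24 1) : Q N q a < Q N 24 1 ∧ Q N q a < Qmax N :=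
  ⟨h, lt_of_lt_of_le h (le_Qmax nontriv_24)⟩

theorem main_eff (c : ℝ) (hc : c < Real.sqrt (8 / 3)) : ∃ N₀ : ℕ, ∀ N ≥ N₀, ∀ q a : ℕ,
    IsNontrivial q a → q ≠ 24 → Real.log q ^ 2 ≤ c * Real.sqrt N * sqs q →
    Q N q a < Q N 24 1 := by
  obtain ⟨N₁, h1⟩ := caseIII
  obtain ⟨N₂, h2⟩ := caseV c hc
  refine ⟨max (max N₁ N₂) 20000, fun N hN q a hn h24 hω => ?_⟩
  have hN1 : N₁ ≤ N := le_trans (le_trans (le_max_left _ _) (le_max_left _ _)) hN
  have hN2 : N₂ ≤ N := le_trans (le_trans (le_max_right _ _) (le_max_left _ _)) hN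
  have hN3 : 20000 ≤ N := le_trans (le_max_right _ _) hN
  obtain ⟨hq, ha, hqa, hne⟩ := hn
  have hlow := low N (by omega)
  have hs : Real.sqrt (8 * N / 3) = Real.sqrt (8 / 3) * Real.sqrt N := by
    rw [← Real.sqrt_mul (by norm_num)]
    congr 1
    ring
  have hr : (1.632 : ℝ) ≤ Real.sqrt (8 / 3) := by
    apply Real.le_sqrt_of_sq_le
    norm_num
  have hN4 : (141 : ℝ) ≤ Real.sqrt N := by
    apply Real.le_sqrt_of_sq_le
    have : ((20000 : ℕ) : ℝ) ≤ N := by exact_mod_cast hN3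
    norm_num at this ⊢
    linarith
  have hs2 : (1.61 : ℝ) * Real.sqrt N < Real.sqrt (8 * N / 3) - 3 := by
    rw [hs]
    nlinarith
  have key : ((sol N q a).card : ℝ) < Real.sqrt (8 * N / 3) - 3 := by
    rcases Nat.lt_or_ge N (100 * q) with h | h
    · by_cases h3 : (22 : ℝ) * 2 ^ q.primeFactors.card ≤ 1.61 * Real.sqrt N
      · exact lt_of_le_of_lt ((caseII hq hqa h.le).trans h3) hs2
      · push Not at h3
        by_cases h4 : Real.log q ≤ (N : ℝ) ^ ((2 : ℝ) / 5)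
        · refine lt_of_le_of_lt (h1 N hN1 q a hq hqa ?_ h4) ?_
          · have : (0 : ℝ) < 2 ^ q.primeFactors.card := by positivity
            nlinarith
          · nlinarith [Real.sqrt_nonneg (N : ℝ)]
        · push Not at h4
          exact h2 N hN2 q a hq ha hqa h4 hω
    · exact lt_of_le_of_lt (caseI hq hqa h24 h) hs2
  have h5 : (Q N q a : ℝ) < Q N 24 1 := by
    rw [← card_sol (N := N) (a := a) hq]
    exact lt_of_lt_of_le key hlow
  exact_mod_cast h5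

theorem log_sq_le {q : ℕ} (hq : 0 < q) :
    Real.log q ^ 2 ≤ (q.primeFactors.card : ℝ) * sqs q := by
  have h1 : Real.log q = ∑ p ∈ q.primeFactors, Real.log ((p : ℝ) ^ (q.factorization p)) := by
    have h2 : (q : ℝ) = ∏ p ∈ q.primeFactors, (p : ℝ) ^ (q.factorization p) := by
      have h3 := Nat.factorization_prod_pow_eq_self (n := q) (by omega)
      conv_lhs => rw [← h3]
      rw [Finsupp.prod, Nat.support_factorization]
      push_cast
      rfl
    conv_lhs => rw [h2]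
    rw [Real.log_prod]
    intro p hp
    have := (Nat.prime_of_mem_primeFactors hp).pos
    positivity
  rw [h1]
  exact sq_sum_le_card_mul_sum_sq

theorem main_card (c : ℝ) (hc : c < Real.sqrt (8 / 3)) : ∃ N₀ : ℕ, ∀ N ≥ N₀, ∀ q a : ℕ,
    IsNontrivial q a → q ≠ 24 → (q.primeFactors.card : ℝ) ≤ c * Real.sqrt N →
    Q N q a < Q N 24 1 := by
  obtain ⟨N₁, h1⟩ := main_eff c hc
  refine ⟨N₁, fun N hN q a hn h24 hω => h1 N hN q a hn h24 ?_⟩
  exact (log_sq_le hn.1).trans (mul_le_mul_of_nonneg_right hω (sqs_nonneg q))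

theorem main_size (c : ℝ) (hc : c < Real.sqrt (2 / 3)) : ∃ N₀ : ℕ, ∀ N ≥ N₀, ∀ q a : ℕ,
    IsNontrivial q a → q ≠ 24 → Real.log q ≤ c * Real.sqrt N * Real.log N →
    Q N q a < Q N 24 1 := by
  obtain ⟨c₁, h1, h2⟩ : ∃ c₁ : ℝ, max c 0 < c₁ / 2 ∧ c₁ < Real.sqrt (8 / 3) := by
    have h3 : Real.sqrt (8 / 3) = 2 * Real.sqrt (2 / 3) := by
      rw [show (8 / 3 : ℝ) = 2 ^ 2 * (2 / 3) by norm_num, Real.sqrt_mul (by norm_num),
        Real.sqrt_sq (by norm_num)]
    have h4 : max c 0 < Real.sqrt (2 / 3) := max_lt hc (Real.sqrt_pos.2 (by norm_num))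
    obtain ⟨d, h5, h6⟩ := exists_between h4
    exact ⟨2 * d, by linarith, by rw [h3]; linarith⟩
  have hc1 : 0 < c₁ := by
    have := le_max_right c 0
    linarith
  obtain ⟨N₁, hN1⟩ := main_card c₁ h2
  obtain ⟨N₂, hN2⟩ := log_large c c₁ hc1 (lt_of_le_of_lt (le_max_left c 0) h1)
  refine ⟨max N₁ N₂, fun N hN q a hn h24 hl => ?_⟩
  by_cases h : (q.primeFactors.card : ℝ) ≤ c₁ * Real.sqrt N
  · exact hN1 N (le_trans (le_max_left _ _) hN) q a hn h24 h
  · push Not at h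
    exact absurd hl (not_le.2 (hN2 N (le_trans (le_max_right _ _) hN) q hn.1 h))

theorem main_pp (c : ℝ) (hc : c < Real.sqrt (8 / 3)) : ∃ (K : ℝ) (N₀ : ℕ), ∀ N ≥ N₀, ∀ q a : ℕ,
    IsNontrivial q a → (∃ p ∈ q.primeFactors,
      K * Real.log N ≤ Real.log ((p : ℝ) ^ (q.factorization p)) ∧
      Real.log q ≤ c * Real.sqrt N * Real.log ((p : ℝ) ^ (q.factorization p))) →
    Q N q a < Q N 24 1 := by
  obtain ⟨K, N₁, h1⟩ := caseVI c hc
  refine ⟨K, max N₁ 1, fun N hN q a hn hp => ?_⟩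
  obtain ⟨hq, ha, hqa, hne⟩ := hn
  obtain ⟨p, hp, h2, h3⟩ := hp
  have key := h1 N (le_trans (le_max_left _ _) hN) q a hq ha hqa p hp h2 h3
  have hlow := low N (le_trans (le_max_right _ _) hN)
  have h5 : (Q N q a : ℝ) < Q N 24 1 := by
    rw [← card_sol (N := N) (a := a) hq]
    exact lt_of_lt_of_le key hlow
  exact_mod_cast h5

end Pool.Agent.W8ef934h95
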