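import Mathlib
import Pool.Agent.W_8ef934_h95.Main2
import Pool.Agent.W_8ef934_h95.WelchCase

/-!
MP_8ef934_nt: a uniform bound by the number of prime factors (helper95).
-/

set_option autoImplicit false
open Necdea073

namespace Pool.Agent.W8ef934h95

theorem Unif_ev (η : ℝ) (hη : 0 < η) : ∀ᶠ d : ℕ in Filter.atTop, 3 ≤ d ∧ ∀ L b : ℝ,
    Real.log (d.factorial : ℝ) ≤ L → 0 ≤ b → b ≤ Real.log (2 * (d : ℝ) ^ 4) →
    ((d : ℝ) + 1) * (b / (L - Real.log 2)) ^ 2 ≤ η := by
  have e1 : ∀ᶠ x : ℝ in Filter.atTop, ‖Real.log x‖ ≤ 1 / 10 * ‖x ^ ((1 : ℝ) / 4)‖ :=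
    (isLittleO_log_rpow_atTop (by norm_num : (0 : ℝ) < 1 / 4)).bound (by norm_num)
  have e2 : ∀ᶠ x : ℝ in Filter.atTop, max 1 (1 / (2 * η)) ≤ x ^ ((1 : ℝ) / 4) :=
    (tendsto_rpow_atTop (by norm_num : (0 : ℝ) < 1 / 4)).eventually_ge_atTop _
  have e3 : ∀ᶠ x : ℝ in Filter.atTop, (3 : ℝ) ≤ Real.log x :=
    Real.tendsto_log_atTop.eventually_ge_atTop _
  have e3' : ∀ᶠ x : ℝ in Filter.atTop, (3 : ℝ) ≤ x := Filter.eventually_ge_atTop _
  have e4 := tendsto_natCast_atTop_atTop.eventually (e1.and (e2.and (e3.and e3')))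
  filter_upwards [e4] with d hd
  obtain ⟨h1, h2, h3, h3'⟩ := hd
  refine ⟨by exact_mod_cast h3', fun L b hL hb0 hb => ?_⟩
  set x : ℝ := (d : ℝ) with hx
  set z : ℝ := x ^ ((1 : ℝ) / 4) with hz
  have hx0 : 0 < x := by linarith
  have hz1 : 1 ≤ z := le_trans (le_max_left _ _) h2
  have hz3 : 1 / (2 * η) ≤ z := le_trans (le_max_right _ _) h2
  have hz0 : 0 < z := by linarith
  have hzx : z ^ 4 = x := by
    rw [hz, ← Real.rpow_natCast, ← Real.rpow_mul hx0.le]
    norm_num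
  have hlx : 0 ≤ Real.log x := by linarith
  rw [Real.norm_of_nonneg hlx, Real.norm_of_nonneg hz0.le] at h1
  have hl2 : Real.log 2 < 1 := by
    have := Real.log_two_lt_d9
    linarith
  have hbz : b ≤ z / 2 := by
    rw [Real.log_mul (by norm_num) (by positivity), Real.log_pow] at hb
    push_cast at hb
    linarith
  have hf0 : (0 : ℝ) < (d.factorial : ℝ) := by exact_mod_cast Nat.factorial_pos d
  have h4 : x * Real.log x - Real.log (d.factorial : ℝ) ≤ x := by
    have h5 := Real.pow_div_factorial_le_exp x hx0.le d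
    have h6 := Real.log_le_log (div_pos (pow_pos hx0 d) hf0) h5
    rw [Real.log_exp, Real.log_div (pow_pos hx0 d).ne' hf0.ne', Real.log_pow] at h6
    exact h6
  have hLx : x ≤ L - Real.log 2 := by nlinarith
  have hq : b / (L - Real.log 2) ≤ 1 / (2 * z ^ 3) := by
    calc b / (L - Real.log 2) ≤ (z / 2) / x := div_le_div₀ (by positivity) hbz hx0 hLx
      _ = 1 / (2 * z ^ 3) := by
          rw [← hzx]
          field_simp
  have hq0 : 0 ≤ b / (L - Real.log 2) := div_nonneg hb0 (by linarith)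
  calc (x + 1) * (b / (L - Real.log 2)) ^ 2 ≤ (2 * z ^ 4) * (1 / (2 * z ^ 3)) ^ 2 := by
        apply mul_le_mul
        · rw [hzx]; linarith
        · exact pow_le_pow_left₀ hq0 hq 2
        · positivity
        · positivity
    _ = 1 / (2 * z ^ 2) := by field_simp
    _ ≤ η := by
        rw [div_le_iff₀ (by positivity)] at hz3 ⊢
        nlinarith

theorem main_unif (η : ℝ) (hη : 0 < η) : ∃ N₀ : ℕ, ∀ N ≥ N₀, ∀ q a : ℕ,
    IsNontrivial q a → q ≠ 24 →
    Q N q a < Q N 24 1 ∨ (Q N q a : ℝ) ≤ (1 + η) * (q.primeFactors.card : ℝ) := by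
  have hc : (1 : ℝ) < Real.sqrt (8 / 3) := by
    apply Real.lt_sqrt_of_sq_lt
    norm_num
  obtain ⟨N₁, h1⟩ := main_card 1 hc
  set η' : ℝ := η / (2 * (1 + η)) with hη'
  have hη'0 : 0 < η' := by positivity
  have hη'1 : (1 + η) * (1 - η') = 1 + η / 2 := by
    rw [hη']
    field_simp
    ring
  have hη'2 : η' < 1 := by
    rw [hη', div_lt_one (by positivity)]
    linarith
  have e1 : ∀ᶠ d : ℕ in Filter.atTop, 2 / η ≤ (d : ℝ) :=
    tendsto_natCast_atTop_atTop.eventually_ge_atTop _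
  obtain ⟨d₀, hd₀⟩ := Filter.eventually_atTop.1 ((Unif_ev η' hη'0).and e1)
  refine ⟨max (max N₁ 8) (d₀ ^ 2), fun N hN q a hn h24 => ?_⟩
  have hN1 : N₁ ≤ N := le_trans (le_trans (le_max_left _ _) (le_max_left _ _)) hN
  have hN8 : 8 ≤ N := le_trans (le_trans (le_max_right _ _) (le_max_left _ _)) hN
  have hN3 : d₀ ^ 2 ≤ N := le_trans (le_max_right _ _) hN
  by_cases hω : (q.primeFactors.card : ℝ) ≤ 1 * Real.sqrt N
  · exact Or.inl (h1 N hN1 q a hn h24 hω)
  · right
    obtain ⟨hq, ha, hqa, hne⟩ := hn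
    push Not at hω
    rw [one_mul] at hω
    set d := q.primeFactors.card with hd
    have hsN : 0 ≤ Real.sqrt (N : ℝ) := Real.sqrt_nonneg _
    have hdd : d₀ ≤ d := by
      have h2 : (d₀ : ℝ) ≤ Real.sqrt N := by
        apply Real.le_sqrt_of_sq_le
        exact_mod_cast hN3
      have h3 : (d₀ : ℝ) ≤ d := h2.trans hω.le
      exact_mod_cast h3
    obtain ⟨⟨hd3, h5⟩, h6⟩ := hd₀ d hdd
    have hfac := factorial_le hq
    rw [← hd] at hfac
    have hq2 : 2 < q := by
      have h7 : Nat.factorial 3 ≤ d.factorial := Nat.factorial_le hd3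
      have h8 : Nat.factorial 3 = 6 := rfl
      omega
    have hNd : (N : ℝ) ≤ (d : ℝ) ^ 2 := by
      have h7 := Real.sq_sqrt (Nat.cast_nonneg N : (0 : ℝ) ≤ N)
      rw [← h7]
      exact pow_le_pow_left₀ hsN hω.le 2
    have hN0 : (0 : ℝ) < N := by
      have : (8 : ℝ) ≤ N := by exact_mod_cast hN8
      linarith
    have hb0 : 0 ≤ Real.log (2 * (N : ℝ) ^ 2) := log_pos_aux hN8
    have hb : Real.log (2 * (N : ℝ) ^ 2) ≤ Real.log (2 * (d : ℝ) ^ 4) := by
      apply Real.log_le_log (by positivity)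
      have : (N : ℝ) ^ 2 ≤ ((d : ℝ) ^ 2) ^ 2 := pow_le_pow_left₀ hN0.le hNd 2
      nlinarith
    have hL : Real.log (d.factorial : ℝ) ≤ Real.log q :=
      Real.log_le_log (by exact_mod_cast Nat.factorial_pos d) (by exact_mod_cast hfac)
    have h7 := h5 (Real.log q) _ hL hb0 hb
    have h8 := card_le_welch (N := N) hN8 hq2 ha hqa
    rw [← hd] at h8
    rw [← card_sol (N := N) (a := a) hq]
    set n : ℝ := ((sol N q a).card : ℝ) with hn
    have hn0 : 0 ≤ n := Nat.cast_nonneg _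
    set B : ℝ := (Real.log (2 * N ^ 2) / (Real.log q - Real.log 2)) ^ 2 with hB
    have h9 : n ≤ ((d : ℝ) + 1) + n * η' := by
      calc n ≤ ((d : ℝ) + 1) * (1 + n * B) := h8
        _ = ((d : ℝ) + 1) + n * (((d : ℝ) + 1) * B) := by ring
        _ ≤ ((d : ℝ) + 1) + n * η' := by
            have := mul_le_mul_of_nonneg_left h7 hn0
            linarith
    have h10 : (d : ℝ) + 1 ≤ (1 + η / 2) * d := by
      rw [div_le_iff₀ hη] at h6
      nlinarith
    have h11 : n * (1 - η') ≤ ((1 + η) * d) * (1 - η') := by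
      calc n * (1 - η') ≤ (d : ℝ) + 1 := by linarith
        _ ≤ (1 + η / 2) * d := h10
        _ = ((1 + η) * (1 - η')) * d := by rw [hη'1]
        _ = _ := by ring
    exact le_of_mul_le_mul_right h11 (by linarith)

end Pool.Agent.W8ef934h95
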